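import Pool.Agent.LibDS69.Fin2
import Pool.Agent.LibKlVar.KV_H4

/-!
# [DS69 COR] the corollary for all primes
-/
set_option autoImplicit false
open Finset Filter CS68

namespace DS69

/-- primes in `(X, 2X]` -/
def pr (X : ℕ) : Finset ℕ := (Ioc X (2 * X)).filter Nat.Prime

/-- real power lower bound for floors -/
private theorem floor_half (t : ℝ) (ht : 1 ≤ t) : t / 2 ≤ (⌊t⌋₊ : ℝ) := by
  have h1 : t < (⌊t⌋₊ : ℝ) + 1 := Nat.lt_floor_add_one t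
  have h2 : (1 : ℝ) ≤ (⌊t⌋₊ : ℝ) := by
    exact_mod_cast Nat.le_floor (by simpa using ht)
  linarith

/-- the counting consequence of a mean bound -/
theorem many_of_mean (S : Finset (ℕ × ℕ)) (f : ℕ × ℕ → ℕ) (M : ℕ) (hM : 0 < M) (μ : ℝ) (hμ : 0 < μ)
    (hf : ∀ x ∈ S, 2 * f x ≤ M) (h : μ ≤ (∑ x ∈ S, (f x : ℝ)) / (#S * M)) :
    μ / 2 * #S ≤ #(S.filter (fun x => μ / 2 * M ≤ (f x : ℝ))) := by
  have hM' : (0 : ℝ) < M := by exact_mod_cast hM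
  have hS : (0 : ℝ) < #S := by
    by_contra h1
    have h2 : (#S : ℝ) = 0 := le_antisymm (not_lt.1 h1) (Nat.cast_nonneg _)
    rw [h2, zero_mul, div_zero] at h
    linarith
  rw [le_div_iff₀ (by positivity)] at h
  have h1 : ∑ x ∈ S, (f x : ℝ) ≤ #(S.filter (fun x => μ / 2 * M ≤ (f x : ℝ))) * (M / 2 : ℝ) + #S * (μ / 2 * M) := by
    rw [← sum_filter_add_sum_filter_not S (fun x => μ / 2 * M ≤ (f x : ℝ))]
    refine add_le_add ?_ ?_
    · rw [← nsmul_eq_mul]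
      refine sum_le_card_nsmul _ _ _ fun x hx => ?_
      have h2 := hf x (mem_filter.1 hx).1
      have h3 : (2 : ℝ) * f x ≤ M := by exact_mod_cast h2
      linarith
    · have h2 : ∑ x ∈ S.filter (fun x => ¬ μ / 2 * M ≤ (f x : ℝ)), (f x : ℝ) ≤
          #(S.filter (fun x => ¬ μ / 2 * M ≤ (f x : ℝ))) * (μ / 2 * M) := by
        rw [← nsmul_eq_mul]
        refine sum_le_card_nsmul _ _ _ fun x hx => ?_
        exact (not_le.1 (mem_filter.1 hx).2).le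
      refine h2.trans ?_
      gcongr
      exact filter_subset _ _
  have h2 : μ * (#S * M) ≤ #(S.filter (fun x => μ / 2 * M ≤ (f x : ℝ))) * (M / 2 : ℝ) + #S * (μ / 2 * M) := h.trans h1
  have h3 : μ * #S ≤ #(S.filter (fun x => μ / 2 * M ≤ (f x : ℝ))) := by
    have h4 : (μ * #S) * (M / 2) ≤ #(S.filter (fun x => μ / 2 * M ≤ (f x : ℝ))) * (M / 2 : ℝ) := by nlinarith
    exact le_of_mul_le_mul_right h4 (by positivity)
  have h5 : 0 ≤ μ / 2 * #S := by positivity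
  linarith

theorem mcnt_two (b : ℤ) (M c : ℕ) : 2 * mcnt b M c ≤ M := by
  unfold mcnt
  set A := (Icc 1 M).filter (fun m : ℕ => su c b m = 1) with hA
  set B := (Icc 1 M).filter (fun m : ℕ => su c b m = -1) with hB
  have h1 : Disjoint A B := by
    rw [disjoint_left]
    intro m hm hm2
    rw [hA, mem_filter] at hm
    rw [hB, mem_filter] at hm2
    rw [hm.2] at hm2
    exact absurd hm2.2 (by decide)
  have h2 : #A + #B ≤ M := by
    rw [← card_union_of_disjoint h1]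
    calc #(A ∪ B) ≤ #(Icc 1 M) := card_le_card (union_subset (filter_subset _ _) (filter_subset _ _))
      _ = M := by simp
  have h3 := min_le_left #A #B
  have h4 := min_le_right #A #B
  omega

/-- the pairs `(p,q)`, `p` a prime in `(KX, 2KX]`, `q` a prime in `(X, 2X]` -/
def prs (K X : ℕ) : Finset (ℕ × ℕ) := pr (X * K) ×ˢ pr X

theorem scales (b : ℤ) (hb : b ≠ 0) (ε : ℝ) (hε : 0 < ε) (hε1 : ε ≤ 1) :
    ∀ᶠ Y : ℕ in atTop, 2 ≤ ⌊(Y : ℝ) ^ (ε / 2)⌋₊ ∧ ∃ X : ℕ, Y ≤ X ∧ X ≤ Y ^ 2 ∧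
      ε / 10 ^ 12 * #(prs ⌊(Y : ℝ) ^ (ε / 2)⌋₊ X) ≤ #((prs ⌊(Y : ℝ) ^ (ε / 2)⌋₊ X).filter
        (fun x => ε / 10 ^ 12 * (⌊(Y : ℝ) ^ ε⌋₊ : ℕ) ≤ (mcnt b ⌊(Y : ℝ) ^ ε⌋₊ (x.1 * x.2) : ℝ))) := by
  obtain ⟨X₀, hX₀⟩ := Pool.KV.primes_dyadic
  set J := ⌈2 / ε⌉₊ with hJ
  have h2e : 2 ≤ 2 / ε := by rw [le_div_iff₀ hε]; linarith
  have hJ2 : 2 ≤ J := by
    have h1 : (2 : ℝ) ≤ J := h2e.trans (Nat.le_ceil _)
    exact_mod_cast h1
  have hJle : (J : ℝ) ≤ 3 / ε := by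
    have h1 : (J : ℝ) < 2 / ε + 1 := Nat.ceil_lt_add_one (by positivity)
    have h2 : 1 ≤ 1 / ε := by rw [le_div_iff₀ hε]; linarith
    have h3 : 3 / ε = 2 / ε + 1 / ε := by ring
    linarith
  have hJlt : (J : ℝ) - 1 ≤ 2 / ε := by
    have h1 : (J : ℝ) < 2 / ε + 1 := Nat.ceil_lt_add_one (by positivity)
    linarith
  have hJge : 2 / ε ≤ J := Nat.le_ceil _
  have hε2 : 0 < ε / 2 := by linarith
  -- growth
  have t1 : Tendsto (fun Y : ℕ => (Y : ℝ) ^ (ε / 2)) atTop atTop :=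
    (tendsto_rpow_atTop hε2).comp tendsto_natCast_atTop_atTop
  have t2 : ∀ᶠ Y : ℕ in atTop, Real.log (Y : ℝ) ≤ (1 / (10 ^ 11 * 6 * (3 / ε) * 2 * 2)) * (Y : ℝ) ^ (ε / 2) := by
    have h1 := (isLittleO_log_rpow_atTop hε2).bound (show (0 : ℝ) < 1 / (10 ^ 11 * 6 * (3 / ε) * 2 * 2) by positivity)
    have h2 := tendsto_natCast_atTop_atTop.eventually h1
    filter_upwards [h2, eventually_ge_atTop 1] with Y hY hY1
    have h3 : 0 ≤ Real.log (Y : ℝ) := Real.log_natCast_nonneg _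
    rw [Real.norm_of_nonneg h3, Real.norm_of_nonneg (by positivity)] at hY
    exact hY
  filter_upwards [eventually_ge_atTop X₀, eventually_gt_atTop b.natAbs, eventually_ge_atTop 3,
    t1.eventually_ge_atTop 4, t1.eventually_ge_atTop (10 ^ 11 * 2 ^ J), t2] with Y y1 y2 y3 y4 y5 y6
  have hY3 : (3 : ℝ) ≤ Y := by exact_mod_cast y3
  have hY0 : (0 : ℝ) < Y := by linarith
  have hY1 : (1 : ℝ) ≤ Y := by linarith
  set K := ⌊(Y : ℝ) ^ (ε / 2)⌋₊ with hK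
  set M := ⌊(Y : ℝ) ^ ε⌋₊ with hM
  have hYe : (Y : ℝ) ^ ε = (Y : ℝ) ^ (ε / 2) * (Y : ℝ) ^ (ε / 2) := by
    rw [← Real.rpow_add hY0]; congr 1; ring
  have hYe1 : (1 : ℝ) ≤ (Y : ℝ) ^ ε := by rw [hYe]; nlinarith
  have hK1 : (Y : ℝ) ^ (ε / 2) / 2 ≤ K := floor_half _ (by linarith)
  have hM1 : (Y : ℝ) ^ ε / 2 ≤ M := floor_half _ hYe1
  have hK2 : (K : ℝ) ≤ (Y : ℝ) ^ (ε / 2) := Nat.floor_le (by positivity)
  have hM2 : (M : ℝ) ≤ (Y : ℝ) ^ ε := Nat.floor_le (by positivity)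
  have hKge : 2 ≤ K := by
    have h1 : (2 : ℝ) ≤ K := by linarith
    exact_mod_cast h1
  have hMpos : 0 < M := by
    have h1 : (0 : ℝ) < M := by linarith
    exact_mod_cast h1
  have hMY : M ≤ Y := by
    have h1 : (M : ℝ) ≤ Y := hM2.trans (by
      calc (Y : ℝ) ^ ε ≤ (Y : ℝ) ^ (1 : ℝ) := Real.rpow_le_rpow_of_exponent_le hY1 hε1
        _ = Y := Real.rpow_one _)
    exact_mod_cast h1
  have hlogY : 0 < Real.log Y := Real.log_pos (by linarith)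
  -- powers of K
  have hKpow : ∀ j : ℕ, (K : ℝ) ^ j ≤ (Y : ℝ) ^ (ε / 2 * j) := by
    intro j
    calc (K : ℝ) ^ j ≤ ((Y : ℝ) ^ (ε / 2)) ^ j := by gcongr
      _ = (Y : ℝ) ^ (ε / 2 * j) := by rw [Real.rpow_mul hY0.le, Real.rpow_natCast]
  have hKJ : ∀ j < J, K ^ j ≤ Y := by
    intro j hj
    have h1 : (K : ℝ) ^ j ≤ (Y : ℝ) ^ (1 : ℝ) := (hKpow j).trans
      (Real.rpow_le_rpow_of_exponent_le hY1 (by
        have h2 : (j : ℝ) ≤ J - 1 := by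
          have : (j : ℝ) + 1 ≤ J := by exact_mod_cast hj
          linarith
        calc ε / 2 * j ≤ ε / 2 * (2 / ε) := by gcongr; linarith
          _ = 1 := by field_simp))
    rw [Real.rpow_one] at h1
    exact_mod_cast h1
  have hKJ2 : ∀ j ≤ J, (K : ℝ) ^ j ≤ (Y : ℝ) ^ 2 := by
    intro j hj
    refine (hKpow j).trans ?_
    rw [← Real.rpow_natCast]
    refine Real.rpow_le_rpow_of_exponent_le hY1 ?_
    have h2 : (j : ℝ) ≤ J := by exact_mod_cast hj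
    calc ε / 2 * j ≤ ε / 2 * (2 / ε + 1) := by gcongr; linarith
      _ = 1 + ε / 2 := by field_simp
      _ ≤ ((2 : ℕ) : ℝ) := by push_cast; linarith
  have hX : ∀ j ≤ J, Y ≤ Y * K ^ j ∧ ((Y * K ^ j : ℕ) : ℝ) ≤ (Y : ℝ) ^ 3 := by
    intro j hj
    refine ⟨Nat.le_mul_of_pos_right _ (by positivity), ?_⟩
    push_cast
    calc (Y : ℝ) * K ^ j ≤ Y * Y ^ 2 := by gcongr; exact hKJ2 j hj
      _ = Y ^ 3 := by ring
  have hP : ∀ j ≤ J, InX (Y * K ^ j) (pr (Y * K ^ j)) ∧ ((Y * K ^ j : ℕ) : ℝ) ≤ (6 * Real.log Y) * #(pr (Y * K ^ j)) ∧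
      ∀ p ∈ pr (Y * K ^ j), ¬ (p : ℤ) ∣ b := by
    intro j hj
    obtain ⟨h1, h2⟩ := hX j hj
    refine ⟨fun p hp => ?_, ?_, fun p hp hpb => ?_⟩
    · rw [pr, mem_filter, mem_Ioc] at hp
      exact ⟨hp.2, hp.1.1, hp.1.2⟩
    · have h3 := hX₀ (Y * K ^ j) (y1.trans h1)
      have h4 : Real.log ((Y * K ^ j : ℕ) : ℝ) ≤ 3 * Real.log Y := by
        calc Real.log ((Y * K ^ j : ℕ) : ℝ) ≤ Real.log ((Y : ℝ) ^ 3) := Real.log_le_log (by positivity) h2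
          _ = 3 * Real.log Y := by rw [Real.log_pow]; norm_num
      have h5 : 0 < Real.log ((Y * K ^ j : ℕ) : ℝ) := Real.log_pos (by
        have : (Y : ℝ) ≤ ((Y * K ^ j : ℕ) : ℝ) := by exact_mod_cast h1
        linarith)
      rw [div_le_iff₀ (by positivity)] at h3
      have h6 : (0 : ℝ) ≤ #((Ioc (Y * K ^ j) (2 * (Y * K ^ j))).filter Nat.Prime) := Nat.cast_nonneg _
      unfold pr
      nlinarith
    · rw [pr, mem_filter, mem_Ioc] at hp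
      have h3 : p ∣ b.natAbs := Int.natCast_dvd.1 hpb
      have h4 := Nat.le_of_dvd (Int.natAbs_pos.2 hb) h3
      omega
  have c1 : 10 ^ 11 * (6 * Real.log Y) * K * J ≤ M := by
    have h1 : (10 ^ 11 * (6 * Real.log Y) * K * J : ℝ) ≤ 10 ^ 11 * (6 * ((1 / (10 ^ 11 * 6 * (3 / ε) * 2 * 2)) * (Y : ℝ) ^ (ε / 2))) * (Y : ℝ) ^ (ε / 2) * (3 / ε) := by
      gcongr
    have h2 : (10 : ℝ) ^ 11 * (6 * ((1 / (10 ^ 11 * 6 * (3 / ε) * 2 * 2)) * (Y : ℝ) ^ (ε / 2))) * (Y : ℝ) ^ (ε / 2) * (3 / ε) =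
        ((Y : ℝ) ^ (ε / 2) * (Y : ℝ) ^ (ε / 2)) / 4 := by field_simp; norm_num
    rw [h2, ← hYe] at h1
    linarith
  have c2 : 10 ^ 11 * Y ≤ M * K ^ (J - 1) := by
    have h1 : (10 ^ 11 * Y : ℝ) ≤ M * K ^ (J - 1) := by
      have h2 : ((Y : ℝ) ^ (ε / 2) / 2) ^ (J - 1) ≤ (K : ℝ) ^ (J - 1) := by gcongr
      have h3 : ((Y : ℝ) ^ ε / 2) * ((Y : ℝ) ^ (ε / 2) / 2) ^ (J - 1) ≤ M * K ^ (J - 1) := by gcongr
      refine le_trans ?_ h3
      have h4 : ((Y : ℝ) ^ ε / 2) * ((Y : ℝ) ^ (ε / 2) / 2) ^ (J - 1) = (Y : ℝ) ^ (ε + ε / 2 * ((J : ℝ) - 1)) / 2 ^ J := by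
        rw [div_pow, ← Real.rpow_natCast ((Y : ℝ) ^ (ε / 2)) (J - 1), ← Real.rpow_mul hY0.le, Real.rpow_add hY0]
        have h5 : ((J - 1 : ℕ) : ℝ) = (J : ℝ) - 1 := by
          rw [Nat.cast_sub (by omega)]; simp
        have h6 : (2 : ℝ) ^ J = 2 * 2 ^ (J - 1) := by
          rw [← pow_succ']; congr 1; omega
        rw [h5, h6]
        field_simp
      rw [h4, le_div_iff₀ (by positivity)]
      calc (10 ^ 11 * Y : ℝ) * 2 ^ J = (10 ^ 11 * 2 ^ J) * Y := by ring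
        _ ≤ (Y : ℝ) ^ (ε / 2) * Y := by gcongr
        _ = (Y : ℝ) ^ (ε / 2 + 1) := by rw [Real.rpow_add hY0, Real.rpow_one]
        _ ≤ (Y : ℝ) ^ (ε + ε / 2 * ((J : ℝ) - 1)) := Real.rpow_le_rpow_of_exponent_le hY1 (by
            have h7 : ε / 2 * (2 / ε) ≤ ε / 2 * J := by gcongr
            have h8 : ε / 2 * (2 / ε) = 1 := by field_simp
            linarith)
    exact_mod_cast h1
  have hmain := main2 b K J M Y (6 * Real.log Y) (fun j => pr (Y * K ^ j)) hKge (by omega) hMY c1 c2 hMpos hP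
  -- a good scale
  obtain ⟨j, hj, hjge⟩ : ∃ j ∈ range J, 1 / 10 ^ 11 / (J : ℝ) ≤ dl b M (pr (Y * K ^ (j + 1))) (pr (Y * K ^ j)) := by
    by_contra hcon
    push Not at hcon
    have h1 : ∑ j ∈ range J, dl b M (pr (Y * K ^ (j + 1))) (pr (Y * K ^ j)) < ∑ _j ∈ range J, 1 / 10 ^ 11 / (J : ℝ) :=
      sum_lt_sum_of_nonempty (by simp; omega) hcon
    rw [sum_const, card_range, nsmul_eq_mul, mul_div_cancel₀ _ (by positivity)] at h1
    linarith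
  rw [mem_range] at hj
  refine ⟨hKge, Y * K ^ j, (hX j hj.le).1, ?_, ?_⟩
  · calc Y * K ^ j ≤ Y * Y := by gcongr; exact hKJ j hj
      _ = Y ^ 2 := by ring
  · have hμ : ε / (3 * 10 ^ 11) ≤ dl b M (pr (Y * K ^ (j + 1))) (pr (Y * K ^ j)) := by
      refine le_trans ?_ hjge
      rw [div_div, div_le_div_iff₀ (by positivity) (by positivity)]
      have h1 : ε * J ≤ 3 := by
        calc ε * J ≤ ε * (3 / ε) := by gcongr
          _ = 3 := by field_simp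
      nlinarith
    have hdl : dl b M (pr (Y * K ^ (j + 1))) (pr (Y * K ^ j)) =
        (∑ x ∈ prs K (Y * K ^ j), ((mcnt b M (x.1 * x.2) : ℕ) : ℝ)) / (#(prs K (Y * K ^ j)) * M) := by
      unfold dl prs
      rw [card_product, sum_product]
      push_cast
      rw [show Y * K ^ j * K = Y * K ^ (j + 1) by ring]
    rw [hdl] at hμ
    have h2 := many_of_mean (prs K (Y * K ^ j)) (fun x => mcnt b M (x.1 * x.2)) M hMpos (ε / (3 * 10 ^ 11))
      (by positivity) (fun x _ => mcnt_two _ _ _) hμ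
    have h3 : ε / 10 ^ 12 ≤ ε / (3 * 10 ^ 11) / 2 := by
      rw [div_div]
      gcongr
      norm_num
    refine le_trans (by gcongr) (h2.trans ?_)
    gcongr with x hx

end DS69
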