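import Pool.Agent.LibDS69.W1

/-!
# [DS69 D1] the majority sign in one window
PLAN. `A = #(win V)`, `B = #(win W)`, `g = maj V`. `a⁺ = A - mi V g ≥ A/2` (definition of `maj`: the number of `+1` is `≥ A/2` if
`g = 1`; otherwise the number of `-1` is `> A/2`; units of `ℤ` are `± 1`: `Int.units_eq_one_or`). `b⁻ = mi W (e * g)`,
`b⁺ = B - b⁻`. A pair `(v,w)` with `s v = g`, `s w ≠ e g` has `s v * s w ≠ e`, and so has a pair with `s v ≠ g`, `s w = e g`:
`dis ≥ a⁺ b⁻ + a⁻ b⁺` (disjoint products of filters inside the filter). Hence `A b⁻ ≤ 2 dis`, and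
`B a⁻ ≤ 2 dis`: if `2 b⁺ ≥ B` then `B a⁻ ≤ 2 b⁺ a⁻ ≤ 2 dis`; otherwise `2 b⁻ ≥ B`, `2 dis ≥ 2 a⁺ b⁻ ≥ 2 a⁻ b⁻ ≥ a⁻ B`.
`local_two` is `local_one` with `mean ≤ 2 #win` (definition `gd`).
-/
set_option autoImplicit false
open Finset CS68

namespace DS69
variable {ι : Type} {R : ℕ} [NeZero R]

private theorem D1_split (S : Finset ι) (s : ι → ℤˣ) (g : ℤˣ) :
    #(S.filter (fun v => s v = g)) + #(S.filter (fun v => s v ≠ g)) = #S :=
  Finset.card_filter_add_card_filter_not (s := S) (fun v => s v = g)

theorem maj_half (V : Finset ι) (a : ι → ZMod R) (s : ι → ℤˣ) (l : ℕ) (y : ZMod R) :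
    2 * mi V a s l y (maj V a s l y) ≤ #(win V a l y) := by
  have h1 := D1_split (win V a l y) s 1
  unfold maj mi
  split_ifs with h
  · omega
  · have h2 : (win V a l y).filter (fun v => s v ≠ -1) = (win V a l y).filter (fun v => s v = 1) := by
      apply Finset.filter_congr
      intro v _
      rcases Int.units_eq_one_or (s v) with h | h <;> rw [h] <;> decide
    rw [h2]
    omega

private theorem D1_dis (V W : Finset ι) (a : ι → ZMod R) (s : ι → ℤˣ) (l : ℕ) (e g : ℤˣ) (y : ZMod R) :
    #((win V a l y).filter (fun v => s v = g)) * mi W a s l y (e * g) +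
      mi V a s l y g * #((win W a l y).filter (fun v => s v = e * g)) ≤ dis V W a s l e y := by
  classical
  unfold mi dis
  rw [← Finset.card_product, ← Finset.card_product, ← Finset.card_union_of_disjoint]
  · apply Finset.card_le_card
    intro t ht
    simp only [Finset.mem_union, Finset.mem_product, Finset.mem_filter] at ht ⊢
    rcases ht with ⟨⟨h1, h2⟩, h3, h4⟩ | ⟨⟨h1, h2⟩, h3, h4⟩
    · refine ⟨⟨h1, h3⟩, fun h5 => h4 ?_⟩
      rw [h2] at h5
      rw [← h5]
      rw [mul_comm g (s t.2), mul_assoc, Int.units_mul_self, mul_one]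
    · refine ⟨⟨h1, h3⟩, fun h5 => h2 ?_⟩
      rw [h4] at h5
      have h6 : s t.1 * g = 1 := by
        have h7 : e * (s t.1 * g) = e * 1 := by rw [mul_one]; rw [← h5]; rw [h5]; rw [← mul_assoc, mul_comm e, mul_assoc]; exact h5
        exact mul_left_cancel h7
      have h8 : s t.1 * g * g = g := by rw [h6, one_mul]
      rwa [mul_assoc, Int.units_mul_self, mul_one] at h8
  · rw [Finset.disjoint_left]
    intro t ht ht'
    simp only [Finset.mem_product, Finset.mem_filter] at ht ht'
    exact ht'.1.2 ht.1.2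

theorem local_one (V W : Finset ι) (a : ι → ZMod R) (s : ι → ℤˣ) (l : ℕ) (e : ℤˣ) (y : ZMod R) :
    #(win W a l y) * mi V a s l y (maj V a s l y) ≤ 2 * dis V W a s l e y ∧
    #(win V a l y) * mi W a s l y (e * maj V a s l y) ≤ 2 * dis V W a s l e y := by
  have h0 := maj_half V a s l y
  have h1 := D1_dis V W a s l e (maj V a s l y) y
  have h2 := D1_split (win V a l y) s (maj V a s l y)
  have h3 := D1_split (win W a l y) s (e * maj V a s l y)
  change _ + mi V a s l y (maj V a s l y) = _ at h2
  change _ + mi W a s l y (e * maj V a s l y) = _ at h3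
  generalize #((win V a l y).filter (fun v => s v = maj V a s l y)) = ap at *
  generalize #((win W a l y).filter (fun v => s v = e * maj V a s l y)) = bp at *
  generalize mi V a s l y (maj V a s l y) = am at *
  generalize mi W a s l y (e * maj V a s l y) = bm at *
  have h4 : am ≤ ap := by omega
  have h5 : am * bm ≤ ap * bm := Nat.mul_le_mul_right _ h4
  rw [← h2, ← h3]
  constructor
  · nlinarith
  · nlinarith

theorem local_two (V W : Finset ι) (a : ι → ZMod R) (s : ι → ℤˣ) (l : ℕ) (e : ℤˣ) (y : ZMod R)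
    (h : gd V W a l y) :
    mean W R l * mi V a s l y (maj V a s l y) ≤ 4 * dis V W a s l e y ∧
    mean V R l * mi W a s l y (e * maj V a s l y) ≤ 4 * dis V W a s l e y := by
  obtain ⟨h1, h2⟩ := local_one V W a s l e y
  have h1' : (#(win W a l y) : ℝ) * mi V a s l y (maj V a s l y) ≤ 2 * dis V W a s l e y := by
    exact_mod_cast h1
  have h2' : (#(win V a l y) : ℝ) * mi W a s l y (e * maj V a s l y) ≤ 2 * dis V W a s l e y := by
    exact_mod_cast h2
  constructor
  · calc mean W R l * mi V a s l y (maj V a s l y)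
        ≤ 2 * #(win W a l y) * mi V a s l y (maj V a s l y) :=
          mul_le_mul_of_nonneg_right h.2 (Nat.cast_nonneg _)
      _ ≤ 4 * dis V W a s l e y := by linarith
  · calc mean V R l * mi W a s l y (e * maj V a s l y)
        ≤ 2 * #(win V a l y) * mi W a s l y (e * maj V a s l y) :=
          mul_le_mul_of_nonneg_right h.1 (Nat.cast_nonneg _)
      _ ≤ 4 * dis V W a s l e y := by linarith

end DS69
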