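import Pool.Agent.LibDS69.D1

/-!
# [DS69 D2] one pair of scales, summed over all windows
PLAN. `sum_good`: sum `local_two` over the good `y` and use `sum_dis` and `Scale.disag`:
`mean W * ∑ mi V ≤ 4 ∑ dis ≤ 4 l ν (mean V) #W`, `mean W = #W l / R > 0`: `∑ mi V ≤ 4 ν (mean V) R`; likewise
`mean V * ∑ mi W ≤ 4 l ν (mean V) #W` gives `∑ mi W ≤ 4 ν l #W = 4 ν (mean W) R`.
`card_bad`: if `mean V > 2 #(win V)` then `(#(win V) - mean V)^2 ≥ (mean V)^2 / 4`: by `varV` at most `4 ρ R` such `y`; the same for `W`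
(`mean > 0`; Chebyshev: `Finset.card_nsmul_le_sum` on the filter).
-/
set_option autoImplicit false
open Finset CS68

namespace DS69
variable {ι : Type} {R : ℕ} [NeZero R]

theorem mean_pos (V : Finset ι) (l : ℕ) (hl : 0 < l) (hV : V.Nonempty) : 0 < mean V R l := by
  have hR : (0 : ℝ) < R := by exact_mod_cast Nat.pos_of_ne_zero (NeZero.ne R)
  have hl' : (0 : ℝ) < l := by exact_mod_cast hl
  have hV' : (0 : ℝ) < #V := by exact_mod_cast hV.card_pos
  unfold mean
  positivity

theorem Scale.nonneg {V W : Finset ι} {a : ι → ZMod R} {s : ι → ℤˣ} {l : ℕ} {e : ℤˣ} {ν ρ : ℝ}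
    (h : Scale V W a s l e ν ρ) : 0 ≤ ν ∧ 0 ≤ ρ := by
  have hR : (0 : ℝ) < R := by exact_mod_cast Nat.pos_of_ne_zero (NeZero.ne R)
  have hmV := mean_pos (R := R) V l h.hl h.hV
  have hW' : (0 : ℝ) < #W := by exact_mod_cast h.hW.card_pos
  constructor
  · have h1 := h.disag
    have h2 : 0 ≤ ν * (mean V R l * #W) := le_trans (Nat.cast_nonneg _) h1
    have h3 : 0 < mean V R l * #W := by positivity
    exact nonneg_of_mul_nonneg_left h2 h3
  · have h1 := h.varV
    have h2 : 0 ≤ ρ * (R * mean V R l ^ 2) := by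
      have h4 : 0 ≤ ∑ y : ZMod R, ((#(win V a l y) : ℝ) - mean V R l) ^ 2 :=
        Finset.sum_nonneg (fun y _ => by positivity)
      have h5 := h4.trans h1
      rwa [mul_assoc] at h5
    have h3 : 0 < R * mean V R l ^ 2 := by positivity
    exact nonneg_of_mul_nonneg_left h2 h3

private theorem D2_cheb (U : Finset ι) (a : ι → ZMod R) (l : ℕ) (ρ : ℝ)
    (hm : 0 < mean U R l)
    (hv : ∑ y : ZMod R, ((#(win U a l y) : ℝ) - mean U R l) ^ 2 ≤ ρ * R * mean U R l ^ 2)
    (F : Finset (ZMod R)) (hF : ∀ y ∈ F, 2 * (#(win U a l y) : ℝ) < mean U R l) :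
    (#F : ℝ) ≤ 4 * ρ * R := by
  have h1 : (#F : ℝ) * (mean U R l ^ 2 / 4) ≤
      ∑ y ∈ F, ((#(win U a l y) : ℝ) - mean U R l) ^ 2 := by
    rw [← nsmul_eq_mul]
    apply Finset.card_nsmul_le_sum
    intro y hy
    have h2 := hF y hy
    have h3 : (0 : ℝ) ≤ (#(win U a l y) : ℝ) := Nat.cast_nonneg _
    nlinarith
  have h4 : ∑ y ∈ F, ((#(win U a l y) : ℝ) - mean U R l) ^ 2 ≤
      ∑ y : ZMod R, ((#(win U a l y) : ℝ) - mean U R l) ^ 2 := by
    apply Finset.sum_le_sum_of_subset_of_nonneg (Finset.subset_univ F)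
    intro y _ _
    positivity
  have h5 : (#F : ℝ) * (mean U R l ^ 2 / 4) ≤ (4 * ρ * R) * (mean U R l ^ 2 / 4) := by
    calc (#F : ℝ) * (mean U R l ^ 2 / 4) ≤ ρ * R * mean U R l ^ 2 := h1.trans (h4.trans hv)
      _ = (4 * ρ * R) * (mean U R l ^ 2 / 4) := by ring
  exact le_of_mul_le_mul_right h5 (by positivity)

open Classical in
theorem sum_good {V W : Finset ι} {a : ι → ZMod R} {s : ι → ℤˣ} {l : ℕ} {e : ℤˣ} {ν ρ : ℝ}
    (h : Scale V W a s l e ν ρ) :
    ∑ y ∈ univ.filter (gd V W a l), (mi V a s l y (maj V a s l y) : ℝ) ≤ 4 * ν * (mean V R l * R) ∧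
    ∑ y ∈ univ.filter (gd V W a l), (mi W a s l y (e * maj V a s l y) : ℝ) ≤
      4 * ν * (mean W R l * R) := by
  have hR : (0 : ℝ) < R := by exact_mod_cast Nat.pos_of_ne_zero (NeZero.ne R)
  have hl' : (0 : ℝ) < l := by exact_mod_cast h.hl
  have hmV := mean_pos (R := R) V l h.hl h.hV
  have hmW := mean_pos (R := R) W l h.hl h.hW
  have hW' : (0 : ℝ) < #W := by exact_mod_cast h.hW.card_pos
  have hd : 4 * ∑ y ∈ univ.filter (gd V W a l), (dis V W a s l e y : ℝ) ≤
      4 * (l * (ν * (mean V R l * #W))) := by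
    have h1 : ∑ y ∈ univ.filter (gd V W a l), (dis V W a s l e y : ℝ) ≤
        ∑ y : ZMod R, (dis V W a s l e y : ℝ) := by
      apply Finset.sum_le_sum_of_subset_of_nonneg (Finset.filter_subset _ _)
      intro y _ _
      positivity
    have h2 : ∑ y : ZMod R, (dis V W a s l e y : ℝ) ≤
        (l : ℝ) * (#((V ×ˢ W).filter (fun t => near l (a t.1 - a t.2) ∧ s t.1 * s t.2 ≠ e)) : ℝ) := by
      exact_mod_cast sum_dis V W a s l h.hlR e
    have h3 := mul_le_mul_of_nonneg_left h.disag hl'.le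
    linarith
  constructor
  · have h1 : mean W R l * ∑ y ∈ univ.filter (gd V W a l), (mi V a s l y (maj V a s l y) : ℝ) ≤
        4 * ∑ y ∈ univ.filter (gd V W a l), (dis V W a s l e y : ℝ) := by
      rw [Finset.mul_sum, Finset.mul_sum]
      apply Finset.sum_le_sum
      intro y hy
      exact (local_two V W a s l e y (Finset.mem_filter.mp hy).2).1
    have h2 : mean W R l * ∑ y ∈ univ.filter (gd V W a l), (mi V a s l y (maj V a s l y) : ℝ) ≤
        mean W R l * (4 * ν * (mean V R l * R)) := by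
      refine (h1.trans hd).trans (le_of_eq ?_)
      have e1 : mean W R l = #W * l / R := rfl
      rw [e1]
      field_simp
    exact le_of_mul_le_mul_left h2 hmW
  · have h1 : mean V R l * ∑ y ∈ univ.filter (gd V W a l), (mi W a s l y (e * maj V a s l y) : ℝ) ≤
        4 * ∑ y ∈ univ.filter (gd V W a l), (dis V W a s l e y : ℝ) := by
      rw [Finset.mul_sum, Finset.mul_sum]
      apply Finset.sum_le_sum
      intro y hy
      exact (local_two V W a s l e y (Finset.mem_filter.mp hy).2).2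
    have h2 : mean V R l * ∑ y ∈ univ.filter (gd V W a l), (mi W a s l y (e * maj V a s l y) : ℝ) ≤
        mean V R l * (4 * ν * (mean W R l * R)) := by
      refine (h1.trans hd).trans (le_of_eq ?_)
      have e1 : mean W R l = #W * l / R := rfl
      rw [e1]
      field_simp
    exact le_of_mul_le_mul_left h2 hmV

open Classical in
theorem card_bad {V W : Finset ι} {a : ι → ZMod R} {s : ι → ℤˣ} {l : ℕ} {e : ℤˣ} {ν ρ : ℝ}
    (h : Scale V W a s l e ν ρ) :
    (#((univ : Finset (ZMod R)).filter (fun y => ¬ gd V W a l y)) : ℝ) ≤ 8 * ρ * R := by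
  have hmV := mean_pos (R := R) V l h.hl h.hV
  have hmW := mean_pos (R := R) W l h.hl h.hW
  have hV := D2_cheb V a l ρ hmV h.varV
    (univ.filter (fun y => 2 * (#(win V a l y) : ℝ) < mean V R l))
    (fun y hy => (Finset.mem_filter.mp hy).2)
  have hW := D2_cheb W a l ρ hmW h.varW
    (univ.filter (fun y => 2 * (#(win W a l y) : ℝ) < mean W R l))
    (fun y hy => (Finset.mem_filter.mp hy).2)
  have hsub : (univ : Finset (ZMod R)).filter (fun y => ¬ gd V W a l y) ⊆
      univ.filter (fun y => 2 * (#(win V a l y) : ℝ) < mean V R l) ∪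
      univ.filter (fun y => 2 * (#(win W a l y) : ℝ) < mean W R l) := by
    intro y hy
    have h1 := (Finset.mem_filter.mp hy).2
    rw [Finset.mem_union, Finset.mem_filter, Finset.mem_filter]
    by_contra hcon
    push Not at hcon
    apply h1
    exact ⟨hcon.1 (Finset.mem_univ y), hcon.2 (Finset.mem_univ y)⟩
  have hc : (#((univ : Finset (ZMod R)).filter (fun y => ¬ gd V W a l y)) : ℝ) ≤
      (#(univ.filter (fun y : ZMod R => 2 * (#(win V a l y) : ℝ) < mean V R l)) : ℝ) +
      (#(univ.filter (fun y : ZMod R => 2 * (#(win W a l y) : ℝ) < mean W R l)) : ℝ) := by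
    have h2 := (Finset.card_le_card hsub).trans (Finset.card_union_le _ _)
    exact_mod_cast h2
  linarith

end DS69
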