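import Pool.Agent.LibDS69.D2

/-!
# [DS69 D3] two neighbouring pairs of scales
`V, W` with windows of length `l`; `W, Z` with windows of length `κ l`.
PLAN. The window `[y, y + κ l)` is the disjoint union of the windows `[y + i l, y + (i+1) l)`, `i < κ` (`win_split`: for `v` put
`t = (a v - y).val < κ l`, `i = t / l`; `(a v - (y + i l)).val = t - i l < l`; conversely). Let `(y, i)` be such that
`e * maj V l (y + i l) ≠ maj W (κ l) y`, `y + i l` good for `(V, W, l)` and `y` good for `(W, Z, κ l)`. Each point `w` of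
`win W l (y + i l)` has `s w ≠ e * maj V l (y + i l)` or `s w ≠ maj W (κ l) y`, so
`mean W l ≤ 2 #(win W l (y + i l)) ≤ 2 (mi W l (y + i l) (e * maj ..) + #{w ∈ win W l (y+il) : s w ≠ maj W (κ l) y})`.
Sum over all such `(y, i)`: the first part is `≤ κ * 4 ν (mean W l) R` (`sum_good` for `(V,W)`; for fixed `i` the map
`y ↦ y + i l` is a bijection), the second `≤ ∑_{y good} mi W (κ l) y (maj ..) ≤ 4 ν' (mean W (κ l)) R = 4 ν' κ (mean W l) R`
(`win_split` and `sum_good` for `(W,Z)`, first part). So their number is `≤ 8 κ (ν + ν') R`; the bad ones are `≤ κ 8 ρ R + κ 8 ρ' R`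
(`card_bad`).
-/
set_option autoImplicit false
open Finset CS68

namespace DS69
variable {ι : Type} {R : ℕ} [NeZero R]

private theorem D3_fib (l κ : ℕ) (hl : 0 < l) (h : κ * l ≤ R) (i : ℕ) (hi : i < κ) (d : ZMod R) :
    (d.val < κ * l ∧ d.val / l = i) ↔ (d - ((i * l : ℕ) : ZMod R)).val < l := by
  have hil : (i + 1) * l ≤ κ * l := Nat.mul_le_mul_right _ hi
  constructor
  · rintro ⟨h1, h2⟩
    have h3 : i * l ≤ d.val := by rw [← h2]; exact Nat.div_mul_le_self _ _
    have h4 : d.val < (i + 1) * l := by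
      rw [← h2]; rw [Nat.add_mul, one_mul]; exact Nat.lt_div_mul_add hl
    have h5 : d - ((i * l : ℕ) : ZMod R) = ((d.val - i * l : ℕ) : ZMod R) := by
      rw [Nat.cast_sub h3, ZMod.natCast_zmod_val]
    have h6 : d.val - i * l < l := by
      rw [Nat.add_mul, one_mul] at h4; omega
    rw [h5, ZMod.val_cast_of_lt]
    · exact h6
    · rw [Nat.add_mul, one_mul] at hil; omega
  · intro h1
    set e := d - ((i * l : ℕ) : ZMod R) with he
    have h2 : d = ((e.val + i * l : ℕ) : ZMod R) := by
      rw [Nat.cast_add, ZMod.natCast_zmod_val, he]; ring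
    have h3 : d.val = e.val + i * l := by
      conv_lhs => rw [h2]
      rw [ZMod.val_cast_of_lt]
      rw [Nat.add_mul, one_mul] at hil; omega
    constructor
    · rw [h3]; rw [Nat.add_mul, one_mul] at hil; omega
    · rw [h3, Nat.add_mul_div_right _ _ hl, Nat.div_eq_of_lt h1, zero_add]

/-- a long window is the disjoint union of short ones; for an arbitrary property `Q` of the points -/
theorem win_split (V : Finset ι) (a : ι → ZMod R) (l κ : ℕ) (hl : 0 < l) (h : κ * l ≤ R) (y : ZMod R)
    (Q : ι → Prop) [DecidablePred Q] :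
    #((win V a (κ * l) y).filter Q) = ∑ i ∈ range κ, #((win V a l (y + ((i * l : ℕ) : ZMod R))).filter Q) := by
  classical
  have hmap : ∀ v ∈ (win V a (κ * l) y).filter Q, (a v - y).val / l ∈ range κ := by
    intro v hv
    simp only [win, Finset.mem_filter] at hv
    rw [Finset.mem_range]
    exact Nat.div_lt_of_lt_mul (by rw [mul_comm]; exact hv.1.2)
  rw [Finset.card_eq_sum_card_fiberwise (f := fun v => (a v - y).val / l) (t := range κ) hmap]
  apply Finset.sum_congr rfl
  intro i hi
  rw [Finset.mem_range] at hi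
  congr 1
  ext v
  simp only [win, Finset.mem_filter]
  have h1 := D3_fib l κ hl h i hi (a v - y)
  rw [show a v - (y + ((i * l : ℕ) : ZMod R)) = a v - y - ((i * l : ℕ) : ZMod R) by ring]
  constructor
  · rintro ⟨⟨⟨h2, h3⟩, h4⟩, h5⟩
    exact ⟨⟨h2, h1.1 ⟨h3, h5⟩⟩, h4⟩
  · rintro ⟨⟨h2, h3⟩, h4⟩
    obtain ⟨h5, h6⟩ := h1.2 h3
    exact ⟨⟨⟨h2, h5⟩, h4⟩, h6⟩

private theorem D3_pt (W : Finset ι) (a : ι → ZMod R) (s : ι → ℤˣ) (l : ℕ) (y : ZMod R) (g g' : ℤˣ)
    (h : g ≠ g') : #(win W a l y) ≤ mi W a s l y g + #((win W a l y).filter (fun v => s v ≠ g')) := by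
  classical
  unfold mi
  refine le_trans (Finset.card_le_card ?_) (Finset.card_union_le _ _)
  intro v hv
  rw [Finset.mem_union, Finset.mem_filter, Finset.mem_filter]
  by_cases h1 : s v = g
  · right
    exact ⟨hv, by rw [h1]; exact h⟩
  · left
    exact ⟨hv, h1⟩

private theorem D3_shift (κ : ℕ) (c : ℕ → ZMod R) (G : ZMod R → Prop) [DecidablePred G] (f : ZMod R → ℝ)
    : ∑ t ∈ (univ : Finset (ZMod R)) ×ˢ range κ, (if G (t.1 + c t.2) then f (t.1 + c t.2) else 0) =
      κ * ∑ y ∈ univ.filter G, f y := by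
  rw [Finset.sum_product_right]
  rw [Finset.sum_congr rfl (g := fun _ => ∑ y ∈ univ.filter G, f y)]
  · rw [Finset.sum_const, Finset.card_range, nsmul_eq_mul]
  · intro i _
    rw [Finset.sum_filter]
    exact Fintype.sum_equiv (Equiv.addRight (c i)) _ _ (fun y => rfl)

open Classical in
theorem compare {V W Z : Finset ι} {a : ι → ZMod R} {s : ι → ℤˣ} {l κ : ℕ} {e e' : ℤˣ} {ν ρ ν' ρ' : ℝ}
    (h : Scale V W a s l e ν ρ) (h' : Scale W Z a s (κ * l) e' ν' ρ') :
    (#(((univ : Finset (ZMod R)) ×ˢ range κ).filter (fun t =>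
      e * maj V a s l (t.1 + ((t.2 * l : ℕ) : ZMod R)) ≠ maj W a s (κ * l) t.1)) : ℝ) ≤
      8 * κ * (ν + ν' + ρ + ρ') * R := by
  set c : ℕ → ZMod R := fun i => ((i * l : ℕ) : ZMod R) with hc
  set D := (univ : Finset (ZMod R)) ×ˢ range κ with hD
  have hmW : 0 < mean W R l := mean_pos W l h.hl h.hW
  have hmeq : mean W R (κ * l) = κ * mean W R l := by
    unfold mean; push_cast; ring
  -- the three parts
  set X := D.filter (fun t => e * maj V a s l (t.1 + c t.2) ≠ maj W a s (κ * l) t.1) with hX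
  set X1 := X.filter (fun t => gd V W a l (t.1 + c t.2) ∧ gd W Z a (κ * l) t.1) with hX1
  set X2 := D.filter (fun t => ¬ gd V W a l (t.1 + c t.2)) with hX2
  set X3 := D.filter (fun t => ¬ gd W Z a (κ * l) t.1) with hX3
  have hsub : X ⊆ X1 ∪ (X2 ∪ X3) := by
    intro t ht
    have htD : t ∈ D := (Finset.mem_filter.1 ht).1
    rw [Finset.mem_union, Finset.mem_union]
    by_cases g1 : gd V W a l (t.1 + c t.2)
    · by_cases g2 : gd W Z a (κ * l) t.1
      · left; exact Finset.mem_filter.2 ⟨ht, g1, g2⟩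
      · right; right; exact Finset.mem_filter.2 ⟨htD, g2⟩
    · right; left; exact Finset.mem_filter.2 ⟨htD, g1⟩
  have hcard : (#X : ℝ) ≤ #X1 + (#X2 + #X3) := by
    have h1 := Finset.card_le_card hsub
    have h2 := Finset.card_union_le X1 (X2 ∪ X3)
    have h3 := Finset.card_union_le X2 X3
    exact_mod_cast (by omega : #X ≤ #X1 + (#X2 + #X3))
  -- second part
  have hX2c : (#X2 : ℝ) ≤ κ * (8 * ρ * R) := by
    have h1 : (#X2 : ℝ) = κ * ∑ y ∈ univ.filter (fun y => ¬ gd V W a l y), (1 : ℝ) := by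
      rw [← D3_shift κ c (fun y => ¬ gd V W a l y) (fun _ => 1), hX2, Finset.card_filter]
      push_cast
      rfl
    rw [h1, Finset.sum_const, nsmul_eq_mul, mul_one]
    exact mul_le_mul_of_nonneg_left (card_bad h) (Nat.cast_nonneg _)
  -- third part
  have hX3c : (#X3 : ℝ) ≤ κ * (8 * ρ' * R) := by
    have h1 : X3 = (univ.filter (fun y => ¬ gd W Z a (κ * l) y)) ×ˢ range κ := by
      ext t
      simp only [hX3, hD, Finset.mem_filter, Finset.mem_product, Finset.mem_univ, true_and]
      tauto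
    rw [h1, Finset.card_product, Finset.card_range, Nat.cast_mul, mul_comm]
    exact mul_le_mul_of_nonneg_left (card_bad h') (Nat.cast_nonneg _)
  -- first part
  have hX1c : mean W R l * #X1 ≤ mean W R l * (8 * κ * (ν + ν') * R) := by
    have hpt : ∀ t ∈ X1, mean W R l ≤ 2 * ((mi W a s l (t.1 + c t.2) (e * maj V a s l (t.1 + c t.2)) : ℝ) +
        #((win W a l (t.1 + c t.2)).filter (fun v => s v ≠ maj W a s (κ * l) t.1))) := by
      intro t ht
      rw [hX1, Finset.mem_filter, hX, Finset.mem_filter] at ht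
      have h1 := D3_pt W a s l (t.1 + c t.2) _ _ ht.1.2
      have h2 : (#(win W a l (t.1 + c t.2)) : ℝ) ≤
          (mi W a s l (t.1 + c t.2) (e * maj V a s l (t.1 + c t.2)) : ℝ) +
          #((win W a l (t.1 + c t.2)).filter (fun v => s v ≠ maj W a s (κ * l) t.1)) := by
        exact_mod_cast h1
      have h3 := ht.2.1.2
      linarith
    have hs : mean W R l * #X1 ≤ ∑ t ∈ X1,
        2 * ((mi W a s l (t.1 + c t.2) (e * maj V a s l (t.1 + c t.2)) : ℝ) +
        #((win W a l (t.1 + c t.2)).filter (fun v => s v ≠ maj W a s (κ * l) t.1))) := by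
      have h1 := Finset.card_nsmul_le_sum X1 _ _ hpt
      rw [nsmul_eq_mul] at h1
      linarith
    rw [← Finset.mul_sum, Finset.sum_add_distrib] at hs
    have hs1 : ∑ t ∈ X1, (mi W a s l (t.1 + c t.2) (e * maj V a s l (t.1 + c t.2)) : ℝ) ≤
        κ * (4 * ν * (mean W R l * R)) := by
      calc ∑ t ∈ X1, (mi W a s l (t.1 + c t.2) (e * maj V a s l (t.1 + c t.2)) : ℝ)
          = ∑ t ∈ X1, (if gd V W a l (t.1 + c t.2) then
              (mi W a s l (t.1 + c t.2) (e * maj V a s l (t.1 + c t.2)) : ℝ) else 0) := by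
            apply Finset.sum_congr rfl
            intro t ht
            rw [if_pos (Finset.mem_filter.1 ht).2.1]
        _ ≤ ∑ t ∈ D, (if gd V W a l (t.1 + c t.2) then
              (mi W a s l (t.1 + c t.2) (e * maj V a s l (t.1 + c t.2)) : ℝ) else 0) := by
            apply Finset.sum_le_sum_of_subset_of_nonneg
            · exact (Finset.filter_subset _ _).trans (Finset.filter_subset _ _)
            · intro t _ _
              split_ifs
              · exact Nat.cast_nonneg _
              · exact le_refl _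
        _ = κ * ∑ y ∈ univ.filter (gd V W a l), (mi W a s l y (e * maj V a s l y) : ℝ) :=
            D3_shift κ c (gd V W a l) (fun y => (mi W a s l y (e * maj V a s l y) : ℝ))
        _ ≤ κ * (4 * ν * (mean W R l * R)) :=
            mul_le_mul_of_nonneg_left (sum_good h).2 (Nat.cast_nonneg _)
    have hs2 : ∑ t ∈ X1, (#((win W a l (t.1 + c t.2)).filter (fun v => s v ≠ maj W a s (κ * l) t.1)) : ℝ) ≤
        4 * ν' * (mean W R (κ * l) * R) := by
      have hsub1 : X1 ⊆ (univ.filter (gd W Z a (κ * l))) ×ˢ range κ := by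
        intro t ht
        rw [hX1, Finset.mem_filter, hX, Finset.mem_filter, hD, Finset.mem_product] at ht
        rw [Finset.mem_product, Finset.mem_filter]
        exact ⟨⟨Finset.mem_univ _, ht.2.2⟩, ht.1.1.2⟩
      refine le_trans (Finset.sum_le_sum_of_subset_of_nonneg hsub1 (fun _ _ _ => Nat.cast_nonneg _)) ?_
      rw [Finset.sum_product]
      refine le_trans (le_of_eq ?_) (sum_good h').1
      apply Finset.sum_congr rfl
      intro y _
      have h1 := win_split W a l κ h.hl h'.hlR y (fun v => s v ≠ maj W a s (κ * l) y)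
      unfold mi
      rw [h1, Nat.cast_sum]
    rw [hmeq] at hs2
    nlinarith
  have hX1c' := le_of_mul_le_mul_left hX1c hmW
  have : 8 * (κ : ℝ) * (ν + ν' + ρ + ρ') * R = 8 * κ * (ν + ν') * R + (κ * (8 * ρ * R) + κ * (8 * ρ' * R)) := by
    ring
  rw [this]
  linarith

end DS69
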