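import Pool.Agent.LibDS69.D3

/-!
# [DS69 D4] the chain
Scales `V 0, ..., V (n+1)`; the pair `(V (j+1), V j)` has windows of length `κ^(n-j) * l`, `j ≤ n`.
PLAN. Induction on `k`: for `k ≤ n` there is a sign `E` with
`#{(y,i) : i < κ^k, maj (V (k+1)) (κ^(n-k) l) (y + i κ^(n-k) l) ≠ E * maj (V 1) (κ^n l) y} ≤ κ^k R ∑_{j<k} 8 (ν j + ν (j+1) + ρ j + ρ (j+1))`.
`k = 0`: `E = 1`, `i = 0`, empty set. Step `k → k+1`: write `i' = i κ + i1`, `i < κ^k`, `i1 < κ` (`Nat.div_add_mod`),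
`y + i' κ^(n-k-1) l = (y + i κ^(n-k) l) + i1 κ^(n-k-1) l`. If the new statement fails at `(y, i')` with `E' = e (k+1) * E`, then it fails
for `(y, i)` in the old one, or `e (k+1) * maj (V (k+2)) (..) ≠ maj (V (k+1)) (κ^(n-k) l) (y + i κ^(n-k) l)`: for fixed `i` the map
`y ↦ y + i κ^(n-k) l` is a bijection of `ZMod R`, so by `compare` (with `l := κ^(n-k-1) l`, `κ^(n-k) l = κ * (κ^(n-k-1) l)`) the number
of the latter is `≤ κ^k * 8 κ (ν k + ν (k+1) + ρ k + ρ (k+1)) R`. The number of the former is `≤ κ *` (old number).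
Last step: `∑_{j<n} 8 (ν j + ν (j+1) + ρ j + ρ (j+1)) ≤ 16 ∑_{j ≤ n} (ν j + ρ j)` (`Scale.nonneg`).
-/
set_option autoImplicit false
open Finset CS68

namespace DS69
variable {ι : Type} {R : ℕ} [NeZero R]

open Classical in
/-- One step of the chain: the counting. -/
private theorem D4_count (κ K L : ℕ) (hκ : 0 < κ) (p q r : ZMod R → ℕ → Prop)
    (hpq : ∀ y i', i' < κ * K → r y i' → p y (i' / κ) ∨
      q (y + ((i' / κ * (κ * L) : ℕ) : ZMod R)) (i' % κ)) :
    #(((univ : Finset (ZMod R)) ×ˢ range (κ * K)).filter (fun t => r t.1 t.2)) ≤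
      κ * #(((univ : Finset (ZMod R)) ×ˢ range K).filter (fun t => p t.1 t.2)) +
        K * #(((univ : Finset (ZMod R)) ×ˢ range κ).filter (fun t => q t.1 t.2)) := by
  set N := (univ : Finset (ZMod R)) ×ˢ range (κ * K)
  set A := N.filter (fun t => p t.1 (t.2 / κ)) with hA
  set B := N.filter (fun t => q (t.1 + ((t.2 / κ * (κ * L) : ℕ) : ZMod R)) (t.2 % κ)) with hB
  have hlt : ∀ i' : ℕ, i' < κ * K → i' / κ < K := fun i' h => Nat.div_lt_of_lt_mul h
  have h1 : N.filter (fun t => r t.1 t.2) ⊆ A ∪ B := by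
    intro t ht
    rw [mem_filter] at ht
    have h2 : t.2 < κ * K := by
      have := (mem_product.1 ht.1).2
      exact mem_range.1 this
    rw [mem_union, hA, hB, mem_filter, mem_filter]
    rcases hpq t.1 t.2 h2 ht.2 with h | h
    · exact Or.inl ⟨ht.1, h⟩
    · exact Or.inr ⟨ht.1, h⟩
  have h2 : #A ≤ #((((univ : Finset (ZMod R)) ×ˢ range K).filter (fun t => p t.1 t.2)) ×ˢ range κ) := by
    refine card_le_card_of_injOn (fun t => ((t.1, t.2 / κ), t.2 % κ)) ?_ ?_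
    · intro t ht
      have ht' := mem_filter.1 (mem_coe.1 ht)
      have h3 : t.2 < κ * K := mem_range.1 (mem_product.1 ht'.1).2
      refine mem_coe.2 (mem_product.2 ⟨mem_filter.2 ⟨mem_product.2 ⟨mem_univ _, mem_range.2 (hlt _ h3)⟩,
        ht'.2⟩, mem_range.2 (Nat.mod_lt _ hκ)⟩)
    · intro t _ t' _ h
      simp only [Prod.mk.injEq] at h
      refine Prod.ext h.1.1 ?_
      rw [← Nat.div_add_mod t.2 κ, ← Nat.div_add_mod t'.2 κ, h.1.2, h.2]
  have h3 : #B ≤ #((((univ : Finset (ZMod R)) ×ˢ range κ).filter (fun t => q t.1 t.2)) ×ˢ range K) := by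
    refine card_le_card_of_injOn
      (fun t => ((t.1 + ((t.2 / κ * (κ * L) : ℕ) : ZMod R), t.2 % κ), t.2 / κ)) ?_ ?_
    · intro t ht
      have ht' := mem_filter.1 (mem_coe.1 ht)
      have h3 : t.2 < κ * K := mem_range.1 (mem_product.1 ht'.1).2
      refine mem_coe.2 (mem_product.2 ⟨mem_filter.2 ⟨mem_product.2 ⟨mem_univ _,
        mem_range.2 (Nat.mod_lt _ hκ)⟩, ht'.2⟩, mem_range.2 (hlt _ h3)⟩)
    · intro t _ t' _ h
      simp only [Prod.mk.injEq] at h
      have h4 := h.1.1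
      rw [h.2] at h4
      refine Prod.ext (add_right_cancel h4) ?_
      rw [← Nat.div_add_mod t.2 κ, ← Nat.div_add_mod t'.2 κ, h.2, h.1.2]
  rw [card_product, card_range] at h2 h3
  calc #(N.filter (fun t => r t.1 t.2)) ≤ #(A ∪ B) := card_le_card h1
    _ ≤ #A + #B := card_union_le _ _
    _ ≤ _ := by
      rw [mul_comm κ, mul_comm K]
      exact add_le_add h2 h3

open Classical in
private theorem D4_ind (n κ l : ℕ) (hκ : 0 < κ) (V : ℕ → Finset ι) (a : ι → ZMod R) (s : ι → ℤˣ)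
    (e : ℕ → ℤˣ) (ν ρ : ℕ → ℝ)
    (h : ∀ j ≤ n, Scale (V (j + 1)) (V j) a s (κ ^ (n - j) * l) (e j) (ν j) (ρ j)) (k : ℕ)
    (hk : k ≤ n) :
    ∃ E : ℤˣ, (#(((univ : Finset (ZMod R)) ×ˢ range (κ ^ k)).filter (fun t =>
      maj (V (k + 1)) a s (κ ^ (n - k) * l) (t.1 + ((t.2 * (κ ^ (n - k) * l) : ℕ) : ZMod R)) ≠
        E * maj (V 1) a s (κ ^ n * l) t.1)) : ℝ) ≤
      (∑ j ∈ range k, 8 * (ν j + ν (j + 1) + ρ j + ρ (j + 1))) * (κ ^ k * R) := by
  induction k with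
  | zero =>
    refine ⟨1, ?_⟩
    rw [sum_range_zero, zero_mul]
    have h0 : (((univ : Finset (ZMod R)) ×ˢ range (κ ^ 0)).filter (fun t =>
      maj (V (0 + 1)) a s (κ ^ (n - 0) * l) (t.1 + ((t.2 * (κ ^ (n - 0) * l) : ℕ) : ZMod R)) ≠
        1 * maj (V 1) a s (κ ^ n * l) t.1)) = ∅ := by
      refine filter_eq_empty_iff.2 fun t ht => ?_
      have h1 : t.2 = 0 := by
        have := mem_range.1 (mem_product.1 ht).2
        rw [pow_zero] at this
        omega
      rw [not_not, h1, zero_mul, Nat.cast_zero, add_zero, one_mul, Nat.sub_zero, zero_add]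
    rw [h0, card_empty, Nat.cast_zero]
  | succ k ih =>
    obtain ⟨E, hE⟩ := ih (by omega)
    refine ⟨e (k + 1) * E, ?_⟩
    set L := κ ^ (n - (k + 1)) * l with hL
    have hKL : κ ^ (n - k) * l = κ * L := by
      have h1 : n - k = n - (k + 1) + 1 := by omega
      rw [h1, pow_succ', mul_assoc]
    have hc := h (k + 1) hk
    have hc' := h k (by omega)
    rw [hKL] at hE hc'
    have h2 := compare hc hc'
    have h3 := D4_count κ (κ ^ k) L hκ
      (fun y i => maj (V (k + 1)) a s (κ * L) (y + ((i * (κ * L) : ℕ) : ZMod R)) ≠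
        E * maj (V 1) a s (κ ^ n * l) y)
      (fun y i => e (k + 1) * maj (V (k + 1 + 1)) a s L (y + ((i * L : ℕ) : ZMod R)) ≠
        maj (V (k + 1)) a s (κ * L) y)
      (fun y i => maj (V (k + 1 + 1)) a s L (y + ((i * L : ℕ) : ZMod R)) ≠
        e (k + 1) * E * maj (V 1) a s (κ ^ n * l) y) (by
          intro y i' _ hne
          by_contra hcon
          rw [not_or, not_not, not_not] at hcon
          apply hne
          have h4 : y + ((i' / κ * (κ * L) : ℕ) : ZMod R) + ((i' % κ * L : ℕ) : ZMod R) =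
              y + ((i' * L : ℕ) : ZMod R) := by
            rw [add_assoc, ← Nat.cast_add]
            congr 2
            conv_rhs => rw [← Nat.div_add_mod i' κ]
            ring
          have h5 := hcon.2
          rw [h4, hcon.1] at h5
          rw [mul_assoc (e (k + 1)) E, ← h5, ← mul_assoc (e (k + 1)) (e (k + 1)), Int.units_mul_self,
            one_mul])
    rw [← pow_succ'] at h3
    have h6 : (#(((univ : Finset (ZMod R)) ×ˢ range (κ ^ (k + 1))).filter (fun t =>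
      maj (V (k + 1 + 1)) a s L (t.1 + ((t.2 * L : ℕ) : ZMod R)) ≠
        e (k + 1) * E * maj (V 1) a s (κ ^ n * l) t.1)) : ℝ) ≤
        κ * (#(((univ : Finset (ZMod R)) ×ˢ range (κ ^ k)).filter (fun t =>
          maj (V (k + 1)) a s (κ * L) (t.1 + ((t.2 * (κ * L) : ℕ) : ZMod R)) ≠
            E * maj (V 1) a s (κ ^ n * l) t.1)) : ℝ) +
        κ ^ k * (#(((univ : Finset (ZMod R)) ×ˢ range κ).filter (fun t =>
          e (k + 1) * maj (V (k + 1 + 1)) a s L (t.1 + ((t.2 * L : ℕ) : ZMod R)) ≠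
            maj (V (k + 1)) a s (κ * L) t.1)) : ℝ) := by
      exact_mod_cast h3
    refine h6.trans ?_
    have hκ0 : (0 : ℝ) ≤ κ := Nat.cast_nonneg κ
    calc _ ≤ (κ : ℝ) * ((∑ j ∈ range k, 8 * (ν j + ν (j + 1) + ρ j + ρ (j + 1))) * (κ ^ k * R)) +
          κ ^ k * (8 * κ * (ν (k + 1) + ν k + ρ (k + 1) + ρ k) * R) :=
          add_le_add (mul_le_mul_of_nonneg_left hE hκ0)
            (mul_le_mul_of_nonneg_left h2 (pow_nonneg hκ0 k))
      _ = _ := by
        rw [sum_range_succ, pow_succ]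
        ring

open Classical in
theorem chain (n κ l : ℕ) (hκ : 0 < κ) (V : ℕ → Finset ι) (a : ι → ZMod R) (s : ι → ℤˣ) (e : ℕ → ℤˣ)
    (ν ρ : ℕ → ℝ)
    (h : ∀ j ≤ n, Scale (V (j + 1)) (V j) a s (κ ^ (n - j) * l) (e j) (ν j) (ρ j)) :
    ∃ E : ℤˣ, (#(((univ : Finset (ZMod R)) ×ˢ range (κ ^ n)).filter (fun t =>
      maj (V (n + 1)) a s l (t.1 + ((t.2 * l : ℕ) : ZMod R)) ≠ E * maj (V 1) a s (κ ^ n * l) t.1)) : ℝ) ≤
      16 * (∑ j ∈ range (n + 1), (ν j + ρ j)) * (κ ^ n * R) := by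
  obtain ⟨E, hE⟩ := D4_ind n κ l hκ V a s e ν ρ h n le_rfl
  refine ⟨E, ?_⟩
  rw [Nat.sub_self, pow_zero, one_mul] at hE
  refine hE.trans (mul_le_mul_of_nonneg_right ?_ (by positivity))
  have h1 : ∑ j ∈ range n, 8 * (ν j + ν (j + 1) + ρ j + ρ (j + 1)) =
      8 * (∑ j ∈ range n, (ν j + ρ j)) + 8 * (∑ j ∈ range n, (ν (j + 1) + ρ (j + 1))) := by
    rw [mul_sum, mul_sum, ← sum_add_distrib]
    exact sum_congr rfl fun j _ => by ring
  have h2 := sum_range_succ (fun j => ν j + ρ j) n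
  have h3 := sum_range_succ' (fun j => ν j + ρ j) n
  have h4 := (h n le_rfl).nonneg
  have h5 := (h 0 (Nat.zero_le n)).nonneg
  rw [h1]
  linarith [h4.1, h4.2, h5.1, h5.2]

end DS69
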