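import Pool.Agent.LibDS69.D4

/-!
# [DS69 D5] the sign pattern of the top scale is almost constant on the longest windows
PLAN. Put `τ = ∑_{j ≤ n} (ν j + ρ j)`, `L = κ^n l`. If `τ ≥ 1` take `g = 1`: the left side is `≤ ∑_y #(win) = #V L` (`sum_win`).
Let `τ < 1`, `E` from `chain`, `g y = E * maj (V 1) L y`. By `win_split` (with `κ^n` for `κ`)
`mi V L y (g y) = ∑_{i < κ^n} #{v ∈ win V l (y + i l) : s v ≠ g y}`. For each `(y, i)`: if `y + i l` is good (for `V (n+1), V n, l`) and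
`maj V l (y + i l) = g y` the summand is `mi V l (y+il) (maj ..)`: altogether `≤ κ^n 4 ν_n (mean V l) R = 4 ν_n #V L` (`sum_good`,
`mean V l * R = #V l`, bijection `y ↦ y + i l`). The other `(y, i)` form a set `Bad`, `#Bad ≤ 16 τ κ^n R + κ^n 8 ρ_n R ≤ 24 τ κ^n R` (`chain`,
`card_bad`); there the summand is `≤ #(win V l (y + i l))`, and by Cauchy-Schwarz (`Finset.inner_mul_le_norm_mul_norm` or
`Finset.sum_mul_sq_le_sq_mul_sq`) the total is `≤ √(#Bad) * √(κ^n ∑_y #(win V l y)^2)`, where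
`∑_y #(win)^2 = ∑ (#win - mean)^2 + R mean^2 ≤ (1 + ρ_n) R mean^2 ≤ 2 R mean^2` (`sum_win`, `varV`, `mean R = #V l`). So it is
`≤ √(48 τ) κ^n R mean = √(48 τ) #V L`, and `4 τ + √(48 τ) ≤ 12 √τ`.
-/
set_option autoImplicit false
open Finset CS68

namespace DS69
variable {ι : Type} {R : ℕ} [NeZero R]

private theorem D5_shift (K l : ℕ) (f : ZMod R → ℝ) :
    ∑ t ∈ (univ : Finset (ZMod R)) ×ˢ range K, f (t.1 + ((t.2 * l : ℕ) : ZMod R)) =
      K * ∑ y, f y := by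
  rw [sum_product_right]
  have h1 : ∀ i ∈ range K, ∑ y : ZMod R, f (y + ((i * l : ℕ) : ZMod R)) = ∑ y, f y := fun i _ =>
    Equiv.sum_comp (Equiv.addRight ((i * l : ℕ) : ZMod R)) f
  rw [sum_congr rfl h1, sum_const, card_range, nsmul_eq_mul]

/-- the second moment of the counts -/
private theorem D5_sq {V W : Finset ι} {a : ι → ZMod R} {s : ι → ℤˣ} {l : ℕ} {e : ℤˣ} {ν ρ : ℝ}
    (h : Scale V W a s l e ν ρ) :
    ∑ y : ZMod R, (#(win V a l y) : ℝ) ^ 2 ≤ (1 + ρ) * R * mean V R l ^ 2 := by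
  have hR : (R : ℝ) ≠ 0 := by exact_mod_cast (NeZero.ne R)
  have h1 : ∑ y : ZMod R, (#(win V a l y) : ℝ) = R * mean V R l := by
    have h2 := sum_win V a l h.hlR
    have h3 : ∑ y : ZMod R, (#(win V a l y) : ℝ) = (#V : ℝ) * l := by exact_mod_cast h2
    rw [h3]
    unfold mean
    field_simp
  have h4 : ∑ y : ZMod R, ((#(win V a l y) : ℝ) - mean V R l) ^ 2 =
      ∑ y : ZMod R, (#(win V a l y) : ℝ) ^ 2 - R * mean V R l ^ 2 := by
    have h5 : ∀ y : ZMod R, ((#(win V a l y) : ℝ) - mean V R l) ^ 2 =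
        (#(win V a l y) : ℝ) ^ 2 - 2 * mean V R l * #(win V a l y) + mean V R l ^ 2 := fun y => by ring
    rw [sum_congr rfl fun y _ => h5 y, sum_add_distrib, sum_sub_distrib, ← mul_sum, h1, sum_const,
      card_univ, ZMod.card, nsmul_eq_mul]
    ring
  have h6 := h.varV
  rw [h4] at h6
  linarith

private theorem D5_triv (V : Finset ι) (a : ι → ZMod R) (s : ι → ℤˣ) (l : ℕ) (hl : l ≤ R) :
    ∑ y : ZMod R, (mi V a s l y 1 : ℝ) ≤ #V * l := by
  have h1 : ∑ y : ZMod R, mi V a s l y 1 ≤ ∑ y : ZMod R, #(win V a l y) :=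
    sum_le_sum fun y _ => card_filter_le _ _
  rw [sum_win V a l hl] at h1
  exact_mod_cast h1

/-- Cauchy-Schwarz -/
private theorem D5_cs (K l : ℕ) (w : ZMod R → ℝ) (B : Finset (ZMod R × ℕ)) (b c : ℝ)
    (hB : B ⊆ (univ : Finset (ZMod R)) ×ˢ range K) (hb : (#B : ℝ) ≤ b) (hc : ∑ y, w y ^ 2 ≤ c) :
    ∑ t ∈ B, w (t.1 + ((t.2 * l : ℕ) : ZMod R)) ≤ √(b * (K * c)) := by
  refine Real.le_sqrt_of_sq_le ?_
  have h0 : (0 : ℝ) ≤ ∑ y, w y ^ 2 := sum_nonneg fun _ _ => sq_nonneg _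
  have hK : (0 : ℝ) ≤ K := Nat.cast_nonneg K
  have h1 : ∑ t ∈ B, w (t.1 + ((t.2 * l : ℕ) : ZMod R)) ^ 2 ≤ K * c := by
    calc ∑ t ∈ B, w (t.1 + ((t.2 * l : ℕ) : ZMod R)) ^ 2
        ≤ ∑ t ∈ (univ : Finset (ZMod R)) ×ˢ range K, w (t.1 + ((t.2 * l : ℕ) : ZMod R)) ^ 2 :=
          sum_le_sum_of_subset_of_nonneg hB fun _ _ _ => sq_nonneg _
      _ = K * ∑ y, w y ^ 2 := D5_shift K l fun z => w z ^ 2
      _ ≤ K * c := mul_le_mul_of_nonneg_left hc hK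
  have h2 : (0 : ℝ) ≤ ∑ t ∈ B, w (t.1 + ((t.2 * l : ℕ) : ZMod R)) ^ 2 :=
    sum_nonneg fun _ _ => sq_nonneg _
  have h3 : (0 : ℝ) ≤ b := le_trans (Nat.cast_nonneg _) hb
  calc (∑ t ∈ B, w (t.1 + ((t.2 * l : ℕ) : ZMod R))) ^ 2
      ≤ #B * ∑ t ∈ B, w (t.1 + ((t.2 * l : ℕ) : ZMod R)) ^ 2 := sq_sum_le_card_mul_sum_sq
    _ ≤ b * (K * c) := mul_le_mul hb h1 h2 h3

open Classical in
private theorem D5_bad (K l : ℕ) {V W : Finset ι} {a : ι → ZMod R} {s : ι → ℤˣ} {e : ℤˣ}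
    {ν ρ : ℝ} (h : Scale V W a s l e ν ρ) :
    (#(((univ : Finset (ZMod R)) ×ˢ range K).filter
      (fun t => ¬ gd V W a l (t.1 + ((t.2 * l : ℕ) : ZMod R)))) : ℝ) ≤ 8 * ρ * (K * R) := by
  have h1 : (#(((univ : Finset (ZMod R)) ×ˢ range K).filter
      (fun t => ¬ gd V W a l (t.1 + ((t.2 * l : ℕ) : ZMod R)))) : ℝ) =
      ∑ t ∈ (univ : Finset (ZMod R)) ×ˢ range K, (fun z => if ¬ gd V W a l z then (1 : ℝ) else 0)
        (t.1 + ((t.2 * l : ℕ) : ZMod R)) := by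
    rw [card_filter]
    push_cast
    rfl
  have h2 : (#((univ : Finset (ZMod R)).filter (fun y => ¬ gd V W a l y)) : ℝ) =
      ∑ y : ZMod R, (fun z => if ¬ gd V W a l z then (1 : ℝ) else 0) y := by
    rw [card_filter]
    push_cast
    rfl
  rw [h1, D5_shift K l (fun z => if ¬ gd V W a l z then (1 : ℝ) else 0), ← h2]
  have h3 := card_bad h
  have hK0 : (0 : ℝ) ≤ K := Nat.cast_nonneg K
  calc (K : ℝ) * _ ≤ K * (8 * ρ * R) := mul_le_mul_of_nonneg_left h3 hK0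
    _ = 8 * ρ * (K * R) := by ring

open Classical in
private theorem D5_good (K l : ℕ) {V W : Finset ι} {a : ι → ZMod R} {s : ι → ℤˣ} {e : ℤˣ}
    {ν ρ : ℝ} (h : Scale V W a s l e ν ρ) :
    ∑ t ∈ (univ : Finset (ZMod R)) ×ˢ range K,
      (fun z => if gd V W a l z then (mi V a s l z (maj V a s l z) : ℝ) else 0)
        (t.1 + ((t.2 * l : ℕ) : ZMod R)) ≤ 4 * ν * (K * (mean V R l * R)) := by
  rw [D5_shift K l (fun z => if gd V W a l z then (mi V a s l z (maj V a s l z) : ℝ) else 0)]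
  have h2 : ∑ y : ZMod R, (fun z => if gd V W a l z then (mi V a s l z (maj V a s l z) : ℝ) else 0) y
      = ∑ y ∈ univ.filter (gd V W a l), (mi V a s l y (maj V a s l y) : ℝ) := by
    rw [sum_filter]
  rw [h2]
  have h3 := (sum_good h).1
  calc (K : ℝ) * _ ≤ K * (4 * ν * (mean V R l * R)) :=
        mul_le_mul_of_nonneg_left h3 (Nat.cast_nonneg K)
    _ = 4 * ν * (K * (mean V R l * R)) := by ring

/-- the numbers -/
private theorem D5_num (τ X : ℝ) (hτ0 : 0 ≤ τ) (hτ : τ < 1) (hX : 0 ≤ X) :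
    4 * τ * X + √(48 * τ * X ^ 2) ≤ 12 * √τ * X := by
  have h0 : √(48 * τ * X ^ 2) = √48 * √τ * X := by
    rw [Real.sqrt_mul (by positivity), Real.sqrt_sq hX, Real.sqrt_mul (by norm_num)]
  have h2 : √(48 : ℝ) ≤ 7 := by
    rw [Real.sqrt_le_left (by norm_num)]
    norm_num
  have h4 : √τ ≤ 1 := by
    rw [Real.sqrt_le_one]
    exact hτ.le
  have h5 := Real.mul_self_sqrt hτ0
  have h6 := Real.sqrt_nonneg τ
  have h3 : τ ≤ √τ := by nlinarith
  rw [h0]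
  have h7 : 4 * τ + √48 * √τ ≤ 12 * √τ := by nlinarith
  calc 4 * τ * X + √48 * √τ * X = (4 * τ + √48 * √τ) * X := by ring
    _ ≤ 12 * √τ * X := mul_le_mul_of_nonneg_right h7 hX

open Classical in
/-- the pointwise estimate, summed -/
private theorem D5_split (K l : ℕ) {V W : Finset ι} {a : ι → ZMod R} {s : ι → ℤˣ} {e E : ℤˣ}
    {ν ρ : ℝ} (h : Scale V W a s l e ν ρ) (hKR : K * l ≤ R) (M : ZMod R → ℤˣ)
    (B : Finset (ZMod R × ℕ)) (hBN : B ⊆ (univ : Finset (ZMod R)) ×ˢ range K)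
    (hB : ∀ t ∈ (univ : Finset (ZMod R)) ×ˢ range K, t ∉ B →
      gd V W a l (t.1 + ((t.2 * l : ℕ) : ZMod R)) ∧
        maj V a s l (t.1 + ((t.2 * l : ℕ) : ZMod R)) = E * M t.1) :
    ∑ y : ZMod R, (mi V a s (K * l) y (E * M y) : ℝ) ≤
      ∑ t ∈ (univ : Finset (ZMod R)) ×ˢ range K,
        (fun z => if gd V W a l z then (mi V a s l z (maj V a s l z) : ℝ) else 0)
          (t.1 + ((t.2 * l : ℕ) : ZMod R)) +
      ∑ t ∈ B, (fun z => (#(win V a l z) : ℝ)) (t.1 + ((t.2 * l : ℕ) : ZMod R)) := by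
  have hsplit : ∑ y : ZMod R, (mi V a s (K * l) y (E * M y) : ℝ) =
      ∑ t ∈ (univ : Finset (ZMod R)) ×ˢ range K,
        (#((win V a l (t.1 + ((t.2 * l : ℕ) : ZMod R))).filter (fun v => s v ≠ E * M t.1)) : ℝ) := by
    rw [sum_product]
    refine sum_congr rfl fun y _ => ?_
    unfold mi
    rw [win_split V a l K h.hl hKR y (fun v => s v ≠ E * M y), Nat.cast_sum]
  have hin : ∑ t ∈ B, (fun z => (#(win V a l z) : ℝ)) (t.1 + ((t.2 * l : ℕ) : ZMod R)) =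
      ∑ t ∈ (univ : Finset (ZMod R)) ×ˢ range K,
        (if t ∈ B then (#(win V a l (t.1 + ((t.2 * l : ℕ) : ZMod R))) : ℝ) else 0) := by
    rw [← sum_filter, filter_mem_eq_inter, inter_eq_right.2 hBN]
  rw [hsplit, hin, ← sum_add_distrib]
  refine sum_le_sum fun t ht => ?_
  by_cases hb : t ∈ B
  · rw [if_pos hb]
    have h1 : (#((win V a l (t.1 + ((t.2 * l : ℕ) : ZMod R))).filter
        (fun v => s v ≠ E * M t.1)) : ℝ) ≤ #(win V a l (t.1 + ((t.2 * l : ℕ) : ZMod R))) := by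
      exact_mod_cast card_filter_le _ _
    refine h1.trans (le_add_of_nonneg_left ?_)
    beta_reduce
    split_ifs
    · exact Nat.cast_nonneg _
    · exact le_rfl
  · obtain ⟨h1, h2⟩ := hB t ht hb
    rw [if_neg hb, add_zero]
    beta_reduce
    rw [if_pos h1, h2]
    exact le_of_eq rfl

/-- The main case. -/
private theorem D5_main (K l : ℕ) {V W : Finset ι} {a : ι → ZMod R} {s : ι → ℤˣ} {e E : ℤˣ}
    {ν ρ τ : ℝ} (h : Scale V W a s l e ν ρ) (hKR : K * l ≤ R) (hντ : ν ≤ τ) (hρτ : ρ ≤ τ)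
    (hτ : τ < 1) (M : ZMod R → ℤˣ) (B1 : Finset (ZMod R × ℕ))
    (hB1N : B1 ⊆ (univ : Finset (ZMod R)) ×ˢ range K)
    (hB1 : ∀ t ∈ (univ : Finset (ZMod R)) ×ˢ range K, t ∉ B1 →
      maj V a s l (t.1 + ((t.2 * l : ℕ) : ZMod R)) = E * M t.1)
    (hE : (#B1 : ℝ) ≤ 16 * τ * (K * R)) :
    ∑ y : ZMod R, (mi V a s (K * l) y (E * M y) : ℝ) ≤ 12 * √τ * (#V * (K * l)) := by
  classical
  have hR0 : (0 : ℝ) < R := by exact_mod_cast Nat.pos_of_ne_zero (NeZero.ne R)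
  have hν := h.nonneg.1
  have hρ := h.nonneg.2
  have hτ0 : 0 ≤ τ := hν.trans hντ
  have hm0 : 0 < mean V R l := mean_pos V l h.hl h.hV
  have hmR : mean V R l * R = #V * l := by
    unfold mean
    field_simp
  have hK0 : (0 : ℝ) ≤ K := Nat.cast_nonneg K
  have hKR0 : (0 : ℝ) ≤ K * R := mul_nonneg hK0 hR0.le
  have hX0 : (0 : ℝ) ≤ K * (mean V R l * R) := mul_nonneg hK0 (mul_nonneg hm0.le hR0.le)
  obtain ⟨B2, hB2⟩ : ∃ B2, B2 = ((univ : Finset (ZMod R)) ×ˢ range K).filter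
      (fun t => ¬ gd V W a l (t.1 + ((t.2 * l : ℕ) : ZMod R))) := ⟨_, rfl⟩
  have hB2c : (#B2 : ℝ) ≤ 8 * τ * (K * R) := by
    rw [hB2]
    refine (D5_bad K l h).trans (mul_le_mul_of_nonneg_right ?_ hKR0)
    linarith
  have hBc : (#(B1 ∪ B2) : ℝ) ≤ 24 * τ * (K * R) := by
    have h1 : (#(B1 ∪ B2) : ℝ) ≤ #B1 + #B2 := by exact_mod_cast card_union_le B1 B2
    linarith
  have hBN : B1 ∪ B2 ⊆ (univ : Finset (ZMod R)) ×ˢ range K :=
    union_subset hB1N (by rw [hB2]; exact filter_subset _ _)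
  have hsq : ∑ y : ZMod R, (fun z => (#(win V a l z) : ℝ)) y ^ 2 ≤ 2 * R * mean V R l ^ 2 := by
    refine (D5_sq h).trans (mul_le_mul_of_nonneg_right ?_ (sq_nonneg _))
    refine mul_le_mul_of_nonneg_right ?_ hR0.le
    linarith
  have hbad := D5_cs K l (fun z => (#(win V a l z) : ℝ)) (B1 ∪ B2) _ _ hBN hBc hsq
  have hgood := D5_good K l h
  have hgood' : 4 * ν * (K * (mean V R l * R)) ≤ 4 * τ * (K * (mean V R l * R)) :=
    mul_le_mul_of_nonneg_right (by linarith) hX0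
  have hsp := D5_split K l h hKR M (B1 ∪ B2) hBN (E := E) (fun t ht hb => by
    rw [mem_union, not_or, hB2, mem_filter, not_and, not_not] at hb
    exact ⟨hb.2 ht, hB1 t ht hb.1⟩)
  have he : 24 * τ * (K * R) * (K * (2 * R * mean V R l ^ 2)) =
      48 * τ * (K * (mean V R l * R)) ^ 2 := by ring
  rw [he] at hbad
  have hnum := D5_num τ (K * (mean V R l * R)) hτ0 hτ hX0
  have hfin : 12 * √τ * (K * (mean V R l * R)) = 12 * √τ * (#V * (K * l)) := by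
    rw [hmR]
    ring
  rw [← hfin]
  linarith

theorem descent (n κ l : ℕ) (hκ : 0 < κ) (V : ℕ → Finset ι) (a : ι → ZMod R) (s : ι → ℤˣ) (e : ℕ → ℤˣ)
    (ν ρ : ℕ → ℝ)
    (h : ∀ j ≤ n, Scale (V (j + 1)) (V j) a s (κ ^ (n - j) * l) (e j) (ν j) (ρ j)) :
    ∃ g : ZMod R → ℤˣ, ∑ y : ZMod R, (mi (V (n + 1)) a s (κ ^ n * l) y (g y) : ℝ) ≤
      12 * √(∑ j ∈ range (n + 1), (ν j + ρ j)) * (#(V (n + 1)) * (κ ^ n * l)) := by
  classical
  have hnn : ∀ j ∈ range (n + 1), 0 ≤ ν j + ρ j := fun j hj => by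
    have h1 := (h j (by have := mem_range.1 hj; omega)).nonneg
    linarith [h1.1, h1.2]
  have hLR : κ ^ n * l ≤ R := by
    have h1 := (h 0 (Nat.zero_le n)).hlR
    rwa [Nat.sub_zero] at h1
  by_cases hτ : ∑ j ∈ range (n + 1), (ν j + ρ j) < 1
  · obtain ⟨E, hE⟩ := chain n κ l hκ V a s e ν ρ h
    have hn := h n le_rfl
    rw [Nat.sub_self, pow_zero, one_mul] at hn
    have h1 : ν n + ρ n ≤ ∑ j ∈ range (n + 1), (ν j + ρ j) :=
      single_le_sum hnn (self_mem_range_succ n)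
    refine ⟨fun y => E * maj (V 1) a s (κ ^ n * l) y, ?_⟩
    have h2 := D5_main (κ ^ n) l hn hLR (by linarith [hn.nonneg.2]) (by linarith [hn.nonneg.1]) hτ
      (maj (V 1) a s (κ ^ n * l)) (E := E)
      (((univ : Finset (ZMod R)) ×ˢ range (κ ^ n)).filter (fun t =>
        maj (V (n + 1)) a s l (t.1 + ((t.2 * l : ℕ) : ZMod R)) ≠
          E * maj (V 1) a s (κ ^ n * l) t.1)) (filter_subset _ _) (fun t ht hb => by
        rw [mem_filter, not_and] at hb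
        exact not_not.1 (hb ht)) (by
        rw [Nat.cast_pow]
        exact hE)
    rw [Nat.cast_pow] at h2
    exact h2
  · refine ⟨fun _ => 1, ?_⟩
    have h1 := D5_triv (V (n + 1)) a s (κ ^ n * l) hLR
    rw [Nat.cast_mul, Nat.cast_pow] at h1
    refine h1.trans ?_
    have h2 : (1 : ℝ) ≤ √(∑ j ∈ range (n + 1), (ν j + ρ j)) := by
      rw [Real.one_le_sqrt]
      linarith
    have h3 : (0 : ℝ) ≤ #(V (n + 1)) * (κ ^ n * l) := by positivity
    nlinarith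

end DS69
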