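import Pool.Agent.LibCS68.K7a

/-!
# LibDS69 (MP_6ea630_nt, TwoPrimesBothSigns): descent through scales. Definitions

`win V a l y` = the points `v ∈ V` with position `a v` in the window `[y, y + l)` of `Z/R`;
`near l d` = the distance of `d` to `0` in `Z/R` is less than `l`; signs are elements of `ℤˣ`.
-/
set_option autoImplicit false
open Finset CS68

namespace DS69

section Abstract
variable {ι : Type} {R : ℕ} [NeZero R]

/-- the points of `V` in the window `[y, y + l)` of `Z/R` -/
def win (V : Finset ι) (a : ι → ZMod R) (l : ℕ) (y : ZMod R) : Finset ι :=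
  V.filter (fun v => (a v - y).val < l)

/-- distance to `0` less than `l` -/
def near (l : ℕ) (d : ZMod R) : Prop := d.val < l ∨ (-d).val < l

instance (l : ℕ) : DecidablePred (near (R := R) l) := fun _ => inferInstanceAs (Decidable (_ ∨ _))

/-- majority sign of the points of `V` in the window at `y` -/
def maj (V : Finset ι) (a : ι → ZMod R) (s : ι → ℤˣ) (l : ℕ) (y : ZMod R) : ℤˣ :=
  if #(win V a l y) ≤ 2 * #((win V a l y).filter (fun v => s v = 1)) then 1 else -1

/-- number of points of `V` in the window at `y` whose sign is not `g` -/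
def mi (V : Finset ι) (a : ι → ZMod R) (s : ι → ℤˣ) (l : ℕ) (y : ZMod R) (g : ℤˣ) : ℕ :=
  #((win V a l y).filter (fun v => s v ≠ g))

/-- number of pairs in the window at `y` with `s v * s w ≠ e` -/
def dis (V W : Finset ι) (a : ι → ZMod R) (s : ι → ℤˣ) (l : ℕ) (e : ℤˣ) (y : ZMod R) : ℕ :=
  #((win V a l y ×ˢ win W a l y).filter (fun t => s t.1 * s t.2 ≠ e))

/-- mean number of points of `V` in a window of length `l` -/
noncomputable def mean (V : Finset ι) (R l : ℕ) : ℝ := (#V : ℝ) * l / R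

/-- both counts at `y` are at least half of their means -/
def gd (V W : Finset ι) (a : ι → ZMod R) (l : ℕ) (y : ZMod R) : Prop :=
  mean V R l ≤ 2 * #(win V a l y) ∧ mean W R l ≤ 2 * #(win W a l y)

/-- hypotheses for one pair of scales: `V` (upper), `W` (lower), window length `l`, sign `e`, proportion `ν` of
disagreements among the near pairs, relative variance `ρ` of the counts -/
structure Scale (V W : Finset ι) (a : ι → ZMod R) (s : ι → ℤˣ) (l : ℕ) (e : ℤˣ) (ν ρ : ℝ) : Prop where
  hl : 0 < l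
  hV : V.Nonempty
  hW : W.Nonempty
  varV : ∑ y : ZMod R, ((#(win V a l y) : ℝ) - mean V R l) ^ 2 ≤ ρ * R * mean V R l ^ 2
  varW : ∑ y : ZMod R, ((#(win W a l y) : ℝ) - mean W R l) ^ 2 ≤ ρ * R * mean W R l ^ 2
  disag : (#((V ×ˢ W).filter (fun t => near l (a t.1 - a t.2) ∧ s t.1 * s t.2 ≠ e)) : ℝ) ≤
    ν * (mean V R l * #W)
  hlR : l ≤ R

end Abstract

/-- the fractions `x/p`, `p ∈ P`, as pairs `(p, x)` -/
def pts (P : Finset ℕ) : Finset (ℕ × ℕ) := P.biUnion (fun p => (U p).image (fun x => (p, x)))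

/-- position of the fraction `x/p` in `Z/R` (for `p ∣ R`) -/
def pos (R : ℕ) (t : ℕ × ℕ) : ZMod R := ((t.2 * (R / t.1) : ℕ) : ZMod R)

/-- the sign of `S(b r^2,1;c)` as a unit -/
noncomputable def su (c : ℕ) (b r : ℤ) : ℤˣ := if sg c b r = 1 then 1 else -1

/-- sign of the fraction `x/p` -/
noncomputable def sp (b : ℤ) (t : ℕ × ℕ) : ℤˣ := su t.1 b t.2

/-- number of the triples `(p,q,m)`, `p ∈ P`, `q ∈ Q`, `1 ≤ m ≤ M`, with sign of `S(b m^2,1;pq)` equal to `e` -/
noncomputable def cnt (b : ℤ) (M : ℕ) (P Q : Finset ℕ) (e : ℤˣ) : ℕ :=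
  #((P ×ˢ (Q ×ˢ Icc 1 M)).filter (fun t => su (t.1 * t.2.1) b t.2.2 = e))

end DS69
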