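import Pool.Agent.LibDS69.Defs

/-!
# LibDS69, second part (both signs for ONE modulus): definitions
-/
set_option autoImplicit false
open Finset CS68

namespace DS69

/-- the sign of `S(b x^2,1;p) S(b (2^i x)^2,1;p)` -/
noncomputable def sp2 (b : ℤ) (i : ℕ) (t : ℕ × ℕ) : ℤˣ := su t.1 b t.2 * su t.1 b (2 ^ i * t.2)

/-- the number of `1 ≤ m ≤ M` for which the sign of `S(b m^2,1;c)` is the rarer one -/
noncomputable def mcnt (b : ℤ) (M c : ℕ) : ℕ :=
  min #((Icc 1 M).filter (fun m : ℕ => su c b m = 1)) #((Icc 1 M).filter (fun m : ℕ => su c b m = -1))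

end DS69
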