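import Pool.Agent.LibDS69.W1

/-!
# [DS69 W3] windows: second moment
PLAN. `∑_y #(win)^2 = ∑_{v,w} #{y : (a v - y).val < l ∧ (a w - y).val < l}` (exchange of sums). For `v = w` this is `l`
(`win_count`). For `v ≠ w` put `z = a w - y`, `d = a v - a w`: the number of `z` with `z.val < l` and `(z + d).val < l`. Write
`i = z.val`, `D = d.val`. If `i + D < R` then `(z + d).val = i + D` (`ZMod.val_add`), so `i < l - D`: at most `l - D` values. If
`i + D ≥ R` then `(z + d).val = i + D - R` and, since `d ≠ 0`, `(-d).val = R - D`, `i ≥ (-d).val`: `i ∈ [(-d).val, l)`: at most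
`l - (-d).val` values (for `d = 0` all are of the first kind: at most `l = l - 0`). No hypothesis on `l` except `l ≤ R` is needed.
-/
set_option autoImplicit false
open Finset CS68

namespace DS69
variable {ι : Type} {R : ℕ} [NeZero R]

private theorem W3_split (l : ℕ) (c d y : ZMod R) (hc : (c - y).val < l) (hd : (d - y).val < l) :
    (d - y).val < l - (c - d).val ∨ (c - y).val < l - (d - c).val := by
  have h1 : (c - y).val = ((d - y).val + (c - d).val) % R := by
    rw [← ZMod.val_add]
    congr 1
    ring
  have h2 : ((c - d).val + (d - c).val) % R = 0 := by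
    rw [← ZMod.val_add]
    have : (c - d) + (d - c) = 0 := by ring
    rw [this, ZMod.val_zero]
  have hv : (d - y).val < R := ZMod.val_lt _
  have hD : (c - d).val < R := ZMod.val_lt _
  have hD' : (d - c).val < R := ZMod.val_lt _
  by_cases h : (d - y).val + (c - d).val < R
  · rw [Nat.mod_eq_of_lt h] at h1
    left
    omega
  · have h3 : ((d - y).val + (c - d).val) % R = (d - y).val + (c - d).val - R := by
      rw [Nat.mod_eq_sub_mod (by omega), Nat.mod_eq_of_lt (by omega)]
    rw [h3] at h1
    have h4 : (c - d).val + (d - c).val = R := by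
      by_cases h5 : (c - d).val + (d - c).val < R
      · rw [Nat.mod_eq_of_lt h5] at h2
        omega
      · rw [Nat.mod_eq_sub_mod (by omega), Nat.mod_eq_of_lt (by omega)] at h2
        omega
    right
    omega

theorem overlap (l : ℕ) (hl : l ≤ R) (c d : ZMod R) :
    #((univ : Finset (ZMod R)).filter (fun y => (c - y).val < l ∧ (d - y).val < l)) ≤
      (l - (c - d).val) + (l - (d - c).val) := by
  have h1 := win_count (R := R) (l - (c - d).val) (by omega) d
  have h2 := win_count (R := R) (l - (d - c).val) (by omega) c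
  calc #((univ : Finset (ZMod R)).filter (fun y => (c - y).val < l ∧ (d - y).val < l))
      ≤ #((univ : Finset (ZMod R)).filter (fun y => (d - y).val < l - (c - d).val) ∪
          (univ : Finset (ZMod R)).filter (fun y => (c - y).val < l - (d - c).val)) := by
        apply card_le_card
        intro y hy
        rw [mem_filter] at hy
        rw [mem_union, mem_filter, mem_filter]
        rcases W3_split l c d y hy.2.1 hy.2.2 with h | h
        · exact Or.inl ⟨mem_univ _, h⟩
        · exact Or.inr ⟨mem_univ _, h⟩
    _ ≤ _ := (card_union_le _ _).trans (by rw [h1, h2])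

private theorem W3_sq (V : Finset ι) (a : ι → ZMod R) (l : ℕ) (y : ZMod R) :
    #(win V a l y) ^ 2 =
      ∑ v ∈ V, ∑ w ∈ V, (if (a v - y).val < l ∧ (a w - y).val < l then 1 else 0) := by
  unfold win
  rw [card_filter, sq, sum_mul_sum]
  refine sum_congr rfl fun v _ => sum_congr rfl fun w _ => ?_
  by_cases h1 : (a v - y).val < l
  · by_cases h2 : (a w - y).val < l
    · simp [h1, h2]
    · simp [h1, h2]
  · simp [h1]

open Classical in
/-- second moment -/
theorem sq_win (V : Finset ι) (a : ι → ZMod R) (l : ℕ) (hl : l ≤ R) :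
    ∑ y : ZMod R, #(win V a l y) ^ 2 ≤
      #V * l + ∑ v ∈ V, ∑ w ∈ V.erase v, ((l - (a v - a w).val) + (l - (a w - a v).val)) := by
  have h1 : ∑ y : ZMod R, #(win V a l y) ^ 2 = ∑ v ∈ V, ∑ w ∈ V,
      #((univ : Finset (ZMod R)).filter (fun y => (a v - y).val < l ∧ (a w - y).val < l)) := by
    rw [sum_congr rfl (fun y _ => W3_sq V a l y), sum_comm]
    refine sum_congr rfl fun v _ => ?_
    rw [sum_comm]
    refine sum_congr rfl fun w _ => ?_
    rw [card_filter]
  have h2 : #V * l = ∑ _v ∈ V, l := by rw [sum_const, smul_eq_mul]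
  rw [h1, h2, ← sum_add_distrib]
  refine sum_le_sum fun v hv => ?_
  rw [← add_sum_erase V _ hv]
  refine add_le_add ?_ (sum_le_sum fun w _ => overlap l hl _ _)
  have h3 := win_count (R := R) l hl (a v)
  have h4 : (univ : Finset (ZMod R)).filter (fun y => (a v - y).val < l ∧ (a v - y).val < l) =
      (univ : Finset (ZMod R)).filter (fun y => (a v - y).val < l) := by
    ext y
    simp
  rw [h4, h3]

end DS69
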