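import Pool.Agent.LibDS69.N0
import Pool.Agent.LibDS69.W3

/-!
# [DS69 N2] variance of the number of fractions in a window
PLAN. Let `V = pts P`, `a = pos R`, `N = #V`, `c = N l / R`. `∑_y (n - c)^2 = ∑ n^2 - R c^2` (`sum_win`: `∑ n = N l = R c`).
`∑ n^2 ≤ N l + (off-diagonal)` by `sq_win`. Off-diagonal pair with the same `p`: the difference is `(x - x') R/p` (`x ≠ x'`), its `val` and the
`val` of its negative are positive multiples of `R/p` (`p ∣ R`), hence `≥ R/p ≥ l` (`p l ≤ 2 Y l ≤ R`): contribution `0`.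
`pair_sum` (for `p ≠ p'`, `R = p p' g`): by `pos_sub` the difference is `n g` with `n = x p' - x' p`; let `r ∈ [0, pp')` be the residue of `n`
mod `p p'`; `val = r g`, and `r ≠ 0`, `(-d).val = (pp' - r) g`; `(x, x') ↦ r` is injective. So the sum is
`≤ ∑_{r=1}^{pp'-1} ((l - r g) + (l - (pp' - r) g)) = 2 ∑_{r ≥ 1} (l - r g)` (truncated) `≤ l^2/g`: with `m = l / g` the sum of `l - r g`, `r ≤ m`, is
`m l - g m (m+1)/2 ≤ l^2/(2g)` (real numbers: `m l - g m^2/2 ≤ l^2/(2g)` because `(l - g m)^2 ≥ 0`).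
Total: `∑ n^2 ≤ N l + (l^2/R) (∑ p)^2`, and `(∑ p)^2 - N^2 = #P (∑ p + N) ≤ 3 #P N ≤ 3 N^2/Y` (`∑ p = N + #P ≤ 2 N`, `N ≥ Y #P`: `card_pts`,
`card_pts_ge`).
-/
set_option autoImplicit false
open Finset CS68

namespace DS69

private theorem N2_tri (l g k : ℕ) :
    2 * g * ∑ r ∈ range k, (l - (r + 1) * g) + (l - k * g) ^ 2 ≤ l ^ 2 := by
  induction k with
  | zero => simp
  | succ k ih =>
    rw [Finset.sum_range_succ]
    have h : 2 * g * (l - (k + 1) * g) + (l - (k + 1) * g) ^ 2 ≤ (l - k * g) ^ 2 := by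
      rcases Nat.lt_or_ge l ((k + 1) * g) with h1 | h1
      · have h2 : l - (k + 1) * g = 0 := Nat.sub_eq_zero_of_le h1.le
        rw [h2]
        simp
      · obtain ⟨a, ha⟩ := Nat.exists_eq_add_of_le h1
        have h2 : l - (k + 1) * g = a := by omega
        have h3 : l - k * g = a + g := by
          have : (k + 1) * g = k * g + g := by ring
          omega
        rw [h2, h3]
        nlinarith [Nat.zero_le (g ^ 2)]
    calc 2 * g * (∑ r ∈ range k, (l - (r + 1) * g) + (l - (k + 1) * g)) + (l - (k + 1) * g) ^ 2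
        = 2 * g * ∑ r ∈ range k, (l - (r + 1) * g) +
          (2 * g * (l - (k + 1) * g) + (l - (k + 1) * g) ^ 2) := by ring
      _ ≤ 2 * g * ∑ r ∈ range k, (l - (r + 1) * g) + (l - k * g) ^ 2 := by omega
      _ ≤ l ^ 2 := ih

private theorem N2_val (R m : ℕ) [NeZero R] (n : ℤ) (h : m ∣ R) :
    (((n * ((R / m : ℕ) : ℤ) : ℤ)) : ZMod R).val = (n % (m : ℤ)).toNat * (R / m) := by
  have hR : 0 < R := Nat.pos_of_ne_zero (NeZero.ne R)
  have hm : 0 < m := Nat.pos_of_dvd_of_pos h hR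
  have hmz : (0 : ℤ) < m := by exact_mod_cast hm
  obtain ⟨g, rfl⟩ := h
  have hg : m * g / m = g := Nat.mul_div_cancel_left g hm
  have hgpos : 0 < g := by
    rcases Nat.eq_zero_or_pos g with h0 | h0
    · subst h0; simp at hR
    · exact h0
  rw [hg]
  have h0 : 0 ≤ n % (m : ℤ) := Int.emod_nonneg _ hmz.ne'
  have h1 : n % (m : ℤ) < m := Int.emod_lt_of_pos _ hmz
  set r := (n % (m : ℤ)).toNat with hr
  have hr' : (r : ℤ) = n % (m : ℤ) := by rw [hr]; exact Int.toNat_of_nonneg h0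
  have hrm : r < m := by
    have : (r : ℤ) < m := by rw [hr']; exact h1
    exact_mod_cast this
  have e1 : ((n * (g : ℤ) : ℤ) : ZMod (m * g)) = ((r * g : ℕ) : ZMod (m * g)) := by
    have e2 : n * (g : ℤ) = ((r * g : ℕ) : ℤ) + (((m * g : ℕ) : ℤ)) * (n / (m : ℤ)) := by
      push_cast
      rw [hr']
      have := Int.emod_add_mul_ediv n (m : ℤ)
      nlinarith [this]
    rw [e2]
    push_cast
    have : ((m : ZMod (m * g)) * (g : ZMod (m * g))) = 0 := by
      have := ZMod.natCast_self (m * g)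
      push_cast at this
      exact this
    rw [this]
    ring
  rw [e1, ZMod.val_natCast_of_lt]
  exact Nat.mul_lt_mul_of_pos_right hrm hgpos

private theorem N2_U {p x : ℕ} (hp : p.Prime) (hx : x ∈ U p) : 0 < x ∧ x < p := by
  unfold U at hx
  rw [Finset.mem_filter, Finset.mem_range] at hx
  refine ⟨?_, hx.1⟩
  rcases Nat.eq_zero_or_pos x with h0 | h0
  · exfalso
    rw [h0] at hx
    have := (Nat.coprime_zero_left p).1 hx.2
    exact hp.one_lt.ne' this
  · exact h0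

private noncomputable def N2_rho (p q : ℕ) (t : ℕ × ℕ) : ℕ :=
  (((t.1 : ℤ) * q - (t.2 : ℤ) * p) % ((p * q : ℕ) : ℤ)).toNat

private theorem N2_rho_spec (p q : ℕ) (hp : p.Prime) (hq : q.Prime) (t : ℕ × ℕ) :
    ((N2_rho p q t : ℕ) : ℤ) = ((t.1 : ℤ) * q - (t.2 : ℤ) * p) % ((p * q : ℕ) : ℤ) := by
  unfold N2_rho
  apply Int.toNat_of_nonneg
  apply Int.emod_nonneg
  have : 0 < p * q := Nat.mul_pos hp.pos hq.pos
  exact_mod_cast this.ne'

private theorem N2_rho_lt (p q : ℕ) (hp : p.Prime) (hq : q.Prime) (t : ℕ × ℕ) :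
    N2_rho p q t < p * q := by
  have h := N2_rho_spec p q hp hq t
  have h2 : (0 : ℤ) < ((p * q : ℕ) : ℤ) := by exact_mod_cast Nat.mul_pos hp.pos hq.pos
  have h3 := Int.emod_lt_of_pos ((t.1 : ℤ) * q - (t.2 : ℤ) * p) h2
  rw [← h] at h3
  exact_mod_cast h3

private theorem N2_rho_pos (p q : ℕ) (hp : p.Prime) (hq : q.Prime) (hpq : p ≠ q) (t : ℕ × ℕ)
    (h1 : t.1 ∈ U p) : 0 < N2_rho p q t := by
  rcases Nat.eq_zero_or_pos (N2_rho p q t) with h0 | h0
  · exfalso
    have h := N2_rho_spec p q hp hq t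
    rw [h0] at h
    have hd : ((p * q : ℕ) : ℤ) ∣ (t.1 : ℤ) * q - (t.2 : ℤ) * p :=
      Int.dvd_of_emod_eq_zero (by rw [← h]; rfl)
    have hd1 : (p : ℤ) ∣ (t.1 : ℤ) * q - (t.2 : ℤ) * p := by
      refine Dvd.dvd.trans ?_ hd
      push_cast
      exact Dvd.intro _ rfl
    have hd2 : (p : ℤ) ∣ (t.1 : ℤ) * q := by
      have := dvd_add hd1 (Dvd.intro_left (t.2 : ℤ) rfl : (p : ℤ) ∣ (t.2 : ℤ) * p)
      simpa using this
    have hd3 : p ∣ t.1 * q := by exact_mod_cast hd2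
    rcases (Nat.Prime.dvd_mul hp).1 hd3 with h4 | h4
    · have h5 := N2_U hp h1
      exact absurd (Nat.le_of_dvd h5.1 h4) (by omega)
    · exact hpq ((Nat.prime_dvd_prime_iff_eq hp hq).1 h4)
  · exact h0

private theorem N2_aux {p q x x' y y' : ℕ} (hp : p.Prime) (hq : q.Prime) (hpq : p ≠ q)
    (hx : x < p) (hx' : x' < p)
    (h : ((p * q : ℕ) : ℤ) ∣ ((x : ℤ) * q - (y : ℤ) * p) - ((x' : ℤ) * q - (y' : ℤ) * p)) :
    x = x' := by
  have h1 : (p : ℤ) ∣ ((x : ℤ) * q - (y : ℤ) * p) - ((x' : ℤ) * q - (y' : ℤ) * p) := by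
    refine Dvd.dvd.trans ?_ h
    push_cast
    exact Dvd.intro _ rfl
  have h2 : (p : ℤ) ∣ ((x : ℤ) - x') * q := by
    have h3 := dvd_add h1 (Dvd.intro_left ((y : ℤ) - y') rfl : (p : ℤ) ∣ ((y : ℤ) - y') * p)
    have e : ((x : ℤ) * q - (y : ℤ) * p) - ((x' : ℤ) * q - (y' : ℤ) * p) + ((y : ℤ) - y') * p =
        ((x : ℤ) - x') * q := by ring
    rw [e] at h3
    exact h3
  have hpz : Prime (p : ℤ) := Nat.prime_iff_prime_int.1 hp
  rcases hpz.dvd_or_dvd h2 with h4 | h4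
  · obtain ⟨k, hk⟩ := h4
    have hp0 : (0 : ℤ) < p := by exact_mod_cast hp.pos
    have h5 : (x : ℤ) < p := by exact_mod_cast hx
    have h6 : (x' : ℤ) < p := by exact_mod_cast hx'
    have h7 : (0 : ℤ) ≤ x := by positivity
    have h8 : (0 : ℤ) ≤ x' := by positivity
    have h9 : k < 1 := by
      by_contra hc
      push Not at hc
      nlinarith
    have h10 : -1 < k := by
      by_contra hc
      push Not at hc
      nlinarith
    have h11 : k = 0 := by omega
    rw [h11] at hk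
    have : (x : ℤ) = x' := by linarith
    exact_mod_cast this
  · exfalso
    have : p ∣ q := by exact_mod_cast h4
    exact hpq ((Nat.prime_dvd_prime_iff_eq hp hq).1 this)

private theorem N2_rho_inj (p q : ℕ) (hp : p.Prime) (hq : q.Prime) (hpq : p ≠ q) :
    Set.InjOn (N2_rho p q) ((U p ×ˢ U q : Finset (ℕ × ℕ)) : Set (ℕ × ℕ)) := by
  intro t ht u hu h
  rw [Finset.mem_coe, Finset.mem_product] at ht hu
  have e1 := N2_rho_spec p q hp hq t
  have e2 := N2_rho_spec p q hp hq u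
  have e3 : ((t.1 : ℤ) * q - (t.2 : ℤ) * p) % ((p * q : ℕ) : ℤ) =
      ((u.1 : ℤ) * q - (u.2 : ℤ) * p) % ((p * q : ℕ) : ℤ) := by
    rw [← e1, ← e2, h]
  have hd := Int.emod_emod_of_dvd
  have h4 : ((p * q : ℕ) : ℤ) ∣ ((t.1 : ℤ) * q - (t.2 : ℤ) * p) - ((u.1 : ℤ) * q - (u.2 : ℤ) * p) :=
    Int.ModEq.dvd (show ((u.1 : ℤ) * q - (u.2 : ℤ) * p) ≡ ((t.1 : ℤ) * q - (t.2 : ℤ) * p)
      [ZMOD ((p * q : ℕ) : ℤ)] from e3.symm)
  have a1 : t.1 = u.1 := N2_aux hp hq hpq (N2_U hp ht.1).2 (N2_U hp hu.1).2 h4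
  have a2 : t.2 = u.2 := by
    refine N2_aux (x := t.2) (x' := u.2) (y := t.1) (y' := u.1) hq hp (Ne.symm hpq)
      (N2_U hq ht.2).2 (N2_U hq hu.2).2 ?_
    have h5 := (dvd_neg (α := ℤ)).2 h4
    have e : -((((t.1 : ℤ) * q - (t.2 : ℤ) * p)) - ((u.1 : ℤ) * q - (u.2 : ℤ) * p)) =
        ((t.2 : ℤ) * p - (t.1 : ℤ) * q) - ((u.2 : ℤ) * p - (u.1 : ℤ) * q) := by ring
    rw [e] at h5
    rw [mul_comm q p]
    exact h5
  exact Prod.ext a1 a2

theorem pair_sum (R l p q : ℕ) [NeZero R] (hp : p.Prime) (hq : q.Prime) (hpq : p ≠ q) (h : p * q ∣ R) :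
    ∑ x ∈ U p, ∑ y ∈ U q, (((l - (pos R (p, x) - pos R (q, y)).val) +
      (l - (pos R (q, y) - pos R (p, x)).val) : ℕ) : ℝ) ≤ (l : ℝ) ^ 2 * (p * q) / R := by
  have hR : 0 < R := Nat.pos_of_ne_zero (NeZero.ne R)
  have hm : 0 < p * q := Nat.mul_pos hp.pos hq.pos
  set g := R / (p * q) with hg
  have hRg : R = p * q * g := by rw [hg]; exact (Nat.mul_div_cancel' h).symm
  have hgpos : 0 < g := by
    rcases Nat.eq_zero_or_pos g with h0 | h0
    · rw [h0] at hRg; simp at hRg; omega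
    · exact h0
  have key : ∀ x ∈ U p, ∀ y ∈ U q, (l - (pos R (p, x) - pos R (q, y)).val) +
      (l - (pos R (q, y) - pos R (p, x)).val) =
      (l - N2_rho p q (x, y) * g) + (l - (p * q - N2_rho p q (x, y)) * g) := by
    intro x hx y hy
    have h1 : (pos R (p, x) - pos R (q, y)).val = N2_rho p q (x, y) * g := by
      rw [pos_sub R p q x y h, N2_val R (p * q) _ h]
      rfl
    have hrp := N2_rho_pos p q hp hq hpq (x, y) hx
    have hrl := N2_rho_lt p q hp hq (x, y)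
    have h2 : (pos R (q, y) - pos R (p, x)).val = (p * q - N2_rho p q (x, y)) * g := by
      have e : pos R (q, y) - pos R (p, x) = -(pos R (p, x) - pos R (q, y)) := by ring
      rw [e, ZMod.neg_val, h1, if_neg, Nat.sub_mul, ← hRg]
      intro h0
      rw [h0, ZMod.val_zero] at h1
      have : 0 < N2_rho p q (x, y) * g := Nat.mul_pos hrp hgpos
      omega
    rw [h1, h2]
  have hT : (∑ x ∈ U p, ∑ y ∈ U q, ((l - (pos R (p, x) - pos R (q, y)).val) +
      (l - (pos R (q, y) - pos R (p, x)).val))) * g ≤ l ^ 2 := by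
    have e1 : (∑ x ∈ U p, ∑ y ∈ U q, ((l - (pos R (p, x) - pos R (q, y)).val) +
      (l - (pos R (q, y) - pos R (p, x)).val))) =
      ∑ t ∈ U p ×ˢ U q, ((l - N2_rho p q t * g) + (l - (p * q - N2_rho p q t) * g)) := by
      rw [Finset.sum_product]
      exact Finset.sum_congr rfl (fun x hx => Finset.sum_congr rfl (fun y hy => key x hx y hy))
    have e2 : ∑ t ∈ U p ×ˢ U q, ((l - N2_rho p q t * g) + (l - (p * q - N2_rho p q t) * g)) ≤
        ∑ r ∈ Ico 1 (p * q), ((l - r * g) + (l - (p * q - r) * g)) := by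
      rw [← Finset.sum_image (f := fun r => ((l - r * g) + (l - (p * q - r) * g)))
        (N2_rho_inj p q hp hq hpq)]
      apply Finset.sum_le_sum_of_subset
      intro r hr
      rw [Finset.mem_image] at hr
      obtain ⟨t, ht, rfl⟩ := hr
      rw [Finset.mem_product] at ht
      rw [Finset.mem_Ico]
      exact ⟨N2_rho_pos p q hp hq hpq t ht.1, N2_rho_lt p q hp hq t⟩
    have e3 : ∑ r ∈ Ico 1 (p * q), (l - (p * q - r) * g) = ∑ r ∈ Ico 1 (p * q), (l - r * g) := by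
      refine Finset.sum_bij' (fun r _ => p * q - r) (fun r _ => p * q - r) ?_ ?_ ?_ ?_ ?_
      · intro r hr; rw [Finset.mem_Ico] at hr ⊢; omega
      · intro r hr; rw [Finset.mem_Ico] at hr ⊢; omega
      · intro r hr; rw [Finset.mem_Ico] at hr; show p * q - (p * q - r) = r; omega
      · intro r hr; rw [Finset.mem_Ico] at hr; show p * q - (p * q - r) = r; omega
      · intro r hr; rfl
    have e4 : ∑ r ∈ Ico 1 (p * q), (l - r * g) = ∑ r ∈ range (p * q - 1), (l - (r + 1) * g) := by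
      rw [Finset.sum_Ico_eq_sum_range]
      exact Finset.sum_congr rfl (fun r _ => by rw [add_comm 1 r])
    have e5 := N2_tri l g (p * q - 1)
    have e6 : ∑ r ∈ Ico 1 (p * q), ((l - r * g) + (l - (p * q - r) * g)) =
        ∑ r ∈ range (p * q - 1), (l - (r + 1) * g) + ∑ r ∈ range (p * q - 1), (l - (r + 1) * g) := by
      rw [Finset.sum_add_distrib, e3, e4]
    rw [e6] at e2
    rw [e1]
    set S := ∑ r ∈ range (p * q - 1), (l - (r + 1) * g) with hS
    calc (∑ t ∈ U p ×ˢ U q, ((l - N2_rho p q t * g) + (l - (p * q - N2_rho p q t) * g))) * g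
        ≤ (S + S) * g := Nat.mul_le_mul_right _ e2
      _ = 2 * g * S := by ring
      _ ≤ l ^ 2 := by omega
  have hc : ∑ x ∈ U p, ∑ y ∈ U q, (((l - (pos R (p, x) - pos R (q, y)).val) +
      (l - (pos R (q, y) - pos R (p, x)).val) : ℕ) : ℝ) =
      ((∑ x ∈ U p, ∑ y ∈ U q, ((l - (pos R (p, x) - pos R (q, y)).val) +
      (l - (pos R (q, y) - pos R (p, x)).val)) : ℕ) : ℝ) := by
    rw [Nat.cast_sum]
    exact Finset.sum_congr rfl (fun x _ => by rw [Nat.cast_sum])
  rw [hc]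
  set T : ℕ := (∑ x ∈ U p, ∑ y ∈ U q, ((l - (pos R (p, x) - pos R (q, y)).val) +
      (l - (pos R (q, y) - pos R (p, x)).val))) with hTdef
  have hTr : (T : ℝ) * g ≤ (l : ℝ) ^ 2 := by exact_mod_cast hT
  have hRr : (R : ℝ) = p * q * g := by exact_mod_cast hRg
  have hRpos : (0 : ℝ) < R := by exact_mod_cast hR
  rw [le_div_iff₀ hRpos, hRr]
  have hpqr : (0 : ℝ) ≤ (p : ℝ) * q := by positivity
  calc (T : ℝ) * (p * q * g) = (T * g) * (p * q) := by ring
    _ ≤ (l : ℝ) ^ 2 * (p * q) := mul_le_mul_of_nonneg_right hTr hpqr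

theorem same_p (R l p x x' : ℕ) [NeZero R] (hp : p.Prime) (h : p ∣ R) (hl : p * l ≤ R) (hx : x ∈ U p)
    (hx' : x' ∈ U p) (hne : x ≠ x') : l - (pos R (p, x) - pos R (p, x')).val = 0 := by
  have hR : 0 < R := Nat.pos_of_ne_zero (NeZero.ne R)
  have hxp := N2_U hp hx
  have hxp' := N2_U hp hx'
  have e : pos R (p, x) - pos R (p, x') = (((((x : ℤ) - x') * ((R / p : ℕ) : ℤ)) : ℤ) : ZMod R) := by
    unfold pos
    generalize R / p = g
    push_cast
    ring
  rw [e, N2_val R p _ h]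
  have hp0 : (0 : ℤ) < p := by exact_mod_cast hp.pos
  have h1 : ((x : ℤ) - x') % (p : ℤ) ≠ 0 := by
    intro h0
    obtain ⟨k, hk⟩ := Int.dvd_of_emod_eq_zero h0
    have h5 : (x : ℤ) < p := by exact_mod_cast hxp.2
    have h6 : (x' : ℤ) < p := by exact_mod_cast hxp'.2
    have h7 : (0 : ℤ) < x := by exact_mod_cast hxp.1
    have h8 : (0 : ℤ) < x' := by exact_mod_cast hxp'.1
    have h9 : k < 1 := by
      by_contra hc
      push Not at hc
      nlinarith
    have h10 : -1 < k := by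
      by_contra hc
      push Not at hc
      nlinarith
    have h11 : k = 0 := by omega
    rw [h11] at hk
    apply hne
    have : (x : ℤ) = x' := by linarith
    exact_mod_cast this
  have h2 : 0 ≤ ((x : ℤ) - x') % (p : ℤ) := Int.emod_nonneg _ hp0.ne'
  have h3 : 1 ≤ (((x : ℤ) - x') % (p : ℤ)).toNat := by omega
  have h4 : l ≤ R / p := by
    rw [Nat.le_div_iff_mul_le hp.pos, mul_comm]
    exact hl
  have h5 : R / p ≤ (((x : ℤ) - x') % (p : ℤ)).toNat * (R / p) := Nat.le_mul_of_pos_left _ h3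
  omega

theorem variance (R l Y : ℕ) [NeZero R] (P : Finset ℕ) (hY : 0 < Y) (hP : InX Y P) (hne : P.Nonempty)
    (hR1 : ∀ p ∈ P, p ∣ R) (hR : ∀ p ∈ P, ∀ q ∈ P, p ≠ q → p * q ∣ R) (hl : 0 < l) (h2 : 2 * Y * l ≤ R) :
    ∑ y : ZMod R, ((#(win (pts P) (pos R) l y) : ℝ) - mean (pts P) R l) ^ 2 ≤
      ((R : ℝ) / (#(pts P) * l) + 3 / Y) * R * mean (pts P) R l ^ 2 := by
  classical
  have hR0 : 0 < R := Nat.pos_of_ne_zero (NeZero.ne R)
  have hRr : (0 : ℝ) < R := by exact_mod_cast hR0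
  have hlr : (0 : ℝ) < l := by exact_mod_cast hl
  have hYr : (0 : ℝ) < Y := by exact_mod_cast hY
  have hlR : l ≤ R := by
    calc l = 1 * l := by ring
      _ ≤ 2 * Y * l := Nat.mul_le_mul_right _ (by omega)
      _ ≤ R := h2
  have hprime : ∀ p ∈ P, p.Prime := fun p hp => (hP p hp).1
  have hpl : ∀ p ∈ P, p * l ≤ R := fun p hp =>
    le_trans (Nat.mul_le_mul_right _ (hP p hp).2.2) h2
  -- N and P
  set N : ℝ := (#(pts P) : ℝ) with hN
  have hNge : (Y : ℝ) * #P ≤ N := card_pts_ge Y P hP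
  have hPpos : (1 : ℝ) ≤ (#P : ℝ) := by
    have : 1 ≤ #P := Finset.card_pos.2 hne
    exact_mod_cast this
  have hNpos : 0 < N := lt_of_lt_of_le (by positivity) hNge
  have hNsum : ∑ p ∈ P, (p : ℝ) = N + #P := by
    have h1 := card_pts P hprime
    unfold NP at h1
    rw [Finset.sum_sub_distrib] at h1
    simp only [Finset.sum_const, nsmul_eq_mul, mul_one] at h1
    rw [hN, h1]
    ring
  -- second moment
  have hsq : ∑ y : ZMod R, ((#(win (pts P) (pos R) l y) : ℝ)) ^ 2 ≤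
      N * l + (l : ℝ) ^ 2 / R * (∑ p ∈ P, (p : ℝ)) ^ 2 := by
    have h1 := sq_win (pts P) (pos R) l hlR
    have h1r : ((∑ y : ZMod R, #(win (pts P) (pos R) l y) ^ 2 : ℕ) : ℝ) ≤
        ((#(pts P) * l + ∑ v ∈ pts P, ∑ w ∈ (pts P).erase v,
          ((l - (pos R v - pos R w).val) + (l - (pos R w - pos R v).val)) : ℕ) : ℝ) := by
      refine Nat.cast_le.2 (le_trans h1 (le_of_eq ?_))
      congr 1
      refine Finset.sum_congr rfl (fun v _ => Finset.sum_congr ?_ (fun _ _ => rfl))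
      ext w
      simp only [Finset.mem_erase]
    push_cast at h1r
    refine le_trans h1r ?_
    rw [← hN]
    have h3 : ∑ v ∈ pts P, ∑ w ∈ (pts P).erase v,
        ((((l - (pos R v - pos R w).val : ℕ)) : ℝ) + ((l - (pos R w - pos R v).val : ℕ) : ℝ)) ≤
        ∑ v ∈ pts P, ∑ w ∈ pts P, (if v.1 = w.1 then (0 : ℝ) else
        ((((l - (pos R v - pos R w).val : ℕ)) : ℝ) + ((l - (pos R w - pos R v).val : ℕ) : ℝ))) := by
      apply Finset.sum_le_sum
      intro v hv
      have h4 : ∑ w ∈ (pts P).erase v,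
        ((((l - (pos R v - pos R w).val : ℕ)) : ℝ) + ((l - (pos R w - pos R v).val : ℕ) : ℝ)) =
        ∑ w ∈ (pts P).erase v, (if v.1 = w.1 then (0 : ℝ) else
        ((((l - (pos R v - pos R w).val : ℕ)) : ℝ) + ((l - (pos R w - pos R v).val : ℕ) : ℝ))) := by
        apply Finset.sum_congr rfl
        intro w hw
        rw [Finset.mem_erase] at hw
        split_ifs with he
        · have hv' := (mem_pts P v).1 hv
          have hw' := (mem_pts P w).1 hw.2
          have hne2 : v.2 ≠ w.2 := fun h => hw.1 (Prod.ext he.symm h.symm)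
          obtain ⟨v1, v2⟩ := v
          obtain ⟨w1, w2⟩ := w
          simp only at he hv' hw' hne2
          subst he
          rw [same_p R l v1 v2 w2 (hprime _ hv'.1) (hR1 _ hv'.1) (hpl _ hv'.1) hv'.2 hw'.2 hne2,
            same_p R l v1 w2 v2 (hprime _ hv'.1) (hR1 _ hv'.1) (hpl _ hv'.1) hw'.2 hv'.2 hne2.symm]
          simp
        · rfl
      rw [h4]
      refine Finset.sum_le_sum_of_subset_of_nonneg (Finset.erase_subset _ _) ?_
      intro w _ _
      split_ifs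
      · exact le_refl _
      · positivity
    have h5 : ∑ v ∈ pts P, ∑ w ∈ pts P, (if v.1 = w.1 then (0 : ℝ) else
        ((((l - (pos R v - pos R w).val : ℕ)) : ℝ) + ((l - (pos R w - pos R v).val : ℕ) : ℝ))) ≤
        (l : ℝ) ^ 2 / R * (∑ p ∈ P, (p : ℝ)) ^ 2 := by
      rw [sum_pts]
      have h6 : ∀ p ∈ P, ∑ x ∈ U p, ∑ w ∈ pts P, (if (p, x).1 = w.1 then (0 : ℝ) else
        ((((l - (pos R (p, x) - pos R w).val : ℕ)) : ℝ) +
          ((l - (pos R w - pos R (p, x)).val : ℕ) : ℝ))) ≤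
          ∑ q ∈ P, (l : ℝ) ^ 2 / R * (p * q) := by
        intro p hp
        have h7 : ∑ x ∈ U p, ∑ w ∈ pts P, (if (p, x).1 = w.1 then (0 : ℝ) else
        ((((l - (pos R (p, x) - pos R w).val : ℕ)) : ℝ) +
          ((l - (pos R w - pos R (p, x)).val : ℕ) : ℝ))) =
          ∑ q ∈ P, ∑ x ∈ U p, ∑ y ∈ U q, (if p = q then (0 : ℝ) else
        ((((l - (pos R (p, x) - pos R (q, y)).val : ℕ)) : ℝ) +
          ((l - (pos R (q, y) - pos R (p, x)).val : ℕ) : ℝ))) := by
          rw [Finset.sum_comm' (s := P) (t := fun _ => U p) (s' := fun _ => P) (t' := U p)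
            (by intro a b; exact Iff.rfl)]
          exact Finset.sum_congr rfl (fun x _ => by rw [sum_pts])
        rw [h7]
        apply Finset.sum_le_sum
        intro q hq
        by_cases hpq : p = q
        · simp only [hpq, if_true, Finset.sum_const_zero]
          positivity
        · simp only [hpq, if_false]
          have h8 := pair_sum R l p q (hprime p hp) (hprime q hq) hpq (hR p hp q hq hpq)
          push_cast at h8
          refine le_trans h8 (le_of_eq ?_)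
          ring
      refine le_trans (Finset.sum_le_sum h6) (le_of_eq ?_)
      rw [sq (∑ p ∈ P, (p : ℝ)), Finset.sum_mul_sum, Finset.mul_sum]
      exact Finset.sum_congr rfl (fun p _ => by rw [Finset.mul_sum])
    linarith
  -- first moment
  have hfirst : ∑ y : ZMod R, (#(win (pts P) (pos R) l y) : ℝ) = N * l := by
    have := sum_win (pts P) (pos R) l hlR
    have h3 : ((∑ y : ZMod R, #(win (pts P) (pos R) l y) : ℕ) : ℝ) = ((#(pts P) * l : ℕ) : ℝ) := by
      rw [this]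
    push_cast at h3
    exact h3
  have hmean : mean (pts P) R l = N * l / R := rfl
  rw [hmean]
  have hexp : ∑ y : ZMod R, ((#(win (pts P) (pos R) l y) : ℝ) - N * l / R) ^ 2 =
      ∑ y : ZMod R, (#(win (pts P) (pos R) l y) : ℝ) ^ 2 - (N * l) ^ 2 / R := by
    have e1 : ∀ y : ZMod R, ((#(win (pts P) (pos R) l y) : ℝ) - N * l / R) ^ 2 =
        (#(win (pts P) (pos R) l y) : ℝ) ^ 2 - 2 * (N * l / R) * (#(win (pts P) (pos R) l y) : ℝ) +
          (N * l / R) ^ 2 := fun y => by ring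
    rw [Finset.sum_congr rfl (fun y _ => e1 y), Finset.sum_add_distrib, Finset.sum_sub_distrib,
      ← Finset.mul_sum, hfirst]
    simp only [Finset.sum_const, Finset.card_univ, ZMod.card, nsmul_eq_mul]
    field_simp
    ring
  rw [hexp]
  have hPN : (#P : ℝ) ≤ N / Y := by
    rw [le_div_iff₀ hYr]
    linarith
  have hPN2 : (#P : ℝ) ≤ N := by
    have hY1 : (1 : ℝ) ≤ Y := by exact_mod_cast hY
    nlinarith
  have hsum2 : (∑ p ∈ P, (p : ℝ)) ^ 2 ≤ N ^ 2 + 3 / Y * N ^ 2 := by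
    rw [hNsum]
    have h3 : (#P : ℝ) * (2 * N + #P) ≤ N / Y * (3 * N) := by
      apply mul_le_mul hPN (by linarith) (by positivity) (by positivity)
    have e : N / Y * (3 * N) = 3 / Y * N ^ 2 := by ring
    nlinarith
  have hfin : (l : ℝ) ^ 2 / R * (∑ p ∈ P, (p : ℝ)) ^ 2 ≤ (l : ℝ) ^ 2 / R * (N ^ 2 + 3 / Y * N ^ 2) :=
    mul_le_mul_of_nonneg_left hsum2 (by positivity)
  have e1 : ((R : ℝ) / (N * l) + 3 / Y) * R * (N * l / R) ^ 2 =
      N * l + 3 / Y * ((l : ℝ) ^ 2 / R * N ^ 2) := by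
    field_simp
  have e2 : (N * l) ^ 2 / R = (l : ℝ) ^ 2 / R * N ^ 2 := by ring
  rw [e1, e2]
  nlinarith
end DS69
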