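import Pool.Agent.LibDS69.Defs

/-!
# [DS69 N0] the fractions `x/p`
PLAN. `mem_pts`, `sum_pts`: `Finset.sum_biUnion` (the images are disjoint: first coordinates), `Finset.sum_image` (injective).
`card_pts`: `sum_pts` with `f = 1`, `#(U p) = p - 1` (`Nat.totient_prime`; `U p` is the filter of `Nat.totient`, see `CS68.U`).
`pos_sub`: `R = p q c`: `R / p = q c`, `R / q = p c`, `R / (p q) = c`; cast to `ZMod R`.
`near_pos`: `near l d` for `d = (n c : ℤ)` in `ZMod R`, `R = p q c`, means: some integer `t` with `|t| < l`, `t ≡ n c mod R` (take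
`t = d.val` or `t = -((-d).val)`: `ZMod.natCast_zmod_val`, `ZMod.intCast_eq_intCast_iff_dvd_sub`); then `c ∣ t` (because `c ∣ R`), `t = r c`,
`p q ∣ r - n` (cancel `c > 0`).
-/
set_option autoImplicit false
open Finset CS68

namespace DS69

theorem mem_pts (P : Finset ℕ) (t : ℕ × ℕ) : t ∈ pts P ↔ t.1 ∈ P ∧ t.2 ∈ U t.1 := by
  unfold pts
  simp only [mem_biUnion, mem_image]
  constructor
  · rintro ⟨p, hp, x, hx, rfl⟩
    exact ⟨hp, hx⟩
  · rintro ⟨h1, h2⟩
    exact ⟨t.1, h1, t.2, h2, rfl⟩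

theorem sum_pts {β : Type} [AddCommMonoid β] (P : Finset ℕ) (f : ℕ × ℕ → β) :
    ∑ t ∈ pts P, f t = ∑ p ∈ P, ∑ x ∈ U p, f (p, x) := by
  unfold pts
  rw [Finset.sum_biUnion]
  · refine Finset.sum_congr rfl fun p _ => ?_
    rw [Finset.sum_image]
    intro x _ y _ h
    exact (Prod.mk.inj h).2
  · intro p _ q _ hpq
    rw [Function.onFun, Finset.disjoint_left]
    intro t ht ht'
    rw [mem_image] at ht ht'
    obtain ⟨x, _, rfl⟩ := ht
    obtain ⟨y, _, h⟩ := ht'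
    exact hpq (Prod.mk.inj h).1.symm

private theorem N0_cardU (p : ℕ) (hp : p.Prime) : #(U p) = p - 1 := by
  rw [← Nat.totient_prime hp, Nat.totient_eq_card_coprime]
  unfold U
  congr 1
  ext x
  simp only [mem_filter, mem_range, Nat.coprime_comm]

theorem card_pts (P : Finset ℕ) (hP : ∀ p ∈ P, p.Prime) : (#(pts P) : ℝ) = NP P := by
  have h1 : #(pts P) = ∑ p ∈ P, (p - 1) := by
    rw [Finset.card_eq_sum_ones, sum_pts]
    refine Finset.sum_congr rfl fun p hp => ?_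
    rw [← Finset.card_eq_sum_ones, N0_cardU p (hP p hp)]
  rw [h1]
  unfold NP
  push_cast
  refine Finset.sum_congr rfl fun p hp => ?_
  rw [Nat.cast_sub (hP p hp).one_le]
  simp

theorem card_pts_ge (X : ℕ) (P : Finset ℕ) (hP : InX X P) : (X : ℝ) * #P ≤ #(pts P) := by
  rw [card_pts P fun p hp => (hP p hp).1]
  unfold NP
  rw [mul_comm, ← nsmul_eq_mul, ← Finset.sum_const]
  refine Finset.sum_le_sum fun p hp => ?_
  have h1 : X + 1 ≤ p := (hP p hp).2.1
  have h2 : (X : ℝ) + 1 ≤ p := by exact_mod_cast h1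
  linarith

theorem pos_sub (R p q x y : ℕ) [NeZero R] (h : p * q ∣ R) :
    pos R (p, x) - pos R (q, y) = (((((x : ℤ) * q - (y : ℤ) * p) * ((R / (p * q) : ℕ) : ℤ)) : ℤ) : ZMod R) := by
  have hR : R ≠ 0 := NeZero.ne R
  obtain ⟨c, hc⟩ := h
  have hpq : p * q ≠ 0 := fun h0 => hR (by rw [hc, h0, zero_mul])
  have hp : 0 < p := Nat.pos_of_ne_zero fun h0 => hpq (by rw [h0, zero_mul])
  have hq : 0 < q := Nat.pos_of_ne_zero fun h0 => hpq (by rw [h0, mul_zero])
  have e1 : R / p = q * c := by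
    rw [hc, mul_assoc, Nat.mul_div_cancel_left _ hp]
  have e2 : R / q = p * c := by
    rw [hc, show p * q * c = q * (p * c) by ring, Nat.mul_div_cancel_left _ hq]
  have e3 : R / (p * q) = c := by
    rw [hc, Nat.mul_div_cancel_left _ (Nat.pos_of_ne_zero hpq)]
  unfold pos
  dsimp only
  rw [e1, e2, e3]
  push_cast
  ring

private theorem N0_aux (R p q l : ℕ) [NeZero R] (h : p * q ∣ R) (n t : ℤ) (ht : |t| < l)
    (he : (t : ZMod R) = ((n * ((R / (p * q) : ℕ) : ℤ) : ℤ) : ZMod R)) :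
    ∃ r : ℤ, |r| * ((R / (p * q) : ℕ) : ℤ) < l ∧ ((p * q : ℕ) : ℤ) ∣ r - n := by
  have hR : R ≠ 0 := NeZero.ne R
  obtain ⟨c, hc⟩ := h
  have hpq : p * q ≠ 0 := fun h0 => hR (by rw [hc, h0, zero_mul])
  have hc0 : 0 < c := Nat.pos_of_ne_zero fun h0 => hR (by rw [hc, h0, mul_zero])
  have e3 : R / (p * q) = c := by
    rw [hc, Nat.mul_div_cancel_left _ (Nat.pos_of_ne_zero hpq)]
  rw [e3] at he ⊢
  have h1 : (R : ℤ) ∣ n * (c : ℤ) - t := (ZMod.intCast_eq_intCast_iff_dvd_sub t _ R).1 he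
  have hRc : (R : ℤ) = ((p * q : ℕ) : ℤ) * c := by
    rw [hc]
    push_cast
    ring
  have h2 : (c : ℤ) ∣ t := by
    have h3 : (c : ℤ) ∣ n * (c : ℤ) - t := (Dvd.intro_left _ hRc.symm).trans h1
    have h4 : (c : ℤ) ∣ n * (c : ℤ) := Dvd.intro_left _ rfl
    have h5 := dvd_sub h4 h3
    simpa using h5
  obtain ⟨r, hr⟩ := h2
  have hc1 : (0 : ℤ) < c := by exact_mod_cast hc0
  refine ⟨r, ?_, ?_⟩
  · have h6 : |t| = |r| * c := by
      rw [hr, abs_mul, abs_of_pos hc1, mul_comm]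
    rw [← h6]
    exact ht
  · have h7 : ((p * q : ℕ) : ℤ) * c ∣ (n - r) * c := by
      rw [← hRc]
      have h8 : (n - r) * c = n * (c : ℤ) - t := by rw [hr]; ring
      rw [h8]
      exact h1
    have h9 : ((p * q : ℕ) : ℤ) ∣ n - r := Int.dvd_of_mul_dvd_mul_right hc1.ne' h7
    have h10 := (dvd_neg.2 h9)
    rwa [neg_sub] at h10

theorem near_pos (R p q x y l : ℕ) [NeZero R] (h : p * q ∣ R)
    (hn : near l (pos R (p, x) - pos R (q, y))) :
    ∃ r : ℤ, |r| * ((R / (p * q) : ℕ) : ℤ) < l ∧ ((p * q : ℕ) : ℤ) ∣ r - ((x : ℤ) * q - (y : ℤ) * p) := by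
  rw [pos_sub R p q x y h] at hn
  set n : ℤ := (x : ℤ) * q - (y : ℤ) * p with hndef
  set d : ZMod R := ((n * ((R / (p * q) : ℕ) : ℤ) : ℤ) : ZMod R) with hd
  rcases hn with hn | hn
  · refine N0_aux R p q l h n (d.val : ℤ) ?_ ?_
    · rw [abs_of_nonneg (by positivity)]
      exact_mod_cast hn
    · rw [Int.cast_natCast, ZMod.natCast_zmod_val]
  · refine N0_aux R p q l h n (-((-d).val : ℤ)) ?_ ?_
    · rw [abs_neg, abs_of_nonneg (by positivity)]
      exact_mod_cast hn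
    · rw [Int.cast_neg, Int.cast_natCast, ZMod.natCast_zmod_val, neg_neg]

end DS69
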