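import Pool.Agent.LibDS69.Defs

/-!
# [DS69 W1] windows: first moment and near pairs
-/
set_option autoImplicit false
open Finset CS68

namespace DS69
variable {ι : Type} {R : ℕ} [NeZero R]

theorem win_count (l : ℕ) (hl : l ≤ R) (c : ZMod R) :
    #((univ : Finset (ZMod R)).filter (fun y => (c - y).val < l)) = l := by
  have h : (univ : Finset (ZMod R)).filter (fun y => (c - y).val < l) =
      (range l).image (fun i : ℕ => c - (i : ZMod R)) := by
    ext y
    simp only [mem_filter, mem_univ, true_and, mem_image, mem_range]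
    constructor
    · intro hy
      refine ⟨(c - y).val, hy, ?_⟩
      rw [ZMod.natCast_zmod_val]
      abel
    · rintro ⟨i, hi, rfl⟩
      rw [sub_sub_cancel, ZMod.val_cast_of_lt (lt_of_lt_of_le hi hl)]
      exact hi
  rw [h, card_image_of_injOn, card_range]
  intro i hi j hj hij
  simp only [coe_range, Set.mem_Iio] at hi hj
  have h2 : (i : ZMod R) = (j : ZMod R) := by
    have h3 := sub_right_inj.mp hij
    exact h3
  have h4 := congrArg ZMod.val h2
  rwa [ZMod.val_cast_of_lt (lt_of_lt_of_le hi hl), ZMod.val_cast_of_lt (lt_of_lt_of_le hj hl)] at h4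

/-- first moment -/
theorem sum_win (V : Finset ι) (a : ι → ZMod R) (l : ℕ) (hl : l ≤ R) :
    ∑ y : ZMod R, #(win V a l y) = #V * l := by
  simp only [win, card_filter]
  rw [sum_comm]
  have h : ∀ v ∈ V, (∑ y : ZMod R, if (a v - y).val < l then 1 else 0) = l := by
    intro v _
    rw [← card_filter]
    exact win_count l hl (a v)
  rw [sum_congr rfl h, sum_const, smul_eq_mul]

theorem near_of (l : ℕ) (hl : l ≤ R) (c d y : ZMod R) (hc : (c - y).val < l) (hd : (d - y).val < l) :
    near l (c - d) := by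
  have e : c - d = ((c - y).val : ZMod R) - ((d - y).val : ZMod R) := by
    rw [ZMod.natCast_zmod_val, ZMod.natCast_zmod_val]
    abel
  unfold near
  rcases le_total (d - y).val (c - y).val with h | h
  · left
    rw [e, ← Nat.cast_sub h, ZMod.val_cast_of_lt (by omega)]
    omega
  · right
    rw [e, neg_sub, ← Nat.cast_sub h, ZMod.val_cast_of_lt (by omega)]
    omega

/-- the disagreements in all windows -/
theorem sum_dis (V W : Finset ι) (a : ι → ZMod R) (s : ι → ℤˣ) (l : ℕ) (hl : l ≤ R) (e : ℤˣ) :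
    ∑ y : ZMod R, dis V W a s l e y ≤
      l * #((V ×ˢ W).filter (fun t => near l (a t.1 - a t.2) ∧ s t.1 * s t.2 ≠ e)) := by
  classical
  set N := (V ×ˢ W).filter (fun t => near l (a t.1 - a t.2) ∧ s t.1 * s t.2 ≠ e) with hN
  have h1 : ∀ y : ZMod R, dis V W a s l e y ≤
      ∑ t ∈ N, if (a t.1 - y).val < l then 1 else 0 := by
    intro y
    rw [← card_filter]
    unfold dis
    apply card_le_card
    intro t ht
    simp only [win, mem_filter, mem_product] at ht
    simp only [hN, mem_filter, mem_product]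
    obtain ⟨⟨⟨hv, hvy⟩, ⟨hw, hwy⟩⟩, hs⟩ := ht
    exact ⟨⟨⟨hv, hw⟩, near_of l hl _ _ y hvy hwy, hs⟩, hvy⟩
  refine (sum_le_sum (fun y _ => h1 y)).trans ?_
  rw [sum_comm]
  have h : ∀ t ∈ N, (∑ y : ZMod R, if (a t.1 - y).val < l then 1 else 0) = l := by
    intro t _
    rw [← card_filter]
    exact win_count l hl (a t.1)
  rw [sum_congr rfl h, sum_const, smul_eq_mul, mul_comm]

end DS69
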