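import Pool.Agent.LibDS69.N0
import Pool.Agent.LibDS69.W1

/-!
# [DS69 N3] Parseval for windows
PLAN. `G y = ∑_{v ∈ win V a l y} k v`. For `h : ZMod R`: `∑_y G y ψ(h y) = ∑_v k v ∑_{y : (a v - y).val < l} ψ(h y)
= (∑_v k v ψ(h a v)) * D h`, `D h = ∑_{z : z.val < l} ψ(-h z)` (`y = a v - z`). Parseval on `ZMod R`
(`∑_h |∑_y G y ψ(h y)|^2 = R ∑_y |G y|^2`: see `CS68.K3_parseval` in `LibCS68/K3.lean`, which is stated for a prime modulus but whose proof
uses only orthogonality `AddChar.sum_mulShift`; redo it for general `R` with `ZMod.isPrimitive_stdAddChar`), twice: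
`R ∑ G^2 = ∑_h |∑_v ..|^2 |D h|^2 ≤ B^2 ∑_h |D h|^2 = B^2 R l`.
-/
set_option autoImplicit false
open Finset CS68

namespace DS69
variable {ι : Type} {R : ℕ} [NeZero R]

private theorem N3_key (f : ZMod R → ℂ) :
    ∑ h : ZMod R, (∑ y : ZMod R, f y * ZMod.stdAddChar (h * y)) *
      (starRingEnd ℂ) (∑ y : ZMod R, f y * ZMod.stdAddChar (h * y)) =
      R * ∑ y : ZMod R, f y * (starRingEnd ℂ) (f y) := by
  have hconj : ∀ x : ZMod R, (starRingEnd ℂ) (ZMod.stdAddChar x : ℂ) = ZMod.stdAddChar (-x) := by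
    intro x
    rw [AddChar.map_neg_eq_conj]
  have h1 : ∀ k : ZMod R, (∑ u : ZMod R, f u * ZMod.stdAddChar (k * u)) *
      (starRingEnd ℂ) (∑ u : ZMod R, f u * ZMod.stdAddChar (k * u)) =
      ∑ u : ZMod R, ∑ v : ZMod R, f u * (starRingEnd ℂ) (f v) * ZMod.stdAddChar (k * (u - v)) := by
    intro k
    rw [map_sum, sum_mul_sum]
    refine sum_congr rfl fun u _ => sum_congr rfl fun v _ => ?_
    have e1 : (starRingEnd ℂ) (f v * ZMod.stdAddChar (k * v)) =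
        (starRingEnd ℂ) (f v) * ZMod.stdAddChar (-(k * v)) := by
      rw [map_mul (starRingEnd ℂ), hconj]
    have e2 : (ZMod.stdAddChar (k * (u - v)) : ℂ) = ZMod.stdAddChar (k * u) * ZMod.stdAddChar (-(k * v)) := by
      rw [mul_sub, sub_eq_add_neg, AddChar.map_add_eq_mul]
    rw [e1, e2]
    ring
  simp_rw [h1]
  rw [sum_comm, mul_sum]
  refine sum_congr rfl fun u _ => ?_
  rw [sum_comm]
  have h2 : ∀ v : ZMod R, ∑ k : ZMod R, f u * (starRingEnd ℂ) (f v) * (ZMod.stdAddChar (k * (u - v)) : ℂ) =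
      if u = v then (R : ℂ) * (f u * (starRingEnd ℂ) (f u)) else 0 := by
    intro v
    rw [← mul_sum, AddChar.sum_mulShift (u - v) (ZMod.isPrimitive_stdAddChar R)]
    by_cases h : u = v
    · subst h
      rw [if_pos (sub_self _), if_pos rfl, ZMod.card]
      ring
    · rw [if_neg (sub_ne_zero.2 h), if_neg h, Nat.cast_zero, mul_zero]
  simp_rw [h2]
  rw [sum_ite_eq, if_pos (mem_univ _)]

theorem parseval (f : ZMod R → ℂ) :
    ∑ h : ZMod R, ‖∑ y : ZMod R, f y * ZMod.stdAddChar (h * y)‖ ^ 2 = R * ∑ y : ZMod R, ‖f y‖ ^ 2 := by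
  have h := N3_key f
  simp_rw [Complex.mul_conj'] at h
  exact_mod_cast h

private theorem N3_D (l : ℕ) (hl : l ≤ R) :
    ∑ h : ZMod R, ‖∑ z : ZMod R, (if z.val < l then (1 : ℂ) else 0) * ZMod.stdAddChar (-(h * z))‖ ^ 2 =
      R * l := by
  have h1 : ∑ h : ZMod R, ‖∑ z : ZMod R, (if z.val < l then (1 : ℂ) else 0) * ZMod.stdAddChar (-(h * z))‖ ^ 2 =
      ∑ h : ZMod R, ‖∑ z : ZMod R, (if z.val < l then (1 : ℂ) else 0) * ZMod.stdAddChar (h * z)‖ ^ 2 := by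
    refine Fintype.sum_equiv (Equiv.neg (ZMod R)) _ _ fun h => ?_
    simp only [Equiv.neg_apply, neg_mul]
  rw [h1, parseval]
  congr 1
  have h2 : ∑ y : ZMod R, ‖(if y.val < l then (1 : ℂ) else 0)‖ ^ 2 =
      ∑ y : ZMod R, (if ((0 : ZMod R) - y).val < l then (1 : ℝ) else 0) := by
    refine Fintype.sum_equiv (Equiv.subLeft (0 : ZMod R)) _ _ fun y => ?_
    simp only [Equiv.subLeft_apply, sub_sub_cancel]
    split_ifs <;> simp
  rw [h2, Finset.sum_boole, win_count l hl]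

private theorem N3_G (V : Finset ι) (a : ι → ZMod R) (k : ι → ℝ) (l : ℕ) (h : ZMod R) :
    ∑ y : ZMod R, ((∑ v ∈ win V a l y, k v : ℝ) : ℂ) * ZMod.stdAddChar (h * y) =
      (∑ v ∈ V, (k v : ℂ) * ZMod.stdAddChar (h * a v)) *
        ∑ z : ZMod R, (if z.val < l then (1 : ℂ) else 0) * ZMod.stdAddChar (-(h * z)) := by
  have h1 : ∀ y : ZMod R, ((∑ v ∈ win V a l y, k v : ℝ) : ℂ) * ZMod.stdAddChar (h * y) =
      ∑ v ∈ V, (k v : ℂ) * ((if (a v - y).val < l then (1 : ℂ) else 0) * ZMod.stdAddChar (h * y)) := by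
    intro y
    rw [win, Finset.sum_filter, Complex.ofReal_sum, Finset.sum_mul]
    refine sum_congr rfl fun v _ => ?_
    split_ifs <;> simp
  simp_rw [h1]
  rw [sum_comm, Finset.sum_mul]
  refine sum_congr rfl fun v _ => ?_
  rw [← Finset.mul_sum, mul_assoc]
  congr 1
  rw [Finset.mul_sum]
  refine Fintype.sum_equiv (Equiv.subLeft (a v)) _ _ fun y => ?_
  simp only [Equiv.subLeft_apply]
  have e : (ZMod.stdAddChar (h * y) : ℂ) = ZMod.stdAddChar (h * a v) * ZMod.stdAddChar (-(h * (a v - y))) := by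
    rw [← AddChar.map_add_eq_mul]
    congr 1
    ring
  rw [e]
  ring

theorem parseval_win (V : Finset ι) (a : ι → ZMod R) (k : ι → ℝ) (l : ℕ) (hl : l ≤ R) (B : ℝ)
    (hB : ∀ h : ZMod R, ‖∑ v ∈ V, (k v : ℂ) * ZMod.stdAddChar (h * a v)‖ ≤ B) :
    ∑ y : ZMod R, (∑ v ∈ win V a l y, k v) ^ 2 ≤ B ^ 2 * l := by
  have hR : (0 : ℝ) < R := by exact_mod_cast Nat.pos_of_ne_zero (NeZero.ne R)
  have h1 := parseval (R := R) (fun y => ((∑ v ∈ win V a l y, k v : ℝ) : ℂ))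
  have h2 : ∑ y : ZMod R, ‖((∑ v ∈ win V a l y, k v : ℝ) : ℂ)‖ ^ 2 =
      ∑ y : ZMod R, (∑ v ∈ win V a l y, k v) ^ 2 := by
    refine sum_congr rfl fun y _ => ?_
    rw [Complex.norm_real, Real.norm_eq_abs, sq_abs]
  rw [h2] at h1
  have h3 : ∑ h : ZMod R, ‖∑ y : ZMod R, ((∑ v ∈ win V a l y, k v : ℝ) : ℂ) * ZMod.stdAddChar (h * y)‖ ^ 2 ≤
      B ^ 2 * (R * l) := by
    rw [← N3_D l hl, Finset.mul_sum]
    refine sum_le_sum fun h _ => ?_
    rw [N3_G, norm_mul, mul_pow]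
    refine mul_le_mul_of_nonneg_right ?_ (sq_nonneg _)
    exact pow_le_pow_left₀ (norm_nonneg _) (hB h) 2
  rw [h1] at h3
  have h4 : (R : ℝ) * ∑ y : ZMod R, (∑ v ∈ win V a l y, k v) ^ 2 ≤ R * (B ^ 2 * l) := by
    linarith
  exact le_of_mul_le_mul_left h4 hR

end DS69
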