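import Pool.Agent.LibDS69.T1
import Pool.Agent.LibDS69.N0
import Pool.Agent.LibCS68.K2c

/-!
# [DS69 T2] correlation of `ph x` and `ph (2^i x)` with square root cancellation
PLAN. The proof of `CS68.ph_corr` (`Pool/Agent/LibCS68/K2c.lean`; copy the private lemmas `K2c_*`) with a better bound for
`∑_{u : ZMod p} K(b u^2) K(b (l u)^2) ψ(n u)`, `l = 2^i`: by `sum_K` (`LibCS68/K2a.lean`) `K(b u^2)` is
`(1/p) ∑_k (p χ(k^2 - 4b)) ψ(-k u)` (Fourier inversion on `ZMod p`), so the sum is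
`∑_k χ(k^2 - 4b) ∑_u K(b l^2 u^2) ψ((n - k) u) = p ∑_k χ(k^2 - 4b) χ((n - k)^2 - 4 b l^2)` (`Kloo.chi` is `quadraticChar` as a complex number,
`Kloo.chi_apply`): at most `22 p √p` by `quartic` (`a = 4b`, `l^2 = 4^i ≠ 1` mod `p`: `p > 255`). The term `u = 0` is `1`
(`K2c_K0`). Divide by `p`. Translation `ψ_R(h * pos R (p,x)) = ψ_p(n x)` with `h = (n : ℕ)`, `R = p g` as in row N4 (`ph_sum`):
`pos R (p,x) = (x * (R / p) : ℕ)`, `ZMod.stdAddChar_coe` / `ZMod.toCircle_natCast`.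
-/
set_option autoImplicit false
open Finset CS68

namespace DS69

private theorem T2_ph (d : ℕ) (hd : 0 < d) (b r : ℤ) :
    haveI : NeZero d := ⟨hd.ne'⟩
    ((ph d b r : ℝ) : ℂ) = Kloo.K d ((b : ZMod d) * (r : ZMod d) ^ 2) / ((√(d : ℝ) : ℝ) : ℂ) := by
  have : NeZero d := ⟨hd.ne'⟩
  have h1 : kl (b * r ^ 2) 1 d = Kloo.K d ((b : ZMod d) * (r : ZMod d) ^ 2) := by
    rw [S1_kl]
    push_cast
    rfl
  obtain ⟨s, hs⟩ := Complex.conj_eq_iff_real.1 (Kloo.K_conj d ((b : ZMod d) * (r : ZMod d) ^ 2))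
  show ((ph d b r : ℝ) : ℂ) = Kloo.K d ((b : ZMod d) * (r : ZMod d) ^ 2) / ((√(d : ℝ) : ℝ) : ℂ)
  unfold ph
  rw [h1, hs, Complex.ofReal_re, Complex.ofReal_div]

private theorem T2_K0 (d : ℕ) [hd : Fact d.Prime] : Kloo.K d 0 = -1 := by
  unfold Kloo.K
  have h1 := Kloo.sum_units_eq (d := d) (fun x => (ZMod.stdAddChar (1 * x) : ℂ))
  rw [Kloo.sum_psi_zero 1 one_ne_zero] at h1
  simp only [mul_zero, AddChar.map_zero_eq_one, one_mul] at h1
  have h2 : ∑ u : (ZMod d)ˣ, (ZMod.stdAddChar (0 * (u : ZMod d) + ((u⁻¹ : (ZMod d)ˣ) : ZMod d)) : ℂ) =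
      ∑ u : (ZMod d)ˣ, (ZMod.stdAddChar (u : ZMod d) : ℂ) :=
    Fintype.sum_equiv (Equiv.inv _) _ _ fun u => by rw [zero_mul, zero_add]; rfl
  rw [h2]
  linear_combination -h1

private theorem T2_sumU {M : Type} [AddCommGroup M] (d : ℕ) [hd : Fact d.Prime] (F : ZMod d → M) :
    ∑ j ∈ U d, F (j : ZMod d) = ∑ u : ZMod d, F u - F 0 := by
  classical
  rw [eq_sub_iff_add_eq, ← Finset.sum_erase_add _ _ (Finset.mem_univ (0 : ZMod d))]
  congr 1
  refine sum_bij (fun (j : ℕ) _ => (j : ZMod d)) ?_ ?_ ?_ ?_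
  · intro j hj
    unfold U at hj
    rw [mem_filter, mem_range] at hj
    rw [mem_erase]
    refine ⟨?_, mem_univ _⟩
    rw [Ne, ZMod.natCast_eq_zero_iff]
    intro h
    have h1 := Nat.Coprime.eq_one_of_dvd (Nat.Coprime.symm hj.2) h
    exact hd.out.one_lt.ne' h1
  · intro i hi j hj h
    unfold U at hi hj
    rw [mem_filter, mem_range] at hi hj
    have h1 := (ZMod.natCast_eq_natCast_iff' i j d).1 h
    rwa [Nat.mod_eq_of_lt hi.1, Nat.mod_eq_of_lt hj.1] at h1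
  · intro u hu
    rw [mem_erase] at hu
    refine ⟨u.val, ?_, ?_⟩
    · unfold U
      rw [mem_filter, mem_range]
      refine ⟨ZMod.val_lt u, ?_⟩
      rw [Nat.coprime_comm, hd.out.coprime_iff_not_dvd]
      intro h
      apply hu.1
      have h1 := ZMod.val_lt u
      have h2 : u.val = 0 := Nat.eq_zero_of_dvd_of_lt h h1
      exact (ZMod.val_eq_zero u).1 h2
    · exact ZMod.natCast_zmod_val u
  · intro j _
    rfl

private theorem T2_chi_norm {d : ℕ} [Fact d.Prime] (x : ZMod d) : ‖Kloo.chi d x‖ ≤ 1 := by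
  rw [Kloo.chi_apply]
  by_cases hx : x = 0
  · subst hx; simp
  · rcases quadraticChar_dichotomy (F := ZMod d) hx with h | h <;> simp [h]

private theorem T2_char (R p : ℕ) [NeZero R] [NeZero p] (hpR : p ∣ R) (h : ZMod R) (x : ℕ) :
    (ZMod.stdAddChar (h * pos R (p, x)) : ℂ) = ZMod.stdAddChar ((h.val : ZMod p) * (x : ZMod p)) := by
  obtain ⟨g, hg⟩ := hpR
  have hp0 : (p : ℂ) ≠ 0 := Nat.cast_ne_zero.2 (NeZero.ne p)
  have hR0 : R ≠ 0 := NeZero.ne R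
  have hg0 : g ≠ 0 := by
    rintro rfl
    exact hR0 (by rw [hg, mul_zero])
  have hgc : (g : ℂ) ≠ 0 := Nat.cast_ne_zero.2 hg0
  have hdiv : R / p = g := by
    rw [hg]
    exact Nat.mul_div_cancel_left g (Nat.pos_of_ne_zero (NeZero.ne p))
  have e1 : h * pos R (p, x) = (((h.val * (x * g) : ℕ) : ℤ) : ZMod R) := by
    rw [pos]
    simp only
    rw [hdiv]
    push_cast
    rw [ZMod.natCast_zmod_val]
  have e2 : (h.val : ZMod p) * (x : ZMod p) = (((h.val * x : ℕ) : ℤ) : ZMod p) := by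
    push_cast
    rfl
  rw [e1, e2, ZMod.stdAddChar_coe, ZMod.stdAddChar_coe]
  congr 1
  have hRc : (R : ℂ) = p * g := by
    rw [hg]
    push_cast
    rfl
  rw [hRc]
  push_cast
  field_simp

private theorem T2_sum_psi {p : ℕ} [Fact p.Prime] (c : ZMod p) :
    ∑ y : ZMod p, (ZMod.stdAddChar (y * c) : ℂ) = if c = 0 then (p : ℂ) else 0 := by
  by_cases hc : c = 0
  · subst hc
    simp [ZMod.card]
  · rw [if_neg hc, ← Kloo.sum_psi_zero c hc]
    exact sum_congr rfl fun y _ => by rw [mul_comm]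

private theorem T2_inv {p : ℕ} [Fact p.Prime] (h2 : p ≠ 2) (α u : ZMod p) (hα : α ≠ 0) :
    (p : ℂ) * Kloo.K p (α * u ^ 2) =
      ∑ k : ZMod p, ((p : ℂ) * Kloo.chi p (k ^ 2 - 4 * α)) * ZMod.stdAddChar (k * (-u)) := by
  have e1 : ∀ k : ZMod p, ((p : ℂ) * Kloo.chi p (k ^ 2 - 4 * α)) * (ZMod.stdAddChar (k * (-u)) : ℂ) =
      ∑ v : ZMod p, Kloo.K p (α * v ^ 2) * ZMod.stdAddChar (k * (v - u)) := by
    intro k
    rw [← sum_K h2 α k hα, Finset.sum_mul]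
    refine sum_congr rfl fun v _ => ?_
    rw [mul_assoc, ← AddChar.map_add_eq_mul]
    congr 2
    ring
  rw [sum_congr rfl fun k _ => e1 k, Finset.sum_comm]
  have e2 : ∀ v : ZMod p, ∑ k : ZMod p, Kloo.K p (α * v ^ 2) * (ZMod.stdAddChar (k * (v - u)) : ℂ) =
      if v = u then Kloo.K p (α * v ^ 2) * (p : ℂ) else 0 := by
    intro v
    rw [← Finset.mul_sum, T2_sum_psi]
    by_cases hv : v = u
    · rw [if_pos hv, if_pos (sub_eq_zero.2 hv)]
    · rw [if_neg hv, if_neg (fun h => hv (sub_eq_zero.1 h)), mul_zero]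
  rw [sum_congr rfl fun v _ => e2 v, Finset.sum_ite_eq' univ u, if_pos (mem_univ u), mul_comm]

private theorem T2_main {p : ℕ} [Fact p.Prime] (h2 : p ≠ 2) (α l n : ZMod p) (hα : α ≠ 0) (hl : l ≠ 0) :
    ∑ u : ZMod p, Kloo.K p (α * u ^ 2) * Kloo.K p (α * (l * u) ^ 2) * ZMod.stdAddChar (n * u) =
      (p : ℂ) * ((∑ k : ZMod p, quadraticChar (ZMod p) ((k ^ 2 - 4 * α) * ((n - k) ^ 2 - 4 * α * l ^ 2)) : ℤ) : ℂ) := by
  have hp0 : (p : ℂ) ≠ 0 := Nat.cast_ne_zero.2 (Fact.out (p := p.Prime)).ne_zero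
  have hαl : α * l ^ 2 ≠ 0 := mul_ne_zero hα (pow_ne_zero 2 hl)
  have e1 : ∀ u : ZMod p, (p : ℂ) * (Kloo.K p (α * u ^ 2) * Kloo.K p (α * (l * u) ^ 2) * ZMod.stdAddChar (n * u)) =
      ∑ k : ZMod p, ((p : ℂ) * Kloo.chi p (k ^ 2 - 4 * α)) *
        (Kloo.K p (α * l ^ 2 * u ^ 2) * ZMod.stdAddChar ((n - k) * u)) := by
    intro u
    have e2 : (p : ℂ) * (Kloo.K p (α * u ^ 2) * Kloo.K p (α * (l * u) ^ 2) * ZMod.stdAddChar (n * u)) =
        ((p : ℂ) * Kloo.K p (α * u ^ 2)) * (Kloo.K p (α * (l * u) ^ 2) * ZMod.stdAddChar (n * u)) := by ring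
    rw [e2, T2_inv h2 α u hα, Finset.sum_mul]
    refine sum_congr rfl fun k _ => ?_
    have e3 : α * (l * u) ^ 2 = α * l ^ 2 * u ^ 2 := by ring
    have e4 : (n - k) * u = n * u + k * (-u) := by ring
    rw [e3, e4, AddChar.map_add_eq_mul]
    ring
  have e5 : (p : ℂ) * ∑ u : ZMod p, Kloo.K p (α * u ^ 2) * Kloo.K p (α * (l * u) ^ 2) * ZMod.stdAddChar (n * u) =
      ∑ k : ZMod p, ((p : ℂ) * Kloo.chi p (k ^ 2 - 4 * α)) *
        ((p : ℂ) * Kloo.chi p ((n - k) ^ 2 - 4 * (α * l ^ 2))) := by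
    rw [Finset.mul_sum, sum_congr rfl fun u _ => e1 u, Finset.sum_comm]
    refine sum_congr rfl fun k _ => ?_
    rw [← Finset.mul_sum, sum_K h2 _ _ hαl]
  apply mul_left_cancel₀ hp0
  rw [e5]
  push_cast
  rw [Finset.mul_sum, Finset.mul_sum]
  refine sum_congr rfl fun k _ => ?_
  rw [map_mul]
  simp only [Kloo.chi_apply]
  have e6 : 4 * (α * l ^ 2) = 4 * α * l ^ 2 := by ring
  rw [e6]
  push_cast
  ring

theorem corr4 (R p : ℕ) [NeZero R] (hp : p.Prime) (h4 : 10000 ≤ p) (hpR : p ∣ R) (b : ℤ) (hb : ¬ (p : ℤ) ∣ b)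
    (i : ℕ) (hi : i ∈ Icc 1 4) (h : ZMod R) :
    ‖∑ x ∈ U p, ((ph p b x * ph p b (2 ^ i * x) : ℝ) : ℂ) * ZMod.stdAddChar (h * pos R (p, x))‖ ≤
      25 * √(p : ℝ) := by
  have : Fact p.Prime := ⟨hp⟩
  have : NeZero p := ⟨hp.ne_zero⟩
  have hp2 : p ≠ 2 := by omega
  have hp0 : (0 : ℝ) < p := by exact_mod_cast hp.pos
  rw [mem_Icc] at hi
  have hbz : ((b : ℤ) : ZMod p) ≠ 0 := by
    intro h
    exact hb ((ZMod.intCast_zmod_eq_zero_iff_dvd b p).1 h)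
  have hnz : ∀ k : ℕ, 0 < k → k < p → ((k : ℕ) : ZMod p) ≠ 0 := by
    intro k hk hkd h
    rw [ZMod.natCast_eq_zero_iff] at h
    have := Nat.le_of_dvd hk h
    omega
  have h20 : (2 : ZMod p) ≠ 0 := by
    have h := hnz 2 (by omega) (by omega)
    exact_mod_cast h
  have h40 : (4 : ZMod p) ≠ 0 := by
    have h := hnz 4 (by omega) (by omega)
    exact_mod_cast h
  set l : ZMod p := (2 : ZMod p) ^ i with hl
  have hl0 : l ≠ 0 := pow_ne_zero i h20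
  have hl2 : l ^ 2 ≠ 1 := by
    have h3 : (4 ^ i : ℕ) ≤ 256 := by
      calc (4 ^ i : ℕ) ≤ 4 ^ 4 := Nat.pow_le_pow_right (by norm_num) hi.2
        _ = 256 := by norm_num
    have h5 : 4 ≤ (4 ^ i : ℕ) := by
      calc 4 = 4 ^ 1 := by norm_num
        _ ≤ 4 ^ i := Nat.pow_le_pow_right (by norm_num) hi.1
    intro h
    have h6 : ((4 ^ i - 1 : ℕ) : ZMod p) = 0 := by
      rw [Nat.cast_sub (by omega)]
      push_cast
      have h7 : (4 : ZMod p) ^ i = l ^ 2 := by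
        rw [hl, ← pow_mul, mul_comm i 2, pow_mul]
        norm_num
      rw [h7, h, sub_self]
    exact hnz (4 ^ i - 1) (by omega) (by omega) h6
  set n : ZMod p := (h.val : ZMod p) with hn
  set s : ℂ := ((√(p : ℝ) : ℝ) : ℂ) with hs
  have hss : s * s = (p : ℂ) := by
    rw [hs, ← Complex.ofReal_mul, Real.mul_self_sqrt hp0.le]
    simp
  set F : ZMod p → ℂ := fun u => Kloo.K p ((b : ZMod p) * u ^ 2) *
    Kloo.K p ((b : ZMod p) * (l * u) ^ 2) * ZMod.stdAddChar (n * u) with hF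
  have h1 : ∑ x ∈ U p, ((ph p b x * ph p b (2 ^ i * x) : ℝ) : ℂ) * ZMod.stdAddChar (h * pos R (p, x)) =
      (∑ u : ZMod p, F u - F 0) / p := by
    rw [← T2_sumU, Finset.sum_div]
    refine sum_congr rfl fun j _ => ?_
    rw [T2_char R p hpR h j, Complex.ofReal_mul, T2_ph p hp.pos, T2_ph p hp.pos, ← hs, ← hn]
    rw [hF]
    push_cast
    rw [← hss, div_mul_div_comm, div_mul_eq_mul_div, ← hl]
  have hF0 : F 0 = 1 := by
    rw [hF]
    simp only [mul_zero, ne_eq, OfNat.ofNat_ne_zero, not_false_eq_true, zero_pow,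
      AddChar.map_zero_eq_one, mul_one, T2_K0]
    norm_num
  have h4' := T2_main hp2 (b : ZMod p) l n hbz hl0
  have hq := quartic p h4 (4 * (b : ZMod p)) l n (mul_ne_zero h40 hbz) hl2
  set Q : ℤ := ∑ k : ZMod p, quadraticChar (ZMod p) ((k ^ 2 - 4 * (b : ZMod p)) *
    ((n - k) ^ 2 - 4 * (b : ZMod p) * l ^ 2)) with hQ
  have h5 : ‖∑ u : ZMod p, F u‖ ≤ p * (22 * √(p : ℝ)) := by
    rw [hF]
    dsimp only
    rw [h4', norm_mul, Complex.norm_natCast, Complex.norm_intCast]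
    exact mul_le_mul_of_nonneg_left hq hp0.le
  have hs1 : 1 ≤ √(p : ℝ) := by
    rw [Real.one_le_sqrt]
    exact_mod_cast hp.one_le
  have hp1 : (1 : ℝ) ≤ p := by exact_mod_cast hp.one_le
  rw [h1, norm_div, hF0, Complex.norm_natCast, div_le_iff₀ hp0]
  refine (norm_sub_le _ _).trans ?_
  rw [norm_one]
  nlinarith [mul_le_mul_of_nonneg_left hs1 hp0.le]

end DS69
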