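import Pool.Agent.LibDS69.Defs2
import Pool.Agent.LibCS68.K3

/-!
# [DS69 T3] some product `ph x * ph (2^i x)` is large on average
PLAN. `S = ∑_{x ∈ U p} ph(x)^2 ≥ p - 3` (this is inside the proof of `CS68.ph_half` in `LibCS68/K3.lean`: private lemmas `K3_sq`, `K3_g`,
`K3_half`, `K3_parseval`; copy). `φ u = ph p b u.val` for `u : ZMod p` (`ph` depends on the residue only), `U p` = the nonzero residues.
`∑_{u ≠ 0} (∑_{i=0}^4 φ(2^i u)^2)^2 ≥ (5 S)^2/(p-1)` (Cauchy-Schwarz and `u ↦ 2^i u` is a bijection), the diagonal part is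
`∑_i ∑_u φ(2^i u)^4 ≤ 4 * 5 S` (`|φ| ≤ 2`: `ph_le`). So the ordered off-diagonal part is `≥ 25 S^2/(p-1) - 20 S = 5 S (5 S/(p-1) - 4) ≥ 4 p`
for `p ≥ 10000`. It equals `2 ∑_{k=1}^4 (5 - k) Q_k`, `Q_k = ∑_{u ≠ 0} φ(u)^2 φ(2^k u)^2` (substitution), hence `∑_k Q_k ≥ p/2`, and
`|φ(u) φ(2^k u)| ≥ φ(u)^2 φ(2^k u)^2 / 4`.
-/
set_option autoImplicit false
open Finset CS68

namespace DS69

private lemma T3_unit (p : ℕ) [NeZero p] [hp : Fact p.Prime] (h4 : 10000 ≤ p) (i : ℕ) : ((2 : ZMod p) ^ i) ≠ 0 := by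
  apply pow_ne_zero
  intro h
  have h1 : ((2 : ℕ) : ZMod p) = 0 := by exact_mod_cast h
  rw [ZMod.natCast_eq_zero_iff] at h1
  have := Nat.le_of_dvd (by norm_num) h1
  omega

private lemma T3_subst (p : ℕ) [NeZero p] [hp : Fact p.Prime] (h4 : 10000 ≤ p) (i : ℕ) (F : ZMod p → ℝ) :
    ∑ u : ZMod p, F (2 ^ i * u) = ∑ u : ZMod p, F u :=
  Fintype.sum_equiv (Equiv.mulLeft₀ ((2 : ZMod p) ^ i) (T3_unit p h4 i)) (fun u => F (2 ^ i * u)) F (fun _ => rfl)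

private lemma T3_sumU (p : ℕ) [NeZero p] [hp : Fact p.Prime] (F : ZMod p → ℝ) :
    ∑ u : ZMod p, F u = F 0 + ∑ x ∈ U p, F (x : ZMod p) := by
  have h3 : ∑ u : ZMod p, F u = ∑ a ∈ range p, F (a : ZMod p) := by
    symm
    refine sum_bij (fun (a : ℕ) _ => (a : ZMod p)) (fun _ _ => mem_univ _) ?_ ?_ (fun _ _ => rfl)
    · intro a ha b hb h
      rw [mem_range] at ha hb
      have := congrArg ZMod.val h
      rwa [ZMod.val_natCast, ZMod.val_natCast, Nat.mod_eq_of_lt ha, Nat.mod_eq_of_lt hb] at this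
    · intro u _
      exact ⟨u.val, mem_range.2 (ZMod.val_lt u), ZMod.natCast_zmod_val u⟩
  have h4 : range p = insert 0 (U p) := by
    ext a
    simp only [U, mem_insert, mem_filter, mem_range]
    constructor
    · intro ha
      rcases Nat.eq_zero_or_pos a with h | h
      · left; exact h
      · right
        exact ⟨ha, Nat.Coprime.symm ((Nat.Prime.coprime_iff_not_dvd hp.out).2
          (Nat.not_dvd_of_pos_of_lt h ha))⟩
    · rintro (h | h)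
      · rw [h]; exact hp.out.pos
      · exact h.1
  have h0 : (0 : ℕ) ∉ U p := by
    simp only [U, mem_filter, mem_range, not_and]
    intro _ h
    rw [Nat.coprime_zero_left] at h
    exact hp.out.one_lt.ne' h
  rw [h3, h4, sum_insert h0, Nat.cast_zero]

theorem lower4 (p : ℕ) (hp : p.Prime) (h4 : 10000 ≤ p) (b : ℤ) (hb : ¬ (p : ℤ) ∣ b) :
    (p : ℝ) / 8 ≤ ∑ i ∈ Icc 1 4, ∑ x ∈ U p, |ph p b x * ph p b (2 ^ i * x)| := by
  haveI : Fact p.Prime := ⟨hp⟩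
  haveI : NeZero p := ⟨hp.ne_zero⟩
  have hp4 : (10000 : ℝ) ≤ p := by exact_mod_cast h4
  have hp0 : (0 : ℝ) < p := by linarith
  have h2 : p ≠ 2 := by omega
  obtain ⟨g, hg⟩ : ∃ g : ZMod p → ℝ, g = K3_g p b := ⟨_, rfl⟩
  have hg0 : ∀ u, 0 ≤ g u := fun u => by rw [hg]; exact K3_nonneg p b u
  have hg2 : ∀ u, g u ≤ 2 := by
    intro u
    have h1 := ph_le p hp b (u.val : ℤ)
    rw [K3_ph] at h1
    have h3 : (((u.val : ℕ) : ℤ) : ZMod p) = u := by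
      rw [Int.cast_natCast, ZMod.natCast_zmod_val]
    rw [hg]
    rwa [h3] at h1
  have hS := K3_sq p h2 b hb
  have hz := K3_K0 p b
  rw [← hg] at hS hz
  -- the products
  obtain ⟨R, hR⟩ : ∃ R : ℕ → ℝ, R = fun i => ∑ u : ZMod p, g u * g (2 ^ i * u) := ⟨_, rfl⟩
  have hRU : ∀ i, ∑ x ∈ U p, |ph p b x * ph p b (2 ^ i * x)| = R i - 1 / p := by
    intro i
    have e1 := T3_sumU p (fun u => g u * g (2 ^ i * u))
    have e2 : ∑ x ∈ U p, |ph p b x * ph p b (2 ^ i * x)| =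
        ∑ x ∈ U p, g (x : ZMod p) * g (2 ^ i * (x : ZMod p)) := by
      refine sum_congr rfl fun x _ => ?_
      rw [abs_mul, K3_ph, K3_ph, hg]
      push_cast
      rfl
    have e3 : R i = ∑ u : ZMod p, g u * g (2 ^ i * u) := by rw [hR]
    simp only [mul_zero] at e1
    rw [e2, e3, e1]
    have e4 : g 0 * g 0 = 1 / p := by rw [← hz]; ring
    rw [e4]; ring
  simp_rw [hRU]
  -- expansion of the square
  obtain ⟨a, ha⟩ : ∃ a : ZMod p → ℝ, a = fun u => g u ^ 2 := ⟨_, rfl⟩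
  have ha0 : ∀ u, 0 ≤ a u := fun u => by rw [ha]; positivity
  have ha4 : ∀ u, a u ≤ 4 := fun u => by rw [ha]; nlinarith [hg0 u, hg2 u]
  obtain ⟨S, hSS⟩ : ∃ S : ℝ, S = ∑ u : ZMod p, a u := ⟨_, rfl⟩
  have hSlow : (p : ℝ) - 2 ≤ S := by rw [hSS, ha]; exact hS
  have hQ : ∀ i j : ℕ, i ≤ j → ∑ u : ZMod p, a (2 ^ i * u) * a (2 ^ j * u) ≤ 4 * R (j - i) := by
    intro i j hij
    obtain ⟨k, rfl⟩ := Nat.exists_eq_add_of_le hij
    have e1 : ∑ u : ZMod p, a (2 ^ i * u) * a (2 ^ (i + k) * u) = ∑ u : ZMod p, a u * a (2 ^ k * u) := by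
      have e2 := T3_subst p h4 i (fun u => a u * a (2 ^ k * u))
      rw [← e2]
      refine sum_congr rfl fun u _ => ?_
      have e3 : (2 : ZMod p) ^ (i + k) * u = 2 ^ k * (2 ^ i * u) := by ring
      rw [e3]
    rw [e1, Nat.add_sub_cancel_left, hR, mul_sum]
    refine sum_le_sum fun u _ => ?_
    rw [ha]
    have h1 := hg0 u
    have h2 := hg2 u
    have h3 := hg0 (2 ^ k * u)
    have h5 := hg2 (2 ^ k * u)
    have h6 : 0 ≤ g u * g (2 ^ k * u) := mul_nonneg h1 h3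
    have h7 : g u * g (2 ^ k * u) ≤ 4 := by nlinarith
    show g u ^ 2 * g (2 ^ k * u) ^ 2 ≤ 4 * (g u * g (2 ^ k * u))
    nlinarith
  have hD : ∀ i : ℕ, ∑ u : ZMod p, a (2 ^ i * u) ^ 2 ≤ 4 * S := by
    intro i
    have e2 := T3_subst p h4 i (fun u => a u ^ 2)
    rw [e2, hSS, mul_sum]
    refine sum_le_sum fun u _ => ?_
    nlinarith [ha0 u, ha4 u]
  have hA : ∀ i : ℕ, ∑ u : ZMod p, a (2 ^ i * u) = S := by
    intro i
    rw [hSS]; exact T3_subst p h4 i a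
  obtain ⟨A, hAd⟩ : ∃ A : ZMod p → ℝ, A = fun u => a (2 ^ 0 * u) + a (2 ^ 1 * u) + a (2 ^ 2 * u) + a (2 ^ 3 * u) +
    a (2 ^ 4 * u) := ⟨_, rfl⟩
  have hA1 : ∑ u : ZMod p, A u = 5 * S := by
    rw [hAd]
    simp only [sum_add_distrib]
    rw [hA 0, hA 1, hA 2, hA 3, hA 4]; ring
  have hCS : (∑ u : ZMod p, A u) ^ 2 ≤ p * ∑ u : ZMod p, A u ^ 2 := by
    have := sq_sum_le_card_mul_sum_sq (s := (univ : Finset (ZMod p))) (f := A)
    rw [card_univ, ZMod.card] at this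
    exact this
  have hR0 : ∀ i, 0 ≤ R i := fun i => by
    rw [hR]; exact sum_nonneg fun u _ => mul_nonneg (hg0 _) (hg0 _)
  have hA2 : ∑ u : ZMod p, A u ^ 2 ≤ 20 * S + 32 * (R 1 + R 2 + R 3 + R 4) := by
    have e1 : ∀ u, A u ^ 2 = a (2 ^ 0 * u) ^ 2 + a (2 ^ 1 * u) ^ 2 + a (2 ^ 2 * u) ^ 2 + a (2 ^ 3 * u) ^ 2 +
        a (2 ^ 4 * u) ^ 2 + 2 * (a (2 ^ 0 * u) * a (2 ^ 1 * u)) + 2 * (a (2 ^ 0 * u) * a (2 ^ 2 * u)) +
        2 * (a (2 ^ 0 * u) * a (2 ^ 3 * u)) + 2 * (a (2 ^ 0 * u) * a (2 ^ 4 * u)) +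
        2 * (a (2 ^ 1 * u) * a (2 ^ 2 * u)) + 2 * (a (2 ^ 1 * u) * a (2 ^ 3 * u)) +
        2 * (a (2 ^ 1 * u) * a (2 ^ 4 * u)) + 2 * (a (2 ^ 2 * u) * a (2 ^ 3 * u)) +
        2 * (a (2 ^ 2 * u) * a (2 ^ 4 * u)) + 2 * (a (2 ^ 3 * u) * a (2 ^ 4 * u)) := by
      intro u
      rw [hAd]; ring
    simp_rw [e1]
    simp only [sum_add_distrib, ← mul_sum]
    have := hD 0
    have := hD 1
    have := hD 2
    have := hD 3
    have := hD 4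
    have q01 : ∑ u : ZMod p, a (2 ^ 0 * u) * a (2 ^ 1 * u) ≤ 4 * R 1 := hQ 0 1 (by norm_num)
    have q02 : ∑ u : ZMod p, a (2 ^ 0 * u) * a (2 ^ 2 * u) ≤ 4 * R 2 := hQ 0 2 (by norm_num)
    have q03 : ∑ u : ZMod p, a (2 ^ 0 * u) * a (2 ^ 3 * u) ≤ 4 * R 3 := hQ 0 3 (by norm_num)
    have q04 : ∑ u : ZMod p, a (2 ^ 0 * u) * a (2 ^ 4 * u) ≤ 4 * R 4 := hQ 0 4 (by norm_num)
    have q12 : ∑ u : ZMod p, a (2 ^ 1 * u) * a (2 ^ 2 * u) ≤ 4 * R 1 := hQ 1 2 (by norm_num)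
    have q13 : ∑ u : ZMod p, a (2 ^ 1 * u) * a (2 ^ 3 * u) ≤ 4 * R 2 := hQ 1 3 (by norm_num)
    have q14 : ∑ u : ZMod p, a (2 ^ 1 * u) * a (2 ^ 4 * u) ≤ 4 * R 3 := hQ 1 4 (by norm_num)
    have q23 : ∑ u : ZMod p, a (2 ^ 2 * u) * a (2 ^ 3 * u) ≤ 4 * R 1 := hQ 2 3 (by norm_num)
    have q24 : ∑ u : ZMod p, a (2 ^ 2 * u) * a (2 ^ 4 * u) ≤ 4 * R 2 := hQ 2 4 (by norm_num)
    have q34 : ∑ u : ZMod p, a (2 ^ 3 * u) * a (2 ^ 4 * u) ≤ 4 * R 1 := hQ 3 4 (by norm_num)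
    have r1 := hR0 1
    have r2 := hR0 2
    have r3 := hR0 3
    have r4 := hR0 4
    linarith
  have hsum : ∑ i ∈ Icc 1 4, (R i - 1 / (p : ℝ)) = R 1 + R 2 + R 3 + R 4 - 4 * (1 / p) := by
    have : (Icc 1 4 : Finset ℕ) = {1, 2, 3, 4} := by decide
    rw [this, sum_insert (by decide), sum_insert (by decide), sum_insert (by decide), sum_singleton]
    ring
  rw [hsum]
  have hinv : 1 / (p : ℝ) ≤ 1 := by
    rw [div_le_one hp0]; linarith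
  obtain ⟨T, hT⟩ : ∃ T : ℝ, T = R 1 + R 2 + R 3 + R 4 := ⟨_, rfl⟩
  rw [← hT] at hA2 ⊢
  rw [hA1] at hCS
  have h9 : (5 * S) ^ 2 ≤ p * (20 * S + 32 * T) := hCS.trans (mul_le_mul_of_nonneg_left hA2 hp0.le)
  have h10 : (p - 2 : ℝ) * (5 * p - 50) ≤ S * (25 * S - 20 * p) := by
    have h11 : (5 * p - 50 : ℝ) ≤ 25 * S - 20 * p := by linarith
    have h12 : (0 : ℝ) ≤ 5 * p - 50 := by linarith
    have h13 : (0 : ℝ) ≤ p - 2 := by linarith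
    exact mul_le_mul hSlow h11 h12 (by linarith)
  have h14 : (p - 2 : ℝ) * (5 * p - 50) ≤ 32 * p * T := by nlinarith
  by_contra hcon
  rw [not_le] at hcon
  have h15 : T < p / 8 + 4 := by linarith
  have h16 : 32 * p * T ≤ 32 * p * (p / 8 + 4) := by
    apply mul_le_mul_of_nonneg_left h15.le (by linarith)
  nlinarith

end DS69
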