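import Pool.Agent.LibDS69.Defs2
import Pool.Agent.LibDS69.N3
import Pool.Agent.LibDS69.N0
import Pool.Agent.LibDS69.T2
import Pool.Agent.LibDS69.T3

/-!
# [DS69 T4] the minorities are large for any sign patterns on long windows
PLAN. The proof of `minority_lower` (`LibDS69/N5.lean`, delivered, in the tar) for each `i ∈ {1,2,3,4}` with `k_i (p,x) = ph p b x * ph p b (2^i x)`
(`|k_i| ≤ 4`, its sign is `sp2 b i (p,x)`: `ph_sg` twice), `B = 36 √Y #P` (`corr4`, `25 √(2Y) ≤ 36 √Y`):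
`∑_y g_i(y) ∑_{win} k_i ≤ √R √(B^2 l) = 36 #P √(Y l R) ≤ 36 #P Y l/2304 = (1/64) Y #P l ≤ (1/64) #V l` (`2304^2 = 5308416`), and it is
`≥ l ∑_v |k_i v| - 8 ∑_y mi`. Sum over `i`: `l ∑_i ∑_v |k_i v| ≥ l ∑_p p/8 ≥ #V l/8` (`lower4`), so `8 ∑_i ∑_y mi ≥ #V l (1/8 - 4/64) = #V l/16`.
-/
set_option autoImplicit false
open Finset CS68

namespace DS69

private theorem T4_su (c : ℕ) (b r : ℤ) : (((su c b r : ℤˣ) : ℤ) : ℝ) = sg c b r := by
  unfold su
  rcases sg_or c b r with h | h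
  · rw [if_pos h, h]
    simp
  · rw [if_neg (by rw [h]; norm_num), h]
    simp

private theorem T4_sq (γ : ℤˣ) : ((γ : ℤ) : ℝ) * ((γ : ℤ) : ℝ) = 1 := by
  rcases Int.units_eq_one_or γ with h | h <;> rw [h] <;> simp

private theorem T4_point (p : ℕ) (hp : p.Prime) (b r r' : ℤ) (γ : ℤˣ) :
    |ph p b r * ph p b r'| - (if su p b r * su p b r' ≠ γ then 8 else 0) ≤
      ((γ : ℤ) : ℝ) * (ph p b r * ph p b r') := by
  have h1 := (ph_sg p hp b r).1
  have h1' := (ph_sg p hp b r').1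
  have h2 := ph_le p hp b r
  have h2' := ph_le p hp b r'
  have h3 : ((((su p b r * su p b r' : ℤˣ)) : ℤ) : ℝ) = sg p b r * sg p b r' := by
    rw [Units.val_mul, Int.cast_mul, T4_su, T4_su]
  have hγ := T4_sq γ
  have h4 : |ph p b r * ph p b r'| ≤ 4 := by
    rw [abs_mul]
    have := mul_le_mul h2 h2' (abs_nonneg _) (by norm_num : (0 : ℝ) ≤ 2)
    linarith
  have h0 : ph p b r * ph p b r' = |ph p b r * ph p b r'| * (sg p b r * sg p b r') := by
    rw [abs_mul]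
    calc ph p b r * ph p b r' = (|ph p b r| * sg p b r) * (|ph p b r'| * sg p b r') := by
          rw [← h1, ← h1']
      _ = |ph p b r| * |ph p b r'| * (sg p b r * sg p b r') := by ring
  split_ifs with h
  · have h5 : su p b r * su p b r' = -γ := Int.units_ne_iff_eq_neg.1 h
    have h6 : sg p b r * sg p b r' = - ((γ : ℤ) : ℝ) := by
      rw [← h3, h5]
      simp
    have h7 : ((γ : ℤ) : ℝ) * (ph p b r * ph p b r') = - |ph p b r * ph p b r'| := by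
      calc ((γ : ℤ) : ℝ) * (ph p b r * ph p b r')
          = ((γ : ℤ) : ℝ) * (|ph p b r * ph p b r'| * (sg p b r * sg p b r')) := by rw [← h0]
        _ = - |ph p b r * ph p b r'| * (((γ : ℤ) : ℝ) * ((γ : ℤ) : ℝ)) := by
            rw [h6]
            ring
        _ = - |ph p b r * ph p b r'| := by rw [hγ, mul_one]
    rw [h7]
    linarith
  · have h5 : su p b r * su p b r' = γ := not_not.1 h
    have h6 : sg p b r * sg p b r' = ((γ : ℤ) : ℝ) := by rw [← h3, h5]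
    have h7 : ((γ : ℤ) : ℝ) * (ph p b r * ph p b r') = |ph p b r * ph p b r'| := by
      calc ((γ : ℤ) : ℝ) * (ph p b r * ph p b r')
          = ((γ : ℤ) : ℝ) * (|ph p b r * ph p b r'| * (sg p b r * sg p b r')) := by rw [← h0]
        _ = |ph p b r * ph p b r'| * (((γ : ℤ) : ℝ) * ((γ : ℤ) : ℝ)) := by
            rw [h6]
            ring
        _ = |ph p b r * ph p b r'| := by rw [hγ, mul_one]
    rw [h7, sub_zero]

private theorem T4_exch {R : ℕ} [NeZero R] (V : Finset (ℕ × ℕ)) (a : ℕ × ℕ → ZMod R)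
    (F : ℕ × ℕ → ℝ) (l : ℕ) (hl : l ≤ R) :
    ∑ y : ZMod R, ∑ v ∈ win V a l y, F v = l * ∑ v ∈ V, F v := by
  have h1 : ∀ y : ZMod R, ∑ v ∈ win V a l y, F v =
      ∑ v ∈ V, if (a v - y).val < l then F v else 0 := by
    intro y
    unfold win
    rw [Finset.sum_filter]
  rw [Finset.sum_congr rfl fun y _ => h1 y, Finset.sum_comm, Finset.mul_sum]
  refine Finset.sum_congr rfl fun v _ => ?_
  rw [← Finset.sum_filter, Finset.sum_const, win_count l hl (a v), nsmul_eq_mul]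

private theorem T4_one (R l Y : ℕ) [NeZero R] (b : ℤ) (P : Finset ℕ) (hY : 10000 ≤ Y) (hP : InX Y P)
    (hR1 : ∀ p ∈ P, p ∣ R) (hb : ∀ p ∈ P, ¬ (p : ℤ) ∣ b) (hlR : l ≤ R)
    (hbig : 5308416 * R ≤ Y * l) (i : ℕ) (hi : i ∈ Icc 1 4) (g : ZMod R → ℤˣ) :
    (l : ℝ) * ∑ v ∈ pts P, |ph v.1 b v.2 * ph v.1 b (2 ^ i * v.2)| -
      8 * ∑ y : ZMod R, (mi (pts P) (pos R) (sp2 b i) l y (g y) : ℝ) ≤ (#(pts P) : ℝ) * l / 64 := by
  set V := pts P with hV
  set k : ℕ × ℕ → ℝ := fun v => ph v.1 b v.2 * ph v.1 b (2 ^ i * v.2) with hk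
  have hYR : (10000 : ℝ) ≤ Y := by exact_mod_cast hY
  have hY0 : (0 : ℝ) ≤ Y := by linarith
  have hp4 : ∀ p ∈ P, 10000 ≤ p := fun p hp => by
    have := (hP p hp).2.1
    omega
  -- the bound for the exponential sums
  have hB : ∀ h : ZMod R, ‖∑ v ∈ V, (k v : ℂ) * ZMod.stdAddChar (h * pos R v)‖ ≤
      36 * √(Y : ℝ) * #P := by
    intro h
    rw [hV, sum_pts P (fun v => (k v : ℂ) * ZMod.stdAddChar (h * pos R v))]
    refine (norm_sum_le _ _).trans ?_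
    have h1 : ∀ p ∈ P, ‖∑ x ∈ U p, (k (p, x) : ℂ) * ZMod.stdAddChar (h * pos R (p, x))‖ ≤
        36 * √(Y : ℝ) := by
      intro p hp
      have h2 := corr4 R p (hP p hp).1 (hp4 p hp) (hR1 p hp) b (hb p hp) i hi h
      refine h2.trans ?_
      have h3 : √(p : ℝ) ≤ 36 / 25 * √(Y : ℝ) := by
        have h4 : (p : ℝ) ≤ 2 * Y := by exact_mod_cast (hP p hp).2.2
        have h5 : (p : ℝ) ≤ (36 / 25 * √(Y : ℝ)) ^ 2 := by
          rw [mul_pow, Real.sq_sqrt hY0]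
          linarith
        exact Real.sqrt_le_iff.2 ⟨by positivity, h5⟩
      linarith
    refine (Finset.sum_le_sum h1).trans ?_
    rw [Finset.sum_const, nsmul_eq_mul, mul_comm]
  have hpw := parseval_win V (pos R) k l hlR _ hB
  -- upper bound
  set G : ZMod R → ℝ := fun y => ∑ v ∈ win V (pos R) l y, k v with hG
  have hsq : (∑ y : ZMod R, (((g y : ℤˣ) : ℤ) : ℝ) * G y) ^ 2 ≤ ((#V : ℝ) * l / 64) ^ 2 := by
    have h1 := Finset.sum_mul_sq_le_sq_mul_sq (Finset.univ : Finset (ZMod R))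
      (fun y => (((g y : ℤˣ) : ℤ) : ℝ)) G
    have h2 : ∑ y : ZMod R, (((g y : ℤˣ) : ℤ) : ℝ) ^ 2 = R := by
      have h3 : ∀ y : ZMod R, (((g y : ℤˣ) : ℤ) : ℝ) ^ 2 = 1 := fun y => by
        rw [sq]
        exact T4_sq (g y)
      rw [Finset.sum_congr rfl fun y _ => h3 y, Finset.sum_const, Finset.card_univ, ZMod.card,
        nsmul_eq_mul, mul_one]
    rw [h2] at h1
    have h3 : (5308416 : ℝ) * R ≤ Y * l := by exact_mod_cast hbig
    have h4 : (Y : ℝ) * #P ≤ #V := card_pts_ge Y P hP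
    have hl0 : (0 : ℝ) ≤ l := by positivity
    have hR0 : (0 : ℝ) ≤ R := by positivity
    have hP0 : (0 : ℝ) ≤ (#P : ℝ) := by positivity
    calc (∑ y : ZMod R, (((g y : ℤˣ) : ℤ) : ℝ) * G y) ^ 2 ≤ R * ∑ y : ZMod R, G y ^ 2 := h1
      _ ≤ R * ((36 * √(Y : ℝ) * #P) ^ 2 * l) := mul_le_mul_of_nonneg_left hpw hR0
      _ = 1296 * Y * (#P : ℝ) ^ 2 * l * R := by
          rw [mul_pow, mul_pow, Real.sq_sqrt hY0]
          ring
      _ = (1296 * Y * (#P : ℝ) ^ 2 * l) * (5308416 * R) / 5308416 := by ring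
      _ ≤ (1296 * Y * (#P : ℝ) ^ 2 * l) * (Y * l) / 5308416 := by
          have h5 : (0 : ℝ) ≤ 1296 * Y * (#P : ℝ) ^ 2 * l := by positivity
          have h6 := mul_le_mul_of_nonneg_left h3 h5
          linarith
      _ = ((Y : ℝ) * #P * l / 64) ^ 2 := by ring
      _ ≤ ((#V : ℝ) * l / 64) ^ 2 := by
          have h5 : (Y : ℝ) * #P * l / 64 ≤ (#V : ℝ) * l / 64 := by
            have := mul_le_mul_of_nonneg_right h4 hl0
            linarith
          exact pow_le_pow_left₀ (by positivity) h5 2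
  have hup : ∑ y : ZMod R, (((g y : ℤˣ) : ℤ) : ℝ) * G y ≤ (#V : ℝ) * l / 64 :=
    (le_abs_self _).trans (abs_le_of_sq_le_sq hsq (by positivity))
  -- lower bound
  have hlow : ∀ y : ZMod R, ∑ v ∈ win V (pos R) l y, |k v| -
      8 * (mi V (pos R) (sp2 b i) l y (g y) : ℝ) ≤ (((g y : ℤˣ) : ℤ) : ℝ) * G y := by
    intro y
    have h1 : (8 : ℝ) * (mi V (pos R) (sp2 b i) l y (g y) : ℝ) =
        ∑ v ∈ win V (pos R) l y, if sp2 b i v ≠ g y then (8 : ℝ) else 0 := by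
      rw [← Finset.sum_filter, Finset.sum_const, nsmul_eq_mul, mul_comm]
      rfl
    rw [h1, ← Finset.sum_sub_distrib, hG]
    simp only
    rw [Finset.mul_sum]
    refine Finset.sum_le_sum fun v hv => ?_
    have h2 : v ∈ V := (Finset.mem_filter.1 hv).1
    have h3 : v.1 ∈ P := ((mem_pts P v).1 h2).1
    exact T4_point v.1 (hP _ h3).1 b v.2 (2 ^ i * v.2) (g y)
  have hsum : l * ∑ v ∈ V, |k v| - 8 * ∑ y : ZMod R, (mi V (pos R) (sp2 b i) l y (g y) : ℝ) ≤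
      ∑ y : ZMod R, (((g y : ℤˣ) : ℤ) : ℝ) * G y := by
    have h1 := Finset.sum_le_sum fun (y : ZMod R) (_ : y ∈ Finset.univ) => hlow y
    rw [Finset.sum_sub_distrib, T4_exch V (pos R) (fun v => |k v|) l hlR, ← Finset.mul_sum] at h1
    exact h1
  exact hsum.trans hup

theorem minority4 (R l Y : ℕ) [NeZero R] (b : ℤ) (P : Finset ℕ) (hY : 10000 ≤ Y) (hP : InX Y P)
    (hR1 : ∀ p ∈ P, p ∣ R) (hb : ∀ p ∈ P, ¬ (p : ℤ) ∣ b) (hl : 0 < l) (hlR : l ≤ R)
    (hbig : 5308416 * R ≤ Y * l) (g : ℕ → ZMod R → ℤˣ) :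
    (#(pts P) : ℝ) * l / 128 ≤ ∑ i ∈ Icc 1 4, ∑ y : ZMod R, (mi (pts P) (pos R) (sp2 b i) l y (g i y) : ℝ) := by
  have h1 := Finset.sum_le_sum fun i (hi : i ∈ Icc 1 4) =>
    T4_one R l Y b P hY hP hR1 hb hlR hbig i hi (g i)
  rw [Finset.sum_sub_distrib, ← Finset.mul_sum, ← Finset.mul_sum, Finset.sum_const, Nat.card_Icc,
    nsmul_eq_mul] at h1
  have hkl : (#(pts P) : ℝ) / 8 ≤
      ∑ i ∈ Icc 1 4, ∑ v ∈ pts P, |ph v.1 b v.2 * ph v.1 b (2 ^ i * v.2)| := by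
    have h2 : ∀ i ∈ Icc 1 4, ∑ v ∈ pts P, |ph v.1 b v.2 * ph v.1 b (2 ^ i * v.2)| =
        ∑ p ∈ P, ∑ x ∈ U p, |ph p b x * ph p b (2 ^ i * x)| := fun i _ =>
      sum_pts P (fun v => |ph v.1 b v.2 * ph v.1 b (2 ^ i * v.2)|)
    rw [Finset.sum_congr rfl h2, Finset.sum_comm, card_pts P fun p hp => (hP p hp).1]
    unfold NP
    rw [Finset.sum_div]
    refine Finset.sum_le_sum fun p hp => ?_
    have h3 := lower4 p (hP p hp).1 (by have := (hP p hp).2.1; omega) b (hb p hp)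
    linarith
  have hl0 : (0 : ℝ) ≤ l := by positivity
  have hfin := mul_le_mul_of_nonneg_left hkl hl0
  have h4 : ((4 + 1 - 1 : ℕ) : ℝ) = 4 := by norm_num
  rw [h4] at h1
  linarith

end DS69
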