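import Pool.Agent.LibDS69.N0

/-!
# [DS69 N1] near pairs of fractions and triples `(p, q, m)`
PLAN. `su_mul`: `sg_congr`, `sg_neg` and `K7a_two` (`LibCS68/K7a.lean`, with `c = p`, `j = x`, `y := -y`): `pq ∣ r - (x q + (-y) p)` gives
`sg (p q) b r = sg p b x * sg q b (-y) = sg p b x * sg q b y`; both are `±1` (`sg_or`), so the same for `su`.
`near_disag`: map a near disagreeing pair `(v, w) = ((p,x),(q,y))` to `(p, q, r)`, `r` from `near_pos`: `|r| R/(pq) < l`, hence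
`|r| R < l p q ≤ l 4 Y Y'  ≤ M R`, `|r| < M`; `r ≠ 0` (otherwise `p ∣ x q`, `p ∤ x`, `p ≠ q` primes); the sign of `r` at `pq` is
`sp v * sp w = -e` (a unit `≠ e` is `-e`). Injective: `r ≡ x q - y p mod pq` determines `x mod p` and `y mod q`, and `x < p`, `y < q`.
Then `(p, q, r) ↦ (p, q, |r|)` is at most two to one and `su (pq) b (-r) = su (pq) b r` (`sg_neg`). (Either
`Finset.card_le_mul_card_image` for the composite with fibres of size at most two, or split by the sign of `r`.)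
-/
set_option autoImplicit false
open Finset CS68

namespace DS69

theorem su_mul (p q : ℕ) (hp : p.Prime) (hq : q.Prime) (hpq : p ≠ q) (b r x y : ℤ)
    (h : ((p * q : ℕ) : ℤ) ∣ r - (x * q - y * p)) : su (p * q) b r = su p b x * su q b y := by
  have h1 : sg (p * q) b r = sg p b x * sg q b (-y) := by
    refine K7a_two p q hp.squarefree hq.squarefree ((Nat.coprime_primes hp hq).2 hpq) b r x (-y) ?_
    have h2 : r - (x * q + -y * p) = r - (x * q - y * p) := by ring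
    rw [h2]
    exact h
  rw [sg_neg] at h1
  unfold su
  rw [h1]
  rcases sg_or p b x with hx | hx <;> rcases sg_or q b y with hy | hy <;> rw [hx, hy] <;> norm_num

theorem su_neg (c : ℕ) (b r : ℤ) : su c b (-r) = su c b r := by
  unfold su
  rw [sg_neg]

private theorem N1_dvd {p q x y x' y' : ℕ} (hp : p.Prime) (hq : q.Prime) (hpq : p ≠ q)
    (hx : x < p) (hx' : x' < p)
    (h : ((p * q : ℕ) : ℤ) ∣ ((x : ℤ) * q - (y : ℤ) * p) - ((x' : ℤ) * q - (y' : ℤ) * p)) : x = x' := by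
  have h1 : (p : ℤ) ∣ ((x : ℤ) * q - (y : ℤ) * p) - ((x' : ℤ) * q - (y' : ℤ) * p) := by
    refine dvd_trans ?_ h
    push_cast
    exact dvd_mul_right _ _
  have h2 : (p : ℤ) ∣ ((x : ℤ) - x') * q := by
    have h3 : ((x : ℤ) - x') * q = (((x : ℤ) * q - (y : ℤ) * p) - ((x' : ℤ) * q - (y' : ℤ) * p)) + (p : ℤ) * (y - y') := by ring
    rw [h3]
    exact dvd_add h1 (dvd_mul_right _ _)
  have h3 : IsCoprime (p : ℤ) (q : ℤ) := Nat.isCoprime_iff_coprime.2 ((Nat.coprime_primes hp hq).2 hpq)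
  have h4 : (p : ℤ) ∣ (x : ℤ) - x' := h3.dvd_of_dvd_mul_right h2
  have h5 : (x : ℤ) - x' = 0 := by
    refine Int.eq_zero_of_abs_lt_dvd h4 ?_
    rw [abs_lt]
    constructor <;> omega
  omega

private theorem N1_dvd' {p q x y x' y' : ℕ} (hp : p.Prime) (hq : q.Prime) (hpq : p ≠ q)
    (hy : y < q) (hy' : y' < q)
    (h : ((p * q : ℕ) : ℤ) ∣ ((x : ℤ) * q - (y : ℤ) * p) - ((x' : ℤ) * q - (y' : ℤ) * p)) : y = y' := by
  have h1 : ((q * p : ℕ) : ℤ) ∣ ((y : ℤ) * p - (x : ℤ) * q) - ((y' : ℤ) * p - (x' : ℤ) * q) := by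
    rw [Nat.mul_comm q p]
    have h2 : ((y : ℤ) * p - (x : ℤ) * q) - ((y' : ℤ) * p - (x' : ℤ) * q) =
        -(((x : ℤ) * q - (y : ℤ) * p) - ((x' : ℤ) * q - (y' : ℤ) * p)) := by ring
    rw [h2]
    exact (dvd_neg).2 h
  exact N1_dvd hq hp (Ne.symm hpq) hy hy' h1

private theorem N1_ne {p q x y : ℕ} (hp : p.Prime) (hq : q.Prime) (hpq : p ≠ q) (hx : x ∈ U p) (r : ℤ)
    (h : ((p * q : ℕ) : ℤ) ∣ r - ((x : ℤ) * q - (y : ℤ) * p)) : r ≠ 0 := by
  rintro rfl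
  unfold U at hx
  rw [Finset.mem_filter, Finset.mem_range] at hx
  obtain ⟨hx1, hx2⟩ := hx
  have h1 : (p : ℤ) ∣ (x : ℤ) * q := by
    have h2 : (p : ℤ) ∣ 0 - ((x : ℤ) * q - (y : ℤ) * p) := by
      refine dvd_trans ?_ h
      push_cast
      exact dvd_mul_right _ _
    have h3 : (x : ℤ) * q = (p : ℤ) * y - (0 - ((x : ℤ) * q - (y : ℤ) * p)) := by ring
    rw [h3]
    exact dvd_sub (dvd_mul_right _ _) h2
  have h3 : IsCoprime (p : ℤ) (q : ℤ) := Nat.isCoprime_iff_coprime.2 ((Nat.coprime_primes hp hq).2 hpq)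
  have h4 : (p : ℤ) ∣ (x : ℤ) := h3.dvd_of_dvd_mul_right h1
  have h5 : p ∣ x := by exact_mod_cast h4
  have h6 : p ∣ Nat.gcd x p := Nat.dvd_gcd h5 dvd_rfl
  rw [hx2] at h6
  exact hp.one_lt.ne' (Nat.dvd_one.1 h6)

theorem near_disag (R l Y Y' M : ℕ) [NeZero R] (b : ℤ) (P Q : Finset ℕ) (hP : InX Y P) (hQ : InX Y' Q)
    (hne : ∀ p ∈ P, ∀ q ∈ Q, p ≠ q) (hR : ∀ p ∈ P, ∀ q ∈ Q, p * q ∣ R) (hl : 4 * Y * Y' * l ≤ M * R) (e : ℤˣ) :
    #((pts P ×ˢ pts Q).filter (fun t => near l (pos R t.1 - pos R t.2) ∧ sp b t.1 * sp b t.2 ≠ e)) ≤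
      2 * cnt b M P Q (-e) := by
  classical
  set S := (pts P ×ˢ pts Q).filter (fun t => near l (pos R t.1 - pos R t.2) ∧ sp b t.1 * sp b t.2 ≠ e) with hS
  have H : ∀ t ∈ S, ∃ r : ℤ, t.1.1 ∈ P ∧ t.1.2 ∈ U t.1.1 ∧ t.2.1 ∈ Q ∧ t.2.2 ∈ U t.2.1 ∧
      r ≠ 0 ∧ r.natAbs ≤ M ∧ su (t.1.1 * t.2.1) b (r.natAbs : ℤ) = -e ∧
      ((t.1.1 * t.2.1 : ℕ) : ℤ) ∣ r - ((t.1.2 : ℤ) * t.2.1 - (t.2.2 : ℤ) * t.1.1) := by
    rintro ⟨⟨p, x⟩, ⟨q, y⟩⟩ ht
    rw [hS, Finset.mem_filter, Finset.mem_product, mem_pts, mem_pts] at ht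
    obtain ⟨⟨⟨hp, hx⟩, ⟨hq, hy⟩⟩, hn, hs⟩ := ht
    simp only at hp hx hq hy hn hs ⊢
    have hpP := hP p hp
    have hqQ := hQ q hq
    have hpq := hne p hp q hq
    obtain ⟨r, hr1, hr2⟩ := near_pos R p q x y l (hR p hp q hq) hn
    have hr0 : r ≠ 0 := N1_ne hpP.1 hqQ.1 hpq hx r hr2
    refine ⟨r, hp, hx, hq, hy, hr0, ?_, ?_, hr2⟩
    · have hRpos : 0 < R := Nat.pos_of_ne_zero (NeZero.ne R)
      have hc : p * q * (R / (p * q)) = R := Nat.mul_div_cancel' (hR p hp q hq)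
      have h1 : r.natAbs * (R / (p * q)) < l := by
        rw [Int.abs_eq_natAbs] at hr1
        exact_mod_cast hr1
      have hpp : 0 < p * q := Nat.mul_pos hpP.1.pos hqQ.1.pos
      have h2 : r.natAbs * R < l * (p * q) := by
        calc r.natAbs * R = (r.natAbs * (R / (p * q))) * (p * q) := by
              conv_lhs => rw [← hc]
              ring
          _ < l * (p * q) := Nat.mul_lt_mul_of_pos_right h1 hpp
      have h3 : l * (p * q) ≤ l * (2 * Y * (2 * Y')) :=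
        Nat.mul_le_mul_left _ (Nat.mul_le_mul hpP.2.2 hqQ.2.2)
      have h4 : r.natAbs * R < M * R := by
        calc r.natAbs * R < l * (p * q) := h2
          _ ≤ l * (2 * Y * (2 * Y')) := h3
          _ = 4 * Y * Y' * l := by ring
          _ ≤ M * R := hl
      exact (Nat.lt_of_mul_lt_mul_right h4).le
    · have h1 : su (p * q) b r = su p b x * su q b y := su_mul p q hpP.1 hqQ.1 hpq b r x y hr2
      have h2 : su (p * q) b r = -e := by
        rw [h1]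
        exact Int.units_ne_iff_eq_neg.1 hs
      rcases Int.natAbs_eq r with h3 | h3
      · rw [← h3, h2]
      · have h4 : ((r.natAbs : ℕ) : ℤ) = -r := by omega
        rw [h4, su_neg, h2]
  choose! r hr using H
  have key : #S ≤ #(((P ×ˢ (Q ×ˢ Icc 1 M)).filter (fun t => su (t.1 * t.2.1) b t.2.2 = -e)) ×ˢ (univ : Finset Bool)) := by
    refine Finset.card_le_card_of_injOn (fun t => ((t.1.1, (t.2.1, (r t).natAbs)), decide (0 < r t))) ?_ ?_
    · intro t ht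
      obtain ⟨h1, h2, h3, h4, h5, h6, h7, h8⟩ := hr t ht
      rw [Finset.mem_coe, Finset.mem_product, Finset.mem_filter, Finset.mem_product, Finset.mem_product, Finset.mem_Icc]
      refine ⟨⟨⟨h1, h3, ?_, h6⟩, h7⟩, Finset.mem_univ _⟩
      exact Nat.one_le_iff_ne_zero.2 (fun h => h5 (Int.natAbs_eq_zero.1 h))
    · intro t ht t' ht' htt
      obtain ⟨h1, h2, h3, h4, h5, h6, h7, h8⟩ := hr t ht
      obtain ⟨h1', h2', h3', h4', h5', h6', h7', h8'⟩ := hr t' ht'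
      simp only [Prod.mk.injEq, decide_eq_decide] at htt
      obtain ⟨⟨e1, e2, e3⟩, e4⟩ := htt
      have e5 : r t = r t' := by omega
      have hp := (hP _ h1).1
      have hq := (hQ _ h3).1
      have hpq := hne _ h1 _ h3
      have hx : t.1.2 < t.1.1 := (Finset.mem_range.1 (Finset.mem_filter.1 h2).1)
      have hy : t.2.2 < t.2.1 := (Finset.mem_range.1 (Finset.mem_filter.1 h4).1)
      have hx' : t'.1.2 < t.1.1 := by
        rw [e1]
        exact (Finset.mem_range.1 (Finset.mem_filter.1 h2').1)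
      have hy' : t'.2.2 < t.2.1 := by
        rw [e2]
        exact (Finset.mem_range.1 (Finset.mem_filter.1 h4').1)
      rw [← e1, ← e2, ← e5] at h8'
      have hd : ((t.1.1 * t.2.1 : ℕ) : ℤ) ∣ ((t.1.2 : ℤ) * t.2.1 - (t.2.2 : ℤ) * t.1.1) -
          ((t'.1.2 : ℤ) * t.2.1 - (t'.2.2 : ℤ) * t.1.1) := by
        have := dvd_sub h8' h8
        have h9 : ((t.1.2 : ℤ) * t.2.1 - (t.2.2 : ℤ) * t.1.1) - ((t'.1.2 : ℤ) * t.2.1 - (t'.2.2 : ℤ) * t.1.1) =
          (r t - ((t'.1.2 : ℤ) * t.2.1 - (t'.2.2 : ℤ) * t.1.1)) - (r t - ((t.1.2 : ℤ) * t.2.1 - (t.2.2 : ℤ) * t.1.1)) := by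
            ring
        rw [h9]
        exact this
      have k1 : t.1.2 = t'.1.2 := N1_dvd hp hq hpq hx hx' hd
      have k2 : t.2.2 = t'.2.2 := N1_dvd' hp hq hpq hy hy' hd
      exact Prod.ext (Prod.ext e1 k1) (Prod.ext e2 k2)
  rw [Finset.card_product, Finset.card_univ, Fintype.card_bool] at key
  unfold cnt
  rw [mul_comm]
  exact key

end DS69
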