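import Pool.Agent.LibDS69.Defs2
import Pool.Agent.LibDS69.N1

/-!
# [DS69 T5] near pairs of fractions and sign changes of one modulus
PLAN. As `near_disag` (`LibDS69/N1.lean`, delivered, in the tar): a near pair `((p,x),(q,y))` gives `r` with `0 < |r| ≤ N`, `r = x q - y p` mod `p q`;
`su_mul` for `r` and for `2^i r` (`2^i x`, `2^i y`): `sp2 (p,x) * sp2 (q,y) = su(pq) r * su(pq) (2^i r)`. If it is `≠ 1` then `m = |r|` satisfies
`su(pq) m ≠ su(pq) (2^i m)`: for each `(p,q)` and each such `m` at most two pairs. For fixed `c = p q`: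
`#{m ≤ N : su c m ≠ su c (2^i m)} ≤ 2 mcnt b M c`: if `e` is the rarer sign then `su c m = e` or `su c (2^i m) = e`, and `2^i m ≤ 16 N ≤ M`.
-/
set_option autoImplicit false
open Finset CS68

namespace DS69

private theorem T5_dvd {p q x y x' y' : ℕ} (hp : p.Prime) (hq : q.Prime) (hpq : p ≠ q)
    (hx : x < p) (hx' : x' < p)
    (h : ((p * q : ℕ) : ℤ) ∣ ((x : ℤ) * q - (y : ℤ) * p) - ((x' : ℤ) * q - (y' : ℤ) * p)) : x = x' := by
  have h1 : (p : ℤ) ∣ ((x : ℤ) * q - (y : ℤ) * p) - ((x' : ℤ) * q - (y' : ℤ) * p) := by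
    refine dvd_trans ?_ h
    push_cast
    exact dvd_mul_right _ _
  have h2 : (p : ℤ) ∣ ((x : ℤ) - x') * q := by
    have h3 : ((x : ℤ) - x') * q = (((x : ℤ) * q - (y : ℤ) * p) - ((x' : ℤ) * q - (y' : ℤ) * p)) + (p : ℤ) * (y - y') := by ring
    rw [h3]
    exact dvd_add h1 (dvd_mul_right _ _)
  have h3 : IsCoprime (p : ℤ) (q : ℤ) := Nat.isCoprime_iff_coprime.2 ((Nat.coprime_primes hp hq).2 hpq)
  have h4 : (p : ℤ) ∣ (x : ℤ) - x' := h3.dvd_of_dvd_mul_right h2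
  have h5 : (x : ℤ) - x' = 0 := by
    refine Int.eq_zero_of_abs_lt_dvd h4 ?_
    rw [abs_lt]
    constructor <;> omega
  omega

private theorem T5_dvd' {p q x y x' y' : ℕ} (hp : p.Prime) (hq : q.Prime) (hpq : p ≠ q)
    (hy : y < q) (hy' : y' < q)
    (h : ((p * q : ℕ) : ℤ) ∣ ((x : ℤ) * q - (y : ℤ) * p) - ((x' : ℤ) * q - (y' : ℤ) * p)) : y = y' := by
  have h1 : ((q * p : ℕ) : ℤ) ∣ ((y : ℤ) * p - (x : ℤ) * q) - ((y' : ℤ) * p - (x' : ℤ) * q) := by
    rw [Nat.mul_comm q p]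
    have h2 : ((y : ℤ) * p - (x : ℤ) * q) - ((y' : ℤ) * p - (x' : ℤ) * q) =
        -(((x : ℤ) * q - (y : ℤ) * p) - ((x' : ℤ) * q - (y' : ℤ) * p)) := by ring
    rw [h2]
    exact (dvd_neg).2 h
  exact T5_dvd hq hp (Ne.symm hpq) hy hy' h1

private theorem T5_ne {p q x y : ℕ} (hp : p.Prime) (hq : q.Prime) (hpq : p ≠ q) (hx : x ∈ U p) (r : ℤ)
    (h : ((p * q : ℕ) : ℤ) ∣ r - ((x : ℤ) * q - (y : ℤ) * p)) : r ≠ 0 := by
  rintro rfl
  unfold U at hx
  rw [Finset.mem_filter, Finset.mem_range] at hx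
  obtain ⟨hx1, hx2⟩ := hx
  have h1 : (p : ℤ) ∣ (x : ℤ) * q := by
    have h2 : (p : ℤ) ∣ 0 - ((x : ℤ) * q - (y : ℤ) * p) := by
      refine dvd_trans ?_ h
      push_cast
      exact dvd_mul_right _ _
    have h3 : (x : ℤ) * q = (p : ℤ) * y - (0 - ((x : ℤ) * q - (y : ℤ) * p)) := by ring
    rw [h3]
    exact dvd_sub (dvd_mul_right _ _) h2
  have h3 : IsCoprime (p : ℤ) (q : ℤ) := Nat.isCoprime_iff_coprime.2 ((Nat.coprime_primes hp hq).2 hpq)
  have h4 : (p : ℤ) ∣ (x : ℤ) := h3.dvd_of_dvd_mul_right h1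
  have h5 : p ∣ x := by exact_mod_cast h4
  have h6 : p ∣ Nat.gcd x p := Nat.dvd_gcd h5 dvd_rfl
  rw [hx2] at h6
  exact hp.one_lt.ne' (Nat.dvd_one.1 h6)

private theorem T5_side (c M N : ℕ) (b : ℤ) (i : ℕ) (hN : 16 * N ≤ M) (hi : i ∈ Icc 1 4) (e : ℤˣ) :
    #((Icc 1 N).filter (fun m : ℕ => su c b m ≠ su c b (2 ^ i * m))) ≤
      2 * #((Icc 1 M).filter (fun m : ℕ => su c b m = e)) := by
  classical
  have hi2 : 2 ^ i ≤ 16 := by
    have h := (Finset.mem_Icc.1 hi).2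
    calc 2 ^ i ≤ 2 ^ 4 := Nat.pow_le_pow_right (by norm_num) h
      _ = 16 := by norm_num
  have hi1 : 1 ≤ 2 ^ i := Nat.one_le_two_pow
  have hsub : (Icc 1 N).filter (fun m : ℕ => su c b m ≠ su c b (2 ^ i * m)) ⊆
      (Icc 1 N).filter (fun m : ℕ => su c b m = e) ∪
        (Icc 1 N).filter (fun m : ℕ => su c b (2 ^ i * m) = e) := by
    intro m hm
    rw [Finset.mem_filter] at hm
    rw [Finset.mem_union, Finset.mem_filter, Finset.mem_filter]
    by_cases h : su c b m = e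
    · exact Or.inl ⟨hm.1, h⟩
    · refine Or.inr ⟨hm.1, ?_⟩
      have h1 : su c b m = -e := Int.units_ne_iff_eq_neg.1 h
      have h2 : su c b (2 ^ i * m) ≠ -e := by
        rw [← h1]
        exact fun h3 => hm.2 h3.symm
      have h3 := Int.units_ne_iff_eq_neg.1 h2
      rw [h3, neg_neg]
  have h1 : #((Icc 1 N).filter (fun m : ℕ => su c b m = e)) ≤
      #((Icc 1 M).filter (fun m : ℕ => su c b m = e)) := by
    refine Finset.card_le_card (Finset.filter_subset_filter _ ?_)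
    exact Finset.Icc_subset_Icc_right (by omega)
  have h2 : #((Icc 1 N).filter (fun m : ℕ => su c b (2 ^ i * m) = e)) ≤
      #((Icc 1 M).filter (fun m : ℕ => su c b m = e)) := by
    refine Finset.card_le_card_of_injOn (fun m => 2 ^ i * m) ?_ ?_
    · intro m hm
      rw [Finset.mem_coe, Finset.mem_filter, Finset.mem_Icc] at hm
      rw [Finset.mem_coe, Finset.mem_filter, Finset.mem_Icc]
      refine ⟨⟨?_, ?_⟩, ?_⟩
      · exact Nat.one_le_iff_ne_zero.2 (Nat.mul_ne_zero (by omega) (by omega))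
      · calc 2 ^ i * m ≤ 16 * N := Nat.mul_le_mul hi2 hm.1.2
          _ ≤ M := hN
      · have h3 : (((2 ^ i * m : ℕ)) : ℤ) = 2 ^ i * (m : ℤ) := by push_cast; ring
        simp only
        rw [h3]
        exact hm.2
    · intro m _ m' _ h
      exact Nat.eq_of_mul_eq_mul_left (by omega) h
  calc #((Icc 1 N).filter (fun m : ℕ => su c b m ≠ su c b (2 ^ i * m)))
      ≤ #((Icc 1 N).filter (fun m : ℕ => su c b m = e) ∪
        (Icc 1 N).filter (fun m : ℕ => su c b (2 ^ i * m) = e)) := Finset.card_le_card hsub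
    _ ≤ #((Icc 1 N).filter (fun m : ℕ => su c b m = e)) +
        #((Icc 1 N).filter (fun m : ℕ => su c b (2 ^ i * m) = e)) := Finset.card_union_le _ _
    _ ≤ 2 * #((Icc 1 M).filter (fun m : ℕ => su c b m = e)) := by omega

private theorem T5_mcnt (c M N : ℕ) (b : ℤ) (i : ℕ) (hN : 16 * N ≤ M) (hi : i ∈ Icc 1 4) :
    #((Icc 1 N).filter (fun m : ℕ => su c b m ≠ su c b (2 ^ i * m))) ≤ 2 * mcnt b M c := by
  have h1 := T5_side c M N b i hN hi 1
  have h2 := T5_side c M N b i hN hi (-1)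
  unfold mcnt
  omega

theorem near_disag2 (R l Y Y' M N : ℕ) [NeZero R] (b : ℤ) (P Q : Finset ℕ) (hP : InX Y P) (hQ : InX Y' Q)
    (hne : ∀ p ∈ P, ∀ q ∈ Q, p ≠ q) (hR : ∀ p ∈ P, ∀ q ∈ Q, p * q ∣ R) (hl : 4 * Y * Y' * l ≤ N * R)
    (hN : 16 * N ≤ M) (i : ℕ) (hi : i ∈ Icc 1 4) :
    #((pts P ×ˢ pts Q).filter (fun t => near l (pos R t.1 - pos R t.2) ∧ sp2 b i t.1 * sp2 b i t.2 ≠ 1)) ≤
      4 * ∑ p ∈ P, ∑ q ∈ Q, mcnt b M (p * q) := by
  classical
  set S := (pts P ×ˢ pts Q).filter (fun t => near l (pos R t.1 - pos R t.2) ∧ sp2 b i t.1 * sp2 b i t.2 ≠ 1) with hS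
  have H : ∀ t ∈ S, ∃ r : ℤ, t.1.1 ∈ P ∧ t.1.2 ∈ U t.1.1 ∧ t.2.1 ∈ Q ∧ t.2.2 ∈ U t.2.1 ∧
      r ≠ 0 ∧ r.natAbs ≤ N ∧
      su (t.1.1 * t.2.1) b (r.natAbs : ℤ) ≠ su (t.1.1 * t.2.1) b (2 ^ i * (r.natAbs : ℤ)) ∧
      ((t.1.1 * t.2.1 : ℕ) : ℤ) ∣ r - ((t.1.2 : ℤ) * t.2.1 - (t.2.2 : ℤ) * t.1.1) := by
    rintro ⟨⟨p, x⟩, ⟨q, y⟩⟩ ht
    rw [hS, Finset.mem_filter, Finset.mem_product, mem_pts, mem_pts] at ht
    obtain ⟨⟨⟨hp, hx⟩, ⟨hq, hy⟩⟩, hn, hs⟩ := ht
    simp only at hp hx hq hy hn hs ⊢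
    have hpP := hP p hp
    have hqQ := hQ q hq
    have hpq := hne p hp q hq
    obtain ⟨r, hr1, hr2⟩ := near_pos R p q x y l (hR p hp q hq) hn
    have hr0 : r ≠ 0 := T5_ne hpP.1 hqQ.1 hpq hx r hr2
    refine ⟨r, hp, hx, hq, hy, hr0, ?_, ?_, hr2⟩
    · have hRpos : 0 < R := Nat.pos_of_ne_zero (NeZero.ne R)
      have hc : p * q * (R / (p * q)) = R := Nat.mul_div_cancel' (hR p hp q hq)
      have h1 : r.natAbs * (R / (p * q)) < l := by
        rw [Int.abs_eq_natAbs] at hr1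
        exact_mod_cast hr1
      have hpp : 0 < p * q := Nat.mul_pos hpP.1.pos hqQ.1.pos
      have h2 : r.natAbs * R < l * (p * q) := by
        calc r.natAbs * R = (r.natAbs * (R / (p * q))) * (p * q) := by
              conv_lhs => rw [← hc]
              ring
          _ < l * (p * q) := Nat.mul_lt_mul_of_pos_right h1 hpp
      have h3 : l * (p * q) ≤ l * (2 * Y * (2 * Y')) :=
        Nat.mul_le_mul_left _ (Nat.mul_le_mul hpP.2.2 hqQ.2.2)
      have h4 : r.natAbs * R < N * R := by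
        calc r.natAbs * R < l * (p * q) := h2
          _ ≤ l * (2 * Y * (2 * Y')) := h3
          _ = 4 * Y * Y' * l := by ring
          _ ≤ N * R := hl
      exact (Nat.lt_of_mul_lt_mul_right h4).le
    · have h1 : su (p * q) b r = su p b x * su q b y := su_mul p q hpP.1 hqQ.1 hpq b r x y hr2
      have h2 : su (p * q) b (2 ^ i * r) = su p b (2 ^ i * x) * su q b (2 ^ i * y) := by
        refine su_mul p q hpP.1 hqQ.1 hpq b (2 ^ i * r) (2 ^ i * x) (2 ^ i * y) ?_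
        have h3 : (2 : ℤ) ^ i * r - (2 ^ i * (x : ℤ) * q - 2 ^ i * (y : ℤ) * p) =
            2 ^ i * (r - ((x : ℤ) * q - (y : ℤ) * p)) := by ring
        rw [h3]
        exact Dvd.dvd.mul_left hr2 _
      have h3 : su (p * q) b r * su (p * q) b (2 ^ i * r) ≠ 1 := by
        intro h4
        apply hs
        unfold sp2
        simp only
        rw [← h4, h1, h2]
        exact mul_mul_mul_comm _ _ _ _
      have h4 : su (p * q) b r ≠ su (p * q) b (2 ^ i * r) := by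
        intro h5
        apply h3
        rw [← h5]
        exact Int.units_mul_self _
      rcases Int.natAbs_eq r with h5 | h5
      · rw [← h5]
        exact h4
      · have h6 : ((r.natAbs : ℕ) : ℤ) = -r := by omega
        rw [h6, mul_neg, su_neg, su_neg]
        exact h4
  choose! r hr using H
  have key : #S ≤ #(((P ×ˢ (Q ×ˢ Icc 1 N)).filter (fun t : ℕ × ℕ × ℕ =>
      su (t.1 * t.2.1) b t.2.2 ≠ su (t.1 * t.2.1) b (2 ^ i * t.2.2))) ×ˢ (univ : Finset Bool)) := by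
    refine Finset.card_le_card_of_injOn (fun t => ((t.1.1, (t.2.1, (r t).natAbs)), decide (0 < r t))) ?_ ?_
    · intro t ht
      obtain ⟨h1, h2, h3, h4, h5, h6, h7, h8⟩ := hr t ht
      rw [Finset.mem_coe, Finset.mem_product, Finset.mem_filter, Finset.mem_product, Finset.mem_product, Finset.mem_Icc]
      refine ⟨⟨⟨h1, h3, ?_, h6⟩, h7⟩, Finset.mem_univ _⟩
      exact Nat.one_le_iff_ne_zero.2 (fun h => h5 (Int.natAbs_eq_zero.1 h))
    · intro t ht t' ht' htt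
      obtain ⟨h1, h2, h3, h4, h5, h6, h7, h8⟩ := hr t ht
      obtain ⟨h1', h2', h3', h4', h5', h6', h7', h8'⟩ := hr t' ht'
      simp only [Prod.mk.injEq, decide_eq_decide] at htt
      obtain ⟨⟨e1, e2, e3⟩, e4⟩ := htt
      have e5 : r t = r t' := by omega
      have hp := (hP _ h1).1
      have hq := (hQ _ h3).1
      have hpq := hne _ h1 _ h3
      have hx : t.1.2 < t.1.1 := (Finset.mem_range.1 (Finset.mem_filter.1 h2).1)
      have hy : t.2.2 < t.2.1 := (Finset.mem_range.1 (Finset.mem_filter.1 h4).1)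
      have hx' : t'.1.2 < t.1.1 := by
        rw [e1]
        exact (Finset.mem_range.1 (Finset.mem_filter.1 h2').1)
      have hy' : t'.2.2 < t.2.1 := by
        rw [e2]
        exact (Finset.mem_range.1 (Finset.mem_filter.1 h4').1)
      rw [← e1, ← e2, ← e5] at h8'
      have hd : ((t.1.1 * t.2.1 : ℕ) : ℤ) ∣ ((t.1.2 : ℤ) * t.2.1 - (t.2.2 : ℤ) * t.1.1) -
          ((t'.1.2 : ℤ) * t.2.1 - (t'.2.2 : ℤ) * t.1.1) := by
        have := dvd_sub h8' h8
        have h9 : ((t.1.2 : ℤ) * t.2.1 - (t.2.2 : ℤ) * t.1.1) - ((t'.1.2 : ℤ) * t.2.1 - (t'.2.2 : ℤ) * t.1.1) =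
          (r t - ((t'.1.2 : ℤ) * t.2.1 - (t'.2.2 : ℤ) * t.1.1)) - (r t - ((t.1.2 : ℤ) * t.2.1 - (t.2.2 : ℤ) * t.1.1)) := by
            ring
        rw [h9]
        exact this
      have k1 : t.1.2 = t'.1.2 := T5_dvd hp hq hpq hx hx' hd
      have k2 : t.2.2 = t'.2.2 := T5_dvd' hp hq hpq hy hy' hd
      exact Prod.ext (Prod.ext e1 k1) (Prod.ext e2 k2)
  rw [Finset.card_product, Finset.card_univ, Fintype.card_bool] at key
  have hcount : #((P ×ˢ (Q ×ˢ Icc 1 N)).filter (fun t : ℕ × ℕ × ℕ =>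
      su (t.1 * t.2.1) b t.2.2 ≠ su (t.1 * t.2.1) b (2 ^ i * t.2.2))) =
      ∑ p ∈ P, ∑ q ∈ Q, #((Icc 1 N).filter (fun m : ℕ => su (p * q) b m ≠ su (p * q) b (2 ^ i * m))) := by
    rw [Finset.card_filter, Finset.sum_product]
    refine Finset.sum_congr rfl fun p _ => ?_
    rw [Finset.sum_product]
    refine Finset.sum_congr rfl fun q _ => ?_
    rw [Finset.card_filter]
  rw [hcount] at key
  have hle : ∑ p ∈ P, ∑ q ∈ Q, #((Icc 1 N).filter (fun m : ℕ => su (p * q) b m ≠ su (p * q) b (2 ^ i * m))) ≤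
      2 * ∑ p ∈ P, ∑ q ∈ Q, mcnt b M (p * q) := by
    rw [Finset.mul_sum]
    refine Finset.sum_le_sum fun p _ => ?_
    rw [Finset.mul_sum]
    exact Finset.sum_le_sum fun q _ => T5_mcnt (p * q) M N b i hN hi
  omega

end DS69
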