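import Pool.Agent.LibDS69.D5
import Pool.Agent.LibDS69.N2
import Pool.Agent.LibDS69.T4
import Pool.Agent.LibDS69.T5
import Pool.Agent.LibCS68.C1

/-!
# [DS69 FIN2] assembly, one modulus
-/
set_option autoImplicit false
open Finset CS68

namespace DS69

/-- the mean over `p ∈ P`, `q ∈ Q` of the share of the rarer sign -/
noncomputable def dl (b : ℤ) (M : ℕ) (P Q : Finset ℕ) : ℝ :=
  ((∑ p ∈ P, ∑ q ∈ Q, mcnt b M (p * q) : ℕ) : ℝ) / ((#P : ℝ) * #Q * M)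

theorem exp_id (K n j : ℕ) (hj : j ≤ n) : K ^ j * K ^ j * K * (K ^ 2) ^ (n - j) = K ^ (2 * n + 1) := by
  rw [← pow_mul, ← pow_add, ← pow_succ, ← pow_add]
  congr 1
  omega

/-- one pair of scales -/
theorem scale_pair2 (b : ℤ) (K M N Y n j R0 : ℕ) (D : ℝ) (P Q : Finset ℕ) (hK : 2 ≤ K) (hN : 0 < N) (hNY : N ≤ Y)
    (hN1 : 16 * N ≤ M) (hN2 : M ≤ 32 * N)
    (hj : j ≤ n) (hR0 : 0 < R0) (hD : 1 ≤ D)
    (hP : InX (Y * K ^ (j + 1)) P) (hQ : InX (Y * K ^ j) Q)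
    (hPD : ((Y * K ^ (j + 1) : ℕ) : ℝ) ≤ D * #P) (hQD : ((Y * K ^ j : ℕ) : ℝ) ≤ D * #Q)
    (hP1 : ∀ p ∈ P, p ∣ R0) (hQ1 : ∀ p ∈ Q, p ∣ R0) (i : ℕ) (hi : i ∈ Icc 1 4)
    [NeZero (4 * Y ^ 2 * K ^ (2 * n + 1) * R0)] :
    Scale (pts P) (pts Q) (pos (4 * Y ^ 2 * K ^ (2 * n + 1) * R0)) (sp2 b i) ((K ^ 2) ^ (n - j) * (N * R0)) 1
      (512 * dl b M P Q) (7 * K * D / N) := by
  set R := 4 * Y ^ 2 * K ^ (2 * n + 1) * R0 with hR
  set l := (K ^ 2) ^ (n - j) * (N * R0) with hl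
  have hY : 0 < Y := lt_of_lt_of_le hN hNY
  have hK0 : 0 < K := by omega
  have hl0 : 0 < l := by positivity
  have hRpos : 0 < R := by positivity
  have hlR : 4 * (Y * K ^ (j + 1)) * (Y * K ^ j) * l = N * R := by
    rw [hl, hR, ← exp_id K n j hj, pow_succ]
    ring
  have hYj : Y * K ^ j ≤ Y * K ^ (j + 1) := Nat.mul_le_mul_left _ (Nat.pow_le_pow_right hK0 (by omega))
  have hYle : Y ≤ Y * K ^ j := Nat.le_mul_of_pos_right _ (by positivity)
  have h2a : 2 * (Y * K ^ (j + 1)) * l ≤ R := by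
    have h1 : N * (2 * (Y * K ^ (j + 1)) * l) ≤ N * R := by
      rw [← hlR]
      calc N * (2 * (Y * K ^ (j + 1)) * l) ≤ (2 * (Y * K ^ j)) * (2 * (Y * K ^ (j + 1)) * l) := by
            apply Nat.mul_le_mul_right
            omega
        _ = 4 * (Y * K ^ (j + 1)) * (Y * K ^ j) * l := by ring
    exact Nat.le_of_mul_le_mul_left h1 hN
  have h2b : 2 * (Y * K ^ j) * l ≤ R := le_trans (by gcongr <;> omega) h2a
  have hlR' : l ≤ R := by
    have : 1 * l ≤ 2 * (Y * K ^ j) * l := Nat.mul_le_mul_right _ (by omega)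
    omega
  have hne : ∀ p ∈ P, ∀ q ∈ Q, p ≠ q := by
    intro p hp q hq h
    have h1 := (hP p hp).2.1
    have h2 := (hQ q hq).2.2
    have h3 : 2 * (Y * K ^ j) ≤ Y * K ^ (j + 1) := by
      calc 2 * (Y * K ^ j) ≤ K * (Y * K ^ j) := Nat.mul_le_mul_right _ hK
        _ = Y * K ^ (j + 1) := by ring
    omega
  have hdvd : R0 ∣ R := Dvd.intro_left _ rfl
  have hmul : ∀ A B : Finset ℕ, (∀ p ∈ A, p.Prime ∧ p ∣ R0) → (∀ p ∈ B, p.Prime ∧ p ∣ R0) →
      ∀ p ∈ A, ∀ q ∈ B, p ≠ q → p * q ∣ R := by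
    intro A B hA hB p hp q hq hpq
    exact (Nat.Coprime.mul_dvd_of_dvd_of_dvd ((Nat.coprime_primes (hA p hp).1 (hB q hq).1).2 hpq)
      (hA p hp).2 (hB q hq).2).trans hdvd
  have hPc : ∀ p ∈ P, p.Prime ∧ p ∣ R0 := fun p hp => ⟨(hP p hp).1, hP1 p hp⟩
  have hQc : ∀ p ∈ Q, p.Prime ∧ p ∣ R0 := fun p hp => ⟨(hQ p hp).1, hQ1 p hp⟩
  have hD0 : 0 < D := by linarith
  have hPne : P.Nonempty := by
    rw [← card_pos]
    by_contra h
    have h0 : #P = 0 := by omega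
    rw [h0] at hPD
    have : (0 : ℝ) < ((Y * K ^ (j + 1) : ℕ) : ℝ) := by positivity
    simp at hPD
    exact absurd hPD (by push_cast at this; linarith)
  have hQne : Q.Nonempty := by
    rw [← card_pos]
    by_contra h
    have h0 : #Q = 0 := by omega
    rw [h0] at hQD
    have : (0 : ℝ) < ((Y * K ^ j : ℕ) : ℝ) := by positivity
    simp at hQD
    exact absurd hQD (by push_cast at this; linarith)
  have hVP := card_pts_ge _ P hP
  have hVQ := card_pts_ge _ Q hQ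
  have hP0 : (0 : ℝ) < #P := by exact_mod_cast card_pos.2 hPne
  have hQ0 : (0 : ℝ) < #Q := by exact_mod_cast card_pos.2 hQne
  have hRr : (0 : ℝ) < R := by exact_mod_cast hRpos
  have hlr : (0 : ℝ) < l := by exact_mod_cast hl0
  have hNr : (0 : ℝ) < N := by exact_mod_cast hN
  have hYjr : (0 : ℝ) < ((Y * K ^ j : ℕ) : ℝ) := by positivity
  have hYj1r : (0 : ℝ) < ((Y * K ^ (j + 1) : ℕ) : ℝ) := by positivity
  have hVP0 : (0 : ℝ) < #(pts P) := lt_of_lt_of_le (mul_pos hYj1r hP0) hVP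
  have hVQ0 : (0 : ℝ) < #(pts Q) := lt_of_lt_of_le (mul_pos hYjr hQ0) hVQ
  have hKr : (2 : ℝ) ≤ K := by exact_mod_cast hK
  have hlRr : 4 * ((Y * K ^ (j + 1) : ℕ) : ℝ) * ((Y * K ^ j : ℕ) : ℝ) * l = N * R := by
    exact_mod_cast hlR
  have hYYr : ((Y * K ^ (j + 1) : ℕ) : ℝ) = K * ((Y * K ^ j : ℕ) : ℝ) := by
    push_cast; ring
  have hYYle : ((Y * K ^ j : ℕ) : ℝ) ≤ ((Y * K ^ (j + 1) : ℕ) : ℝ) := by exact_mod_cast hYj
  -- the relative variance
  have hrho : ∀ (Z : ℕ) (A : Finset ℕ), Y * K ^ j ≤ Z → ((Z : ℕ) : ℝ) ≤ D * #A →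
      ((Z : ℕ) : ℝ) * #A ≤ #(pts A) → (0 : ℝ) < #(pts A) →
      (R : ℝ) / (#(pts A) * l) + 3 / Z ≤ 7 * K * D / N := by
    intro Z A hZ hA1 hA2 hA0
    have hZr : ((Y * K ^ j : ℕ) : ℝ) ≤ Z := by exact_mod_cast hZ
    have hZ0 : (0 : ℝ) < Z := lt_of_lt_of_le hYjr hZr
    have e1 : (R : ℝ) / (#(pts A) * l) ≤ 4 * K * D / N := by
      rw [div_le_div_iff₀ (by positivity) hNr]
      have e2 : ((Y * K ^ j : ℕ) : ℝ) * ((Y * K ^ j : ℕ) : ℝ) ≤ D * #(pts A) := by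
        calc ((Y * K ^ j : ℕ) : ℝ) * ((Y * K ^ j : ℕ) : ℝ) ≤ (Z : ℝ) * Z := by gcongr
          _ ≤ (Z : ℝ) * (D * #A) := by gcongr
          _ = D * ((Z : ℝ) * #A) := by ring
          _ ≤ D * #(pts A) := by gcongr
      calc (R : ℝ) * N = N * R := by ring
        _ = 4 * K * (((Y * K ^ j : ℕ) : ℝ) * ((Y * K ^ j : ℕ) : ℝ)) * l := by
            rw [← hlRr, hYYr]; ring
        _ ≤ 4 * K * (D * #(pts A)) * l := by gcongr
        _ = 4 * K * D * (#(pts A) * l) := by ring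
    have e3 : (3 : ℝ) / Z ≤ 3 * K * D / N := by
      rw [div_le_div_iff₀ hZ0 hNr]
      have h1 : (N : ℝ) ≤ Z := by
        have : N ≤ Z := hNY.trans (hYle.trans hZ)
        exact_mod_cast this
      have h2 : (1 : ℝ) ≤ K * D := by nlinarith
      have h3 : (0 : ℝ) ≤ Z := hZ0.le
      nlinarith
    calc (R : ℝ) / (#(pts A) * l) + 3 / Z ≤ 4 * K * D / N + 3 * K * D / N := add_le_add e1 e3
      _ = 7 * K * D / N := by ring
  refine ⟨hl0, ?_, ?_, ?_, ?_, ?_, hlR'⟩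
  · rw [← card_pos]; exact_mod_cast hVP0
  · rw [← card_pos]; exact_mod_cast hVQ0
  · refine (variance R l _ P (by positivity) hP hPne (fun p hp => (hPc p hp).2.trans hdvd)
      (fun p hp q hq hpq => hmul P P hPc hPc p hp q hq hpq) hl0 h2a).trans ?_
    have := hrho _ P hYj hPD hVP hVP0
    gcongr
  · refine (variance R l _ Q (by positivity) hQ hQne (fun p hp => (hQc p hp).2.trans hdvd)
      (fun p hp q hq hpq => hmul Q Q hQc hQc p hp q hq hpq) hl0 h2b).trans ?_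
    have := hrho _ Q le_rfl hQD hVQ hVQ0
    gcongr
  · have h1 := near_disag2 R l _ _ M N b P Q hP hQ hne
      (fun p hp q hq => hmul P Q hPc hQc p hp q hq (hne p hp q hq)) hlR.le hN1 i hi
    have hMr : (0 : ℝ) < M := lt_of_lt_of_le hNr (by exact_mod_cast (by omega : N ≤ M))
    have hMN : (M : ℝ) ≤ 32 * N := by exact_mod_cast hN2
    set S : ℕ := ∑ p ∈ P, ∑ q ∈ Q, mcnt b M (p * q) with hS
    have h2 : (#((pts P ×ˢ pts Q).filter (fun t => near l (pos R t.1 - pos R t.2) ∧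
        sp2 b i t.1 * sp2 b i t.2 ≠ 1)) : ℝ) ≤ 4 * (S : ℝ) := by exact_mod_cast h1
    refine h2.trans ?_
    unfold dl mean
    rw [← hS]
    have h3 : (0 : ℝ) ≤ (S : ℝ) := Nat.cast_nonneg _
    have h4 : 512 * ((S : ℝ) / ((#P : ℝ) * #Q * M)) * ((#(pts P) : ℝ) * l / R * #(pts Q)) =
        4 * S * ((128 * (#(pts P) : ℝ) * #(pts Q) * l) / (#P * #Q * M * R)) := by
      field_simp
      ring
    rw [h4]
    have h5 : (1 : ℝ) ≤ (128 * (#(pts P) : ℝ) * #(pts Q) * l) / (#P * #Q * M * R) := by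
      rw [le_div_iff₀ (by positivity), one_mul]
      calc (#P : ℝ) * #Q * M * R ≤ #P * #Q * (32 * N) * R := by
            apply mul_le_mul_of_nonneg_right _ hRr.le
            exact mul_le_mul_of_nonneg_left hMN (by positivity)
        _ = 32 * (#P * #Q * (N * R)) := by ring
        _ = 128 * ((((Y * K ^ (j + 1) : ℕ) : ℝ) * #P) * (((Y * K ^ j : ℕ) : ℝ) * #Q)) * l := by
            rw [← hlRr]; ring
        _ ≤ 128 * (#(pts P) : ℝ) * #(pts Q) * l := by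
            apply mul_le_mul_of_nonneg_right _ hlr.le
            rw [mul_assoc 128]
            apply mul_le_mul_of_nonneg_left _ (by norm_num)
            exact mul_le_mul hVP hVQ (by positivity) hVP0.le
    exact le_mul_of_one_le_right (by positivity) h5

theorem main2 (b : ℤ) (K J M Y : ℕ) (D : ℝ) (P : ℕ → Finset ℕ) (hK : 2 ≤ K) (hJ : 1 ≤ J) (hMY : M ≤ Y)
    (h1 : 10 ^ 11 * D * K * J ≤ M) (h2 : 10 ^ 11 * Y ≤ M * K ^ (J - 1)) (hM : 0 < M)
    (hP : ∀ j ≤ J, InX (Y * K ^ j) (P j) ∧ ((Y * K ^ j : ℕ) : ℝ) ≤ D * #(P j) ∧ ∀ p ∈ P j, ¬ (p : ℤ) ∣ b) :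
    1 / 10 ^ 11 ≤ ∑ j ∈ range J, dl b M (P (j + 1)) (P j) := by
  obtain ⟨n, rfl⟩ : ∃ n, J = n + 1 := ⟨J - 1, by omega⟩
  have hY : 0 < Y := lt_of_lt_of_le hM hMY
  have hK0 : 0 < K := by omega
  have hD : 1 ≤ D := by
    obtain ⟨a1, a2, -⟩ := hP 0 (by omega)
    have a3 := card_le _ _ a1
    rw [pow_zero, mul_one] at a2 a3
    have a4 : (#(P 0) : ℝ) ≤ Y := by exact_mod_cast a3
    have a5 : (0 : ℝ) < Y := by exact_mod_cast hY
    by_contra h
    push Not at h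
    have a6 : (0 : ℝ) ≤ #(P 0) := Nat.cast_nonneg _
    rcases le_or_gt D 0 with h0 | h0
    · nlinarith
    · nlinarith
  have hMbig : 10 ^ 11 ≤ M := by
    have a1 : (10 ^ 11 : ℝ) ≤ M := by
      refine le_trans ?_ h1
      have b1 : (2 : ℝ) ≤ K := by exact_mod_cast hK
      have b2 : (1 : ℝ) ≤ ((n + 1 : ℕ) : ℝ) := by exact_mod_cast hJ
      have b3 : (2 : ℝ) ≤ D * K := by nlinarith
      have b4 : (2 : ℝ) ≤ D * K * ((n + 1 : ℕ) : ℝ) := by nlinarith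
      nlinarith
    exact_mod_cast a1
  obtain ⟨N, hNdef⟩ : ∃ N, N = M / 16 := ⟨_, rfl⟩
  have hN : 0 < N := by omega
  have hN1 : 16 * N ≤ M := by omega
  have hN2 : M ≤ 32 * N := by omega
  have hNY : N ≤ Y := by omega
  set S : Finset ℕ := (range (n + 2)).biUnion P with hS
  set R0 : ℕ := ∏ p ∈ S, p with hR0
  have hSp : ∀ p ∈ S, p.Prime := by
    intro p hp
    rw [hS, mem_biUnion] at hp
    obtain ⟨j, hj, hpj⟩ := hp
    rw [mem_range] at hj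
    exact ((hP j (by omega)).1 p hpj).1
  have hR0pos : 0 < R0 := prod_pos fun p hp => (hSp p hp).pos
  have hdv : ∀ j ≤ n + 1, ∀ p ∈ P j, p ∣ R0 := by
    intro j hj p hp
    exact dvd_prod_of_mem (fun p : ℕ => p) (mem_biUnion.2 ⟨j, mem_range.2 (by omega), hp⟩)
  have hne : NeZero (4 * Y ^ 2 * K ^ (2 * n + 1) * R0) := ⟨by positivity⟩
  set R := 4 * Y ^ 2 * K ^ (2 * n + 1) * R0 with hR
  have hscale : ∀ i ∈ Icc 1 4, ∀ j ≤ n, Scale (pts (P (j + 1))) (pts (P j)) (pos R) (sp2 b i)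
      ((K ^ 2) ^ (n - j) * (N * R0)) 1 (512 * dl b M (P (j + 1)) (P j)) (7 * K * D / N) := by
    intro i hi j hj
    obtain ⟨a1, a2, -⟩ := hP (j + 1) (by omega)
    obtain ⟨b1, b2, -⟩ := hP j (by omega)
    exact scale_pair2 b K M N Y n j R0 D (P (j + 1)) (P j) hK hN hNY hN1 hN2 hj hR0pos hD a1 b1 a2 b2
      (hdv _ (by omega)) (hdv _ (by omega)) i hi
  set τ : ℝ := ∑ j ∈ range (n + 1), (512 * dl b M (P (j + 1)) (P j) + 7 * K * D / N) with hτ
  set L := (K ^ 2) ^ n * (N * R0) with hL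
  have hLpos : 0 < L := by positivity
  have hLc : ((((K ^ 2 : ℕ) : ℝ) ^ n * ((N * R0 : ℕ) : ℝ))) = (L : ℝ) := by
    rw [hL]; push_cast; ring
  have hdes : ∀ i, ∃ g : ZMod R → ℤˣ, i ∈ Icc 1 4 →
      ∑ y : ZMod R, (mi (pts (P (n + 1))) (pos R) (sp2 b i) L y (g y) : ℝ) ≤
        12 * √τ * (#(pts (P (n + 1))) * L) := by
    intro i
    by_cases hi : i ∈ Icc 1 4
    · obtain ⟨g, hg⟩ := descent n (K ^ 2) (N * R0) (by positivity) (fun j => pts (P j)) (pos R) (sp2 b i)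
        (fun _ => 1) (fun j => 512 * dl b M (P (j + 1)) (P j)) (fun _ => 7 * K * D / N) (hscale i hi)
      refine ⟨g, fun _ => ?_⟩
      rw [hLc] at hg
      exact hg
    · exact ⟨fun _ => 1, fun h => absurd h hi⟩
  choose g hg using hdes
  have hNK : 21233664 * Y ≤ N * K ^ n := by
    rw [Nat.add_sub_cancel] at h2
    have a1 : M * K ^ n ≤ 32 * N * K ^ n := Nat.mul_le_mul_right _ hN2
    have a2 : 10 ^ 11 * Y ≤ 32 * (N * K ^ n) := by
      calc 10 ^ 11 * Y ≤ M * K ^ n := h2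
        _ ≤ 32 * N * K ^ n := a1
        _ = 32 * (N * K ^ n) := by ring
    omega
  have hbig : 5308416 * R ≤ (Y * K ^ (n + 1)) * L := by
    calc 5308416 * R = (21233664 * Y) * (Y * K ^ (2 * n + 1) * R0) := by rw [hR]; ring
      _ ≤ (N * K ^ n) * (Y * K ^ (2 * n + 1) * R0) := Nat.mul_le_mul_right _ hNK
      _ = (Y * K ^ (n + 1)) * L := by rw [hL, ← pow_mul]; ring
  have hsc0 := hscale 1 (by decide) 0 (by omega)
  have hLR : L ≤ R := by
    have := hsc0.hlR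
    rw [Nat.sub_zero] at this
    exact this
  have hY10 : 10000 ≤ Y * K ^ (n + 1) := by
    have a3 : Y ≤ Y * K ^ (n + 1) := Nat.le_mul_of_pos_right _ (by positivity)
    omega
  obtain ⟨c1, c2, c3⟩ := hP (n + 1) le_rfl
  have hlow := minority4 R L (Y * K ^ (n + 1)) b (P (n + 1)) hY10 c1
    (fun p hp => (hdv (n + 1) le_rfl p hp).trans (Dvd.intro_left _ rfl)) c3 hLpos hLR hbig g
  have hVpos : (0 : ℝ) < #(pts (P (n + 1))) := by
    have := hscale 1 (by decide) n le_rfl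
    exact_mod_cast card_pos.2 this.hV
  have hLr : (0 : ℝ) < L := by exact_mod_cast hLpos
  have hup : ∑ i ∈ Icc 1 4, ∑ y : ZMod R, (mi (pts (P (n + 1))) (pos R) (sp2 b i) L y (g i y) : ℝ) ≤
      4 * (12 * √τ * (#(pts (P (n + 1))) * L)) := by
    refine (sum_le_sum fun i hi => hg i hi).trans (le_of_eq ?_)
    rw [sum_const, Nat.card_Icc, nsmul_eq_mul]
    norm_num
  have hkey : (1 : ℝ) / 128 ≤ 48 * √τ := by
    have h3 := hlow.trans hup
    have h4 : (0 : ℝ) < #(pts (P (n + 1))) * L := by positivity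
    by_contra h5
    push Not at h5
    nlinarith
  have hτ1 : (1 : ℝ) / 37748736 ≤ τ := by
    have h3 : (1 : ℝ) / 6144 ≤ √τ := by linarith
    have h4 : 0 ≤ τ := by
      by_contra h5
      push Not at h5
      rw [Real.sqrt_eq_zero_of_nonpos h5.le] at h3
      norm_num at h3
    have h5 : (1 / 6144 : ℝ) ^ 2 ≤ √τ ^ 2 := by
      apply pow_le_pow_left₀ (by norm_num) h3
    rw [Real.sq_sqrt h4] at h5
    norm_num at h5 ⊢
    exact h5
  rw [hτ, sum_add_distrib, ← mul_sum, sum_const, card_range, nsmul_eq_mul] at hτ1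
  have hMr : (0 : ℝ) < M := by exact_mod_cast hM
  have hNr : (0 : ℝ) < N := by exact_mod_cast hN
  have hMN : (M : ℝ) ≤ 32 * N := by exact_mod_cast hN2
  have h6 : ((n + 1 : ℕ) : ℝ) * (7 * K * D / N) ≤ 224 / 10 ^ 11 := by
    rw [mul_div_assoc', div_le_div_iff₀ hNr (by norm_num)]
    nlinarith
  have h7 : (1 : ℝ) / 37748736 - 224 / 10 ^ 11 ≤ 512 * ∑ j ∈ range (n + 1), dl b M (P (j + 1)) (P j) := by
    linarith
  have h8 : (512 : ℝ) / 10 ^ 11 ≤ 1 / 37748736 - 224 / 10 ^ 11 := by norm_num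
  linarith

end DS69
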