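import Pool.Agent.LibDS69.N0

/-!
# [DS69 N4] Kloosterman sums over the fractions with denominator `p`
PLAN. `R = p g`, `h = (n : ℕ)`: `ψ_R(h * (x g : ℕ)) = exp(2πi n x g/(p g)) = ψ_p(n x)` (`ZMod.stdAddChar_coe` /
`ZMod.stdAddChar_apply`, `ZMod.toCircle_natCast`...). `ph p b x = (Kloo.K p (b x^2)).re / √p` and `Kloo.K` is real (`Kloo.K_conj`; the private lemma
`K2c_ph` of `LibCS68/K2c.lean` is exactly this; copy it, and `K2c_K0`, `K2c_sumU`: sum over `U p` = sum over `ZMod p` minus the term `0`).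
`sum_K` (`LibCS68/K2a.lean`): `∑_{u : ZMod p} K(b u^2) ψ(n u) = p χ(n^2 - 4b)`, `‖χ‖ ≤ 1` (`K2b_chi_norm`), and `K p 0 = -1`:
`‖∑_{x ∈ U p}‖ ≤ (p + 1)/√p ≤ √p + 1`.
`abs_lower`: `ph_half` with `j = 1` on `AA p = Icc 1 ((p-1)/2)`, and `U p = AA p ∪ (p - AA p)`, `ph p b (p - x) = ph p b x`
(`K3_ph`, `K3_neg`, or `K3_half` with `g = |ph|`; `|ph p b 0| ≥ 0` has to be removed: it is better to split `U p` directly).
-/
set_option autoImplicit false
open Finset CS68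

namespace DS69

private theorem N4_ph (d : ℕ) (hd : 0 < d) (b r : ℤ) :
    haveI : NeZero d := ⟨hd.ne'⟩
    ((ph d b r : ℝ) : ℂ) = Kloo.K d ((b : ZMod d) * (r : ZMod d) ^ 2) / ((√(d : ℝ) : ℝ) : ℂ) := by
  have : NeZero d := ⟨hd.ne'⟩
  have h1 : kl (b * r ^ 2) 1 d = Kloo.K d ((b : ZMod d) * (r : ZMod d) ^ 2) := by
    rw [S1_kl]
    push_cast
    rfl
  obtain ⟨s, hs⟩ := Complex.conj_eq_iff_real.1 (Kloo.K_conj d ((b : ZMod d) * (r : ZMod d) ^ 2))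
  show ((ph d b r : ℝ) : ℂ) = Kloo.K d ((b : ZMod d) * (r : ZMod d) ^ 2) / ((√(d : ℝ) : ℝ) : ℂ)
  unfold ph
  rw [h1, hs, Complex.ofReal_re, Complex.ofReal_div]

private theorem N4_K0 (d : ℕ) [hd : Fact d.Prime] : Kloo.K d 0 = -1 := by
  unfold Kloo.K
  have h1 := Kloo.sum_units_eq (d := d) (fun x => (ZMod.stdAddChar (1 * x) : ℂ))
  rw [Kloo.sum_psi_zero 1 one_ne_zero] at h1
  simp only [mul_zero, AddChar.map_zero_eq_one, one_mul] at h1
  have h2 : ∑ u : (ZMod d)ˣ, (ZMod.stdAddChar (0 * (u : ZMod d) + ((u⁻¹ : (ZMod d)ˣ) : ZMod d)) : ℂ) =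
      ∑ u : (ZMod d)ˣ, (ZMod.stdAddChar (u : ZMod d) : ℂ) :=
    Fintype.sum_equiv (Equiv.inv _) _ _ fun u => by rw [zero_mul, zero_add]; rfl
  rw [h2]
  linear_combination -h1

private theorem N4_sumU {M : Type} [AddCommGroup M] (d : ℕ) [hd : Fact d.Prime] (F : ZMod d → M) :
    ∑ j ∈ U d, F (j : ZMod d) = ∑ u : ZMod d, F u - F 0 := by
  classical
  rw [eq_sub_iff_add_eq, ← Finset.sum_erase_add _ _ (Finset.mem_univ (0 : ZMod d))]
  congr 1
  refine sum_bij (fun (j : ℕ) _ => (j : ZMod d)) ?_ ?_ ?_ ?_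
  · intro j hj
    unfold U at hj
    rw [mem_filter, mem_range] at hj
    rw [mem_erase]
    refine ⟨?_, mem_univ _⟩
    rw [Ne, ZMod.natCast_eq_zero_iff]
    intro h
    have h1 := Nat.Coprime.eq_one_of_dvd (Nat.Coprime.symm hj.2) h
    exact hd.out.one_lt.ne' h1
  · intro i hi j hj h
    unfold U at hi hj
    rw [mem_filter, mem_range] at hi hj
    have h1 := (ZMod.natCast_eq_natCast_iff' i j d).1 h
    rwa [Nat.mod_eq_of_lt hi.1, Nat.mod_eq_of_lt hj.1] at h1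
  · intro u hu
    rw [mem_erase] at hu
    refine ⟨u.val, ?_, ?_⟩
    · unfold U
      rw [mem_filter, mem_range]
      refine ⟨ZMod.val_lt u, ?_⟩
      rw [Nat.coprime_comm, hd.out.coprime_iff_not_dvd]
      intro h
      apply hu.1
      have h1 := ZMod.val_lt u
      have h2 : u.val = 0 := Nat.eq_zero_of_dvd_of_lt h h1
      exact (ZMod.val_eq_zero u).1 h2
    · exact ZMod.natCast_zmod_val u
  · intro j _
    rfl

private theorem N4_chi_norm {d : ℕ} [Fact d.Prime] (x : ZMod d) : ‖Kloo.chi d x‖ ≤ 1 := by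
  rw [Kloo.chi_apply]
  by_cases hx : x = 0
  · subst hx; simp
  · rcases quadraticChar_dichotomy (F := ZMod d) hx with h | h <;> simp [h]

private theorem N4_char (R p : ℕ) [NeZero R] [NeZero p] (hpR : p ∣ R) (h : ZMod R) (x : ℕ) :
    (ZMod.stdAddChar (h * pos R (p, x)) : ℂ) = ZMod.stdAddChar ((h.val : ZMod p) * (x : ZMod p)) := by
  obtain ⟨g, hg⟩ := hpR
  have hp0 : (p : ℂ) ≠ 0 := Nat.cast_ne_zero.2 (NeZero.ne p)
  have hR0 : R ≠ 0 := NeZero.ne R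
  have hg0 : g ≠ 0 := by
    rintro rfl
    exact hR0 (by rw [hg, mul_zero])
  have hgc : (g : ℂ) ≠ 0 := Nat.cast_ne_zero.2 hg0
  have hdiv : R / p = g := by
    rw [hg]
    exact Nat.mul_div_cancel_left g (Nat.pos_of_ne_zero (NeZero.ne p))
  have e1 : h * pos R (p, x) = (((h.val * (x * g) : ℕ) : ℤ) : ZMod R) := by
    rw [pos]
    simp only
    rw [hdiv]
    push_cast
    rw [ZMod.natCast_zmod_val]
  have e2 : (h.val : ZMod p) * (x : ZMod p) = (((h.val * x : ℕ) : ℤ) : ZMod p) := by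
    push_cast
    rfl
  rw [e1, e2, ZMod.stdAddChar_coe, ZMod.stdAddChar_coe]
  congr 1
  have hRc : (R : ℂ) = p * g := by
    rw [hg]
    push_cast
    rfl
  rw [hRc]
  push_cast
  field_simp

theorem ph_sum (R p : ℕ) [NeZero R] (hp : p.Prime) (h2 : p ≠ 2) (hpR : p ∣ R) (b : ℤ) (hb : ¬ (p : ℤ) ∣ b)
    (h : ZMod R) :
    ‖∑ x ∈ U p, (ph p b x : ℂ) * ZMod.stdAddChar (h * pos R (p, x))‖ ≤ √(p : ℝ) + 1 := by
  have hfact : Fact p.Prime := ⟨hp⟩
  have : NeZero p := ⟨hp.ne_zero⟩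
  have hα : (b : ZMod p) ≠ 0 := by
    intro h
    exact hb ((ZMod.intCast_zmod_eq_zero_iff_dvd b p).1 h)
  have hp0 : (0 : ℝ) < p := by exact_mod_cast hp.pos
  have hs : 0 < √(p : ℝ) := Real.sqrt_pos.2 hp0
  have hs1 : 1 ≤ √(p : ℝ) := by
    rw [Real.one_le_sqrt]
    exact_mod_cast hp.one_le
  have e1 : ∑ x ∈ U p, (ph p b x : ℂ) * ZMod.stdAddChar (h * pos R (p, x)) =
      (∑ x ∈ U p, (fun u : ZMod p => Kloo.K p ((b : ZMod p) * u ^ 2) *
        ZMod.stdAddChar ((h.val : ZMod p) * u)) (x : ZMod p)) / ((√(p : ℝ) : ℝ) : ℂ) := by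
    rw [Finset.sum_div]
    refine sum_congr rfl fun x _ => ?_
    have e3 := N4_ph p hp.pos b (x : ℤ)
    rw [N4_char R p hpR h x, e3]
    simp only [Int.cast_natCast]
    ring
  have e8 := N4_sumU p (fun u : ZMod p => Kloo.K p ((b : ZMod p) * u ^ 2) *
    (ZMod.stdAddChar ((h.val : ZMod p) * u) : ℂ))
  rw [e1, e8, sum_K h2 _ _ hα]
  rw [zero_pow two_ne_zero, mul_zero, N4_K0, mul_zero, AddChar.map_zero_eq_one, norm_div,
    Complex.norm_real, Real.norm_eq_abs, abs_of_pos hs, div_le_iff₀ hs]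
  have e4 : ‖(p : ℂ) * Kloo.chi p ((h.val : ZMod p) ^ 2 - 4 * (b : ZMod p)) - -1 * 1‖ ≤ p + 1 := by
    refine (norm_sub_le _ _).trans ?_
    rw [norm_mul, Complex.norm_natCast]
    have e5 := N4_chi_norm (d := p) ((h.val : ZMod p) ^ 2 - 4 * (b : ZMod p))
    have e6 : ‖(-1 * 1 : ℂ)‖ = 1 := by simp
    rw [e6]
    nlinarith [norm_nonneg (Kloo.chi p ((h.val : ZMod p) ^ 2 - 4 * (b : ZMod p)))]
  refine e4.trans ?_
  have e7 : √(p : ℝ) * √(p : ℝ) = p := Real.mul_self_sqrt hp0.le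
  nlinarith

theorem abs_lower (p : ℕ) (hp : p.Prime) (h11 : 11 ≤ p) (b : ℤ) (hb : ¬ (p : ℤ) ∣ b) :
    2 * (p : ℝ) / 5 ≤ ∑ x ∈ U p, |ph p b x| := by
  have hfact : Fact p.Prime := ⟨hp⟩
  have : NeZero p := ⟨hp.ne_zero⟩
  have h2 : p ≠ 2 := by omega
  have h1U : 1 ∈ U p := by
    rw [U, mem_filter, mem_range]
    exact ⟨by omega, Nat.coprime_one_left p⟩
  have h1 := ph_half p hp h11 b hb 1 h1U
  have h3 := K3_half p h2 (K3_g p b) (K3_neg p b) 1 one_ne_zero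
  have h4 : ∑ x ∈ U p, |ph p b x| = ∑ u : ZMod p, K3_g p b u - K3_g p b 0 := by
    rw [← N4_sumU]
    refine sum_congr rfl fun x _ => ?_
    rw [K3_ph, Int.cast_natCast]
  have h5 : ∑ a ∈ AA p, |ph p b (a * 1)| = ∑ a ∈ AA p, K3_g p b ((a : ZMod p) * 1) := by
    refine sum_congr rfl fun a _ => ?_
    rw [K3_ph]
    push_cast
    rfl
  have h6 : ((1 : ℕ) : ℤ) = 1 := rfl
  simp only [h6] at h1
  rw [h5] at h1
  rw [h4, h3]
  linarith

end DS69
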