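import Pool.Agent.LibHU21.S1

/-!
# [DS69 T1] character sum of a quartic (Weil type bound from the library)
PLAN. `LibHU.stepanov` (`Pool/Agent/LibHU21/S1.lean`) with `r = 2`, `v = 4`, `J` the largest natural number with `20 J^2 + 5 ≤ p`
(`J ≥ √(p/20) - 2`), for `f = (X^2 - a)((h - X)^2 - a l^2)` and for `C n * f`, `n` a nonsquare (`FiniteField.exists_nonsquare`):
`f.eval x ^ ((p-1)/2) = 1` iff `quadraticChar = 1` (`ZMod.euler_criterion`, `quadraticChar_eq_pow_of_char_ne_two'`), and for `C n * f` iff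
`quadraticChar (f.eval x) = -1`. So `#{χ(f) = 1}, #{χ(f) = -1} ≤ p/2 + 10.8 √p + 4` (`4.5 p/(2J-1) ≤ 10.8 √p` for `p ≥ 10^4`), and at most 4 zeros
of `f`: `|∑ χ(f)| = |#{1} - #{-1}| ≤ 21.6 √p + 12 ≤ 22 √p`.
Hypothesis of `stepanov` (`f ≠ C c * W^2`): compare coefficients. `c w^2 = 1` for the leading coefficient `w` of `W` (degree 2); put
`W = w (X^2 + u X + t)`: `(X^2 + u X + t)^2 = X^4 + 2u X^3 + (u^2 + 2t) X^2 + 2ut X + t^2` and `f = X^4 - 2h X^3 + (h^2 - a l^2 - a) X^2 + 2ah X
- a (h^2 - a l^2)`. So `u = -h`, `2t = -a(1 + l^2)`, `-2 h t = 2 a h`: `h = 0` or `t = -a`, and `t = -a` gives `l^2 = 1`; if `h = 0` then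
`t^2 = a^2 l^2` gives `(1 + l^2)^2 = 4 l^2`, `(l^2 - 1)^2 = 0`.
-/
set_option autoImplicit false
open Finset

namespace DS69

open Polynomial in
private theorem T1_notsq (p : ℕ) [Fact p.Prime] (hp : 2 < p) (a l h : ZMod p) (ha : a ≠ 0)
    (hl : l ^ 2 ≠ 1) : ¬ ∃ (c : ZMod p) (W : (ZMod p)[X]),
      (X ^ 2 - C a) * ((C h - X) ^ 2 - C (a * l ^ 2)) = C c * W ^ 2 := by
  rintro ⟨c, W, hW⟩
  have h2 : (2 : ZMod p) ≠ 0 := by
    intro h
    have h' : ((2 : ℕ) : ZMod p) = 0 := by exact_mod_cast h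
    rw [ZMod.natCast_eq_zero_iff] at h'
    exact absurd (Nat.le_of_dvd (by norm_num) h') (by omega)
  set f : (ZMod p)[X] := (X ^ 2 - C a) * ((C h - X) ^ 2 - C (a * l ^ 2)) with hf
  have hfe : f = C 1 * X ^ 4 + C (-2 * h) * X ^ 3 + C (h ^ 2 - a * l ^ 2 - a) * X ^ 2
      + C (2 * a * h) * X + C (-(a * (h ^ 2 - a * l ^ 2))) := by
    rw [hf]
    simp only [map_sub, map_mul, map_pow, map_neg, map_one, map_ofNat]
    ring
  have hf4 : f.coeff 4 = 1 := by
    rw [hfe]
    simp only [coeff_add, coeff_C_mul, coeff_X_pow, coeff_X, coeff_C]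
    norm_num
  have hfd : f.natDegree ≤ 4 := by
    rw [hfe]
    compute_degree
  have hfd' : f.natDegree = 4 := by
    refine le_antisymm hfd ?_
    exact le_natDegree_of_ne_zero (by rw [hf4]; exact one_ne_zero)
  have hc : c ≠ 0 := by
    rintro rfl
    rw [map_zero, zero_mul] at hW
    rw [hW] at hf4
    simp at hf4
  have hWd : W.natDegree = 2 := by
    have h1 : (C c * W ^ 2).natDegree = 2 * W.natDegree := by
      rw [natDegree_C_mul hc, natDegree_pow]
    rw [← hW, hfd'] at h1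
    omega
  have hWe : W = C (W.coeff 2) * X ^ 2 + C (W.coeff 1) * X + C (W.coeff 0) := by
    refine eq_quadratic_of_degree_le_two ?_
    exact degree_le_of_natDegree_le hWd.le
  set w2 := W.coeff 2
  set w1 := W.coeff 1
  set w0 := W.coeff 0
  have hE : C (1 - c * w2 ^ 2) * X ^ 4 + C (-2 * h - 2 * c * w2 * w1) * X ^ 3
      + C (h ^ 2 - a * l ^ 2 - a - c * (w1 ^ 2 + 2 * w2 * w0)) * X ^ 2
      + C (2 * a * h - 2 * c * w1 * w0) * X
      + C (-(a * (h ^ 2 - a * l ^ 2)) - c * w0 ^ 2) = (0 : (ZMod p)[X]) := by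
    have h3 : f - C c * W ^ 2 = 0 := by rw [hW, sub_self]
    rw [hfe, hWe] at h3
    rw [← h3]
    simp only [map_sub, map_mul, map_pow, map_neg, map_one, map_ofNat, map_add]
    ring
  have e4 := congrArg (fun q : (ZMod p)[X] => q.coeff 4) hE
  have e3 := congrArg (fun q : (ZMod p)[X] => q.coeff 3) hE
  have e2 := congrArg (fun q : (ZMod p)[X] => q.coeff 2) hE
  have e1 := congrArg (fun q : (ZMod p)[X] => q.coeff 1) hE
  have e0 := congrArg (fun q : (ZMod p)[X] => q.coeff 0) hE
  simp only [coeff_add, coeff_C_mul, coeff_X_pow, coeff_X, coeff_C, coeff_zero] at e4 e3 e2 e1 e0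
  norm_num at e4 e3 e2 e1 e0
  have hw2 : w2 ≠ 0 := by
    intro h0
    rw [h0] at e4
    norm_num at e4
  have E4 : c * w2 ^ 2 = 1 := by linear_combination -e4
  have E3 : c * w2 * w1 = -h := by
    have : 2 * (c * w2 * w1) = 2 * (-h) := by linear_combination -e3
    exact mul_left_cancel₀ h2 this
  have E1 : c * w1 * w0 = a * h := by
    have : 2 * (c * w1 * w0) = 2 * (a * h) := by linear_combination -e1
    exact mul_left_cancel₀ h2 this
  have E2 : c * (w1 ^ 2 + 2 * w2 * w0) = h ^ 2 - a * l ^ 2 - a := by linear_combination -e2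
  have E0 : c * w0 ^ 2 = -(a * (h ^ 2 - a * l ^ 2)) := by linear_combination -e0
  -- `t = c w2 w0`
  set t := c * w2 * w0 with ht
  have F3 : c * w1 ^ 2 = h ^ 2 := by
    have h5 : w2 ^ 2 * c * (c * w1 ^ 2) = h ^ 2 := by
      linear_combination (c * w2 * w1 - h) * E3
    linear_combination h5 - (c * w1 ^ 2) * E4
  have F2 : 2 * t = -(a * (1 + l ^ 2)) := by
    linear_combination E2 - F3 + 2 * ht
  have F1 : h * (t + a) = 0 := by
    have h5 : (c * w2 * w1) * t = (c * w2 ^ 2) * (c * w1 * w0) := by rw [ht]; ring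
    rw [E3, E4, E1] at h5
    linear_combination -h5
  have F0 : t ^ 2 = -(a * (h ^ 2 - a * l ^ 2)) := by
    have h5 : t ^ 2 = (c * w2 ^ 2) * (c * w0 ^ 2) := by rw [ht]; ring
    rw [h5, E4, E0]; ring
  rcases mul_eq_zero.1 F1 with h0 | h0
  · have h6 : a ^ 2 * (l ^ 2 - 1) ^ 2 = 0 := by
      rw [h0] at F0
      linear_combination (-1 : ZMod p) * (2 * t - a * (1 + l ^ 2)) * F2 + 4 * F0
    rcases mul_eq_zero.1 h6 with h7 | h7
    · exact ha (pow_eq_zero_iff (by norm_num) |>.1 h7)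
    · exact hl (sub_eq_zero.1 (pow_eq_zero_iff (by norm_num) |>.1 h7))
  · have h6 : a * (l ^ 2 - 1) = 0 := by
      linear_combination F2 - 2 * h0
    rcases mul_eq_zero.1 h6 with h7 | h7
    · exact ha h7
    · exact hl (sub_eq_zero.1 h7)

private theorem T1_pow_one (p : ℕ) [Fact p.Prime] (hp : 2 < p) (y : ZMod p) :
    y ^ ((p - 1) / 2) = 1 ↔ quadraticChar (ZMod p) y = 1 := by
  have hodd : p % 2 = 1 := by
    rcases (Fact.out : p.Prime).eq_two_or_odd with h | h
    · omega
    · exact h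
  have hpe : (p - 1) / 2 = p / 2 := by omega
  rw [hpe]
  by_cases hy : y = 0
  · subst hy
    have h1 : p / 2 ≠ 0 := by omega
    rw [zero_pow h1, quadraticChar_zero]
    constructor
    · intro h; exact absurd h zero_ne_one
    · intro h; exact absurd h (by norm_num)
  · rw [quadraticChar_one_iff_isSquare hy]
    exact (ZMod.euler_criterion p hy).symm

theorem quartic (p : ℕ) [Fact p.Prime] (hp : 10000 ≤ p) (a l h : ZMod p) (ha : a ≠ 0) (hl : l ^ 2 ≠ 1) :
    |((∑ k : ZMod p, quadraticChar (ZMod p) ((k ^ 2 - a) * ((h - k) ^ 2 - a * l ^ 2)) : ℤ) : ℝ)| ≤ 22 * √(p : ℝ) := by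
  classical
  have hpr : p.Prime := Fact.out
  have hp2 : 2 < p := by omega
  have hodd : p % 2 = 1 := by
    rcases hpr.eq_two_or_odd with h | h
    · omega
    · exact h
  set f : Polynomial (ZMod p) := (Polynomial.X ^ 2 - Polynomial.C a) *
    ((Polynomial.C h - Polynomial.X) ^ 2 - Polynomial.C (a * l ^ 2)) with hf
  have hfeval : ∀ x : ZMod p, f.eval x = (x ^ 2 - a) * ((h - x) ^ 2 - a * l ^ 2) := by
    intro x
    rw [hf]
    simp
  have hfd : f.natDegree ≤ 4 := by
    rw [hf]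
    compute_degree
  have hnsq := T1_notsq p hp2 a l h ha hl
  rw [← hf] at hnsq
  obtain ⟨n, hn⟩ : ∃ n : ZMod p, ¬ IsSquare n := by
    apply FiniteField.exists_nonsquare
    rw [ZMod.ringChar_zmod_n]
    omega
  have hn0 : n ≠ 0 := by
    rintro rfl
    exact hn (IsSquare.zero)
  have hnχ : quadraticChar (ZMod p) n = -1 := by
    rw [quadraticChar_neg_one_iff_not_isSquare]
    exact hn
  have hnsq2 : ¬ ∃ (c : ZMod p) (W : Polynomial (ZMod p)), Polynomial.C n * f = Polynomial.C c * W ^ 2 := by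
    rintro ⟨c, W, hW⟩
    apply hnsq
    refine ⟨n⁻¹ * c, W, ?_⟩
    have : Polynomial.C n⁻¹ * (Polynomial.C n * f) = f := by
      rw [← mul_assoc, ← map_mul, inv_mul_cancel₀ hn0, map_one, one_mul]
    rw [← this, hW, map_mul, mul_assoc]
  -- choice of J
  set J := Nat.sqrt ((p - 5) / 20) with hJ
  have hJ1 : J * J ≤ (p - 5) / 20 := Nat.sqrt_le _
  have hJ2 : (p - 5) / 20 < (J + 1) * (J + 1) := Nat.lt_succ_sqrt _
  have hJ3 : 20 * J ^ 2 + 5 ≤ p := by
    have : 20 * ((p - 5) / 20) ≤ p - 5 := Nat.mul_div_le _ _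
    have h3 : J ^ 2 = J * J := by ring
    rw [h3]; omega
  have hJ4 : p - 5 < 20 * ((J + 1) * (J + 1)) := by omega
  have hJge : 1 ≤ J := by
    by_contra hcon
    have : J = 0 := by omega
    rw [this] at hJ4
    omega
  have hdvd : 2 ∣ p - 1 := by omega
  have hN1 := LibHU.stepanov 2 p le_rfl hdvd f 4 J hfd hnsq hJge (by nlinarith [hJ3])
  have hN2 := LibHU.stepanov 2 p le_rfl hdvd (Polynomial.C n * f) 4 J
    ((Polynomial.natDegree_C_mul_le _ _).trans hfd) hnsq2 hJge (by nlinarith [hJ3])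
  have hF1 : (Finset.univ.filter (fun x : ZMod p => f.eval x ^ ((p - 1) / 2) = 1)) =
      Finset.univ.filter (fun x : ZMod p => quadraticChar (ZMod p) (f.eval x) = 1) := by
    apply Finset.filter_congr
    intro x _
    exact T1_pow_one p hp2 _
  have hF2 : (Finset.univ.filter (fun x : ZMod p => (Polynomial.C n * f).eval x ^ ((p - 1) / 2) = 1)) =
      Finset.univ.filter (fun x : ZMod p => quadraticChar (ZMod p) (f.eval x) = -1) := by
    apply Finset.filter_congr
    intro x _
    rw [T1_pow_one p hp2, Polynomial.eval_mul, Polynomial.eval_C, map_mul, hnχ]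
    constructor
    · intro h; linarith
    · intro h; rw [h]; norm_num
  rw [hF1] at hN1
  rw [hF2] at hN2
  set A := Finset.univ.filter (fun x : ZMod p => quadraticChar (ZMod p) (f.eval x) = 1) with hA
  set B := Finset.univ.filter (fun x : ZMod p => quadraticChar (ZMod p) (f.eval x) = -1) with hB
  set Z := Finset.univ.filter (fun x : ZMod p => f.eval x = 0) with hZ
  have hf0 : f ≠ 0 := by
    rintro h0
    exact hnsq ⟨0, 0, by rw [h0]; simp⟩
  have hZc : Z.card ≤ 4 := by
    have h1 : Z ⊆ f.roots.toFinset := by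
      intro x hx
      rw [Multiset.mem_toFinset, Polynomial.mem_roots hf0]
      exact (Finset.mem_filter.1 hx).2
    calc Z.card ≤ f.roots.toFinset.card := Finset.card_le_card h1
      _ ≤ Multiset.card f.roots := Multiset.toFinset_card_le _
      _ ≤ f.natDegree := Polynomial.card_roots' f
      _ ≤ 4 := hfd
  have hsum : (∑ k : ZMod p, quadraticChar (ZMod p) ((k ^ 2 - a) * ((h - k) ^ 2 - a * l ^ 2)) : ℤ)
      = (A.card : ℤ) - B.card := by
    have h1 : ∀ k : ZMod p, quadraticChar (ZMod p) ((k ^ 2 - a) * ((h - k) ^ 2 - a * l ^ 2)) =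
        (if quadraticChar (ZMod p) (f.eval k) = 1 then (1 : ℤ) else 0) -
          (if quadraticChar (ZMod p) (f.eval k) = -1 then (1 : ℤ) else 0) := by
      intro k
      rw [← hfeval]
      by_cases h0 : f.eval k = 0
      · rw [h0, quadraticChar_zero]; norm_num
      · rcases quadraticChar_dichotomy h0 with h2 | h2
        · rw [h2]; norm_num
        · rw [h2]; norm_num
    rw [Finset.sum_congr rfl (fun k _ => h1 k), Finset.sum_sub_distrib]
    rw [Finset.sum_boole, Finset.sum_boole]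
  have hcard : A.card + B.card + Z.card = p := by
    have h1 : (Finset.univ : Finset (ZMod p)) = A ∪ B ∪ Z := by
      ext x
      simp only [Finset.mem_univ, true_iff, Finset.mem_union, hA, hB, hZ, Finset.mem_filter,
        true_and]
      by_cases h0 : f.eval x = 0
      · exact Or.inr h0
      · exact Or.inl (quadraticChar_dichotomy h0)
    have h2 : Disjoint A B := by
      rw [Finset.disjoint_left]
      intro x hx hy
      rw [hA, Finset.mem_filter] at hx
      rw [hB, Finset.mem_filter] at hy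
      rw [hx.2] at hy
      norm_num at hy
    have h3 : Disjoint (A ∪ B) Z := by
      rw [Finset.disjoint_left]
      intro x hx hy
      rw [hZ, Finset.mem_filter] at hy
      rw [Finset.mem_union, hA, hB, Finset.mem_filter, Finset.mem_filter, hy.2,
        quadraticChar_zero] at hx
      norm_num at hx
    have h4 : (Finset.univ : Finset (ZMod p)).card = p := by
      rw [Finset.card_univ, ZMod.card]
    rw [h1, Finset.card_union_of_disjoint h3, Finset.card_union_of_disjoint h2] at h4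
    exact h4
  rw [hsum]
  -- real computation
  have r1 : (2 * (J : ℝ) - 1) * A.card ≤ (2 * (J : ℝ) - 1) * 4 + 5 * p + ((J : ℝ) - 1) * p := by
    have h := (Nat.cast_le (α := ℝ)).2 hN1
    push_cast [Nat.cast_sub (show 1 ≤ 2 * J by omega), Nat.cast_sub hJge] at h
    linarith
  have r2 : (2 * (J : ℝ) - 1) * B.card ≤ (2 * (J : ℝ) - 1) * 4 + 5 * p + ((J : ℝ) - 1) * p := by
    have h := (Nat.cast_le (α := ℝ)).2 hN2
    push_cast [Nat.cast_sub (show 1 ≤ 2 * J by omega), Nat.cast_sub hJge] at h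
    linarith
  have r3 : (A.card : ℝ) + B.card + Z.card = p := by exact_mod_cast hcard
  have r4 : (Z.card : ℝ) ≤ 4 := by exact_mod_cast hZc
  have r5 : (0 : ℝ) ≤ Z.card := Nat.cast_nonneg _
  set s := √(p : ℝ) with hs
  have hs2 : s * s = p := Real.mul_self_sqrt (Nat.cast_nonneg _)
  have hs100 : 100 ≤ s := by
    rw [hs]
    apply Real.le_sqrt_of_sq_le
    have : (10000 : ℝ) ≤ p := by exact_mod_cast hp
    linarith
  have hJr : (s * s - 5) < 20 * (((J : ℝ) + 1) * ((J : ℝ) + 1)) := by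
    have h := (Nat.cast_lt (α := ℝ)).2 hJ4
    push_cast [Nat.cast_sub (show 5 ≤ p by omega)] at h
    rw [hs2]
    linarith
  have hJ0 : (1 : ℝ) ≤ J := by exact_mod_cast hJge
  have hJl : (0.2235 : ℝ) * s ≤ (J : ℝ) + 1 := by
    by_contra hcon
    push Not at hcon
    nlinarith
  have hkey : 12 * (2 * (J : ℝ) - 1) + 9 * (s * s) ≤ 22 * s * (2 * (J : ℝ) - 1) := by
    nlinarith
  have hpos : 0 < 2 * (J : ℝ) - 1 := by linarith
  push_cast
  rw [abs_le]
  constructor
  · by_contra hcon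
    push Not at hcon
    -- B large
    have h1 : (p : ℝ) + 22 * s - 4 < 2 * B.card := by linarith
    have h2 : (2 * (J : ℝ) - 1) * ((p : ℝ) + 22 * s - 4) < (2 * (J : ℝ) - 1) * (2 * B.card) :=
      mul_lt_mul_of_pos_left h1 hpos
    rw [← hs2] at h2 r2
    nlinarith
  · by_contra hcon
    push Not at hcon
    have h1 : (p : ℝ) + 22 * s - 4 < 2 * A.card := by linarith
    have h2 : (2 * (J : ℝ) - 1) * ((p : ℝ) + 22 * s - 4) < (2 * (J : ℝ) - 1) * (2 * A.card) :=
      mul_lt_mul_of_pos_left h1 hpos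
    rw [← hs2] at h2 r1
    nlinarith

end DS69
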